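import Pool.Agent.NBC.Stmts
import Pool.Agent.NNDT.Core

/-!
# Module BLD: blindness
-/

set_option autoImplicit false

namespace Pool.Agent.NBC

open Finset Pool.Agent.NegLim Pool.Agent.NLM

/-! ### inputs -/

theorem bld_xin {W E Xn Xp : Type} (T : Tests W E Xn Xp) (a : W → St Xn Xp) (e : E) :
    T.xin a e = true ↔ ∃ j, e ∈ T.B j ∧ T.val j (a j) e = true := by
  simp only [Tests.xin, decide_eq_true_eq]

/-- Larger configurations give larger inputs. -/
theorem bld_xin_mono {W E Xn Xp : Type} (T : Tests W E Xn Xp) (a a' : W → St Xn Xp)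
    (h : ∀ w, a w = St.emp ∨ a w = a' w) (e : E) (he : T.xin a e = true) : T.xin a' e = true := by
  rw [bld_xin] at he ⊢
  obtain ⟨j, h1, h2⟩ := he
  refine ⟨j, h1, ?_⟩
  rcases h j with h3 | h3
  · rw [h3] at h2
    exact absurd h2 (by simp [Tests.val])
  · rw [← h3]
    exact h2

/-! ### restriction of words -/

theorem bld_restrict {X : Type} [Fintype X] [Nonempty X] {m K : ℕ} (ι : Fin m → Fin K)
    (hι : Function.Injective ι) (P : (Fin K → X) → Prop) (P' : (Fin m → X) → Prop)
    [DecidablePred P] [DecidablePred P']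
    (hP : ∀ χ, P χ → P' (χ ∘ ι))
    (h : 3 * Fintype.card X ^ K ≤ 4 * ((univ : Finset (Fin K → X)).filter fun χ => P χ).card) :
    3 * Fintype.card X ^ m ≤ 4 * ((univ : Finset (Fin m → X)).filter fun θ => P' θ).card := by
  classical
  let e : (Fin K → X) ≃ (Fin m → X) × ({x // ¬ x ∈ Set.range ι} → X) :=
    (Equiv.piEquivPiSubtypeProd (fun x => x ∈ Set.range ι) fun _ => X).trans
      (Equiv.prodCongr (Equiv.arrowCongr (Equiv.ofInjective ι hι).symm (Equiv.refl X))
        (Equiv.refl _))
  have he : ∀ χ, (e χ).1 = χ ∘ ι := by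
    intro χ
    funext i
    rfl
  have h1 : ((univ : Finset (Fin K → X)).filter fun χ => P χ).card ≤
      (((univ : Finset (Fin m → X)).filter fun θ => P' θ) ×ˢ
        (univ : Finset ({x // ¬ x ∈ Set.range ι} → X))).card := by
    refine Finset.card_le_card_of_injOn e ?_ (e.injective.injOn)
    intro χ hχ
    rw [Finset.mem_coe, Finset.mem_filter] at hχ
    rw [Finset.mem_coe, Finset.mem_product, Finset.mem_filter, he]
    exact ⟨⟨Finset.mem_univ _, hP χ hχ.2⟩, Finset.mem_univ _⟩
  have h2 : Fintype.card X ^ K =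
      Fintype.card X ^ m * Fintype.card ({x // ¬ x ∈ Set.range ι} → X) := by
    have h3 := Fintype.card_congr e
    rw [Fintype.card_prod, Fintype.card_fun, Fintype.card_fun, Fintype.card_fin,
      Fintype.card_fin] at h3
    exact h3
  rw [Finset.card_product, Finset.card_univ] at h1
  have h4 : 0 < Fintype.card ({x // ¬ x ∈ Set.range ι} → X) := Fintype.card_pos
  refine Nat.le_of_mul_le_mul_right ?_ h4
  calc 3 * Fintype.card X ^ m * Fintype.card ({x // ¬ x ∈ Set.range ι} → X)
      = 3 * Fintype.card X ^ K := by rw [h2]; ring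
    _ ≤ 4 * ((univ : Finset (Fin K → X)).filter fun χ => P χ).card := h
    _ ≤ 4 * (((univ : Finset (Fin m → X)).filter fun θ => P' θ).card *
          Fintype.card ({x // ¬ x ∈ Set.range ι} → X)) := Nat.mul_le_mul_left _ h1
    _ = _ := by ring

/-- Pigeonhole. -/
theorem bld_pigeon {Θ Pt : Type} [Fintype Θ] [Fintype Pt] {τ n : ℕ} (hn : 0 < n)
    (hτ : Fintype.card Pt ≤ 2 ^ τ) (R : Pt → Θ → Prop) [∀ p, DecidablePred (R p)]
    [DecidablePred fun θ => ∃ p, R p θ]
    (h : 3 * n ≤ 4 * ((univ : Finset Θ).filter fun θ => ∃ p, R p θ).card) :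
    ∃ p, n ≤ 2 ^ (τ + 1) * ((univ : Finset Θ).filter fun θ => R p θ).card := by
  classical
  have hne : Nonempty Pt := by
    have h1 : 0 < ((univ : Finset Θ).filter fun θ => ∃ p, R p θ).card := by omega
    obtain ⟨θ, hθ⟩ := Finset.card_pos.1 h1
    obtain ⟨p, _⟩ := (Finset.mem_filter.1 hθ).2
    exact ⟨p⟩
  obtain ⟨p, _, hp⟩ := Finset.exists_max_image (univ : Finset Pt)
    (fun p => ((univ : Finset Θ).filter fun θ => R p θ).card) Finset.univ_nonempty
  refine ⟨p, ?_⟩
  have h1 : ((univ : Finset Θ).filter fun θ => ∃ p, R p θ) ⊆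
      (univ : Finset Pt).biUnion fun p => (univ : Finset Θ).filter fun θ => R p θ := by
    intro θ hθ
    obtain ⟨q, hq⟩ := (Finset.mem_filter.1 hθ).2
    exact Finset.mem_biUnion.2 ⟨q, Finset.mem_univ _,
      Finset.mem_filter.2 ⟨Finset.mem_univ _, hq⟩⟩
  have h2 : ((univ : Finset Θ).filter fun θ => ∃ p, R p θ).card ≤
      2 ^ τ * ((univ : Finset Θ).filter fun θ => R p θ).card := by
    calc _ ≤ _ := Finset.card_le_card h1
      _ ≤ ∑ q : Pt, ((univ : Finset Θ).filter fun θ => R q θ).card := Finset.card_biUnion_le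
      _ ≤ ∑ _q : Pt, ((univ : Finset Θ).filter fun θ => R p θ).card :=
          Finset.sum_le_sum fun q hq => hp q hq
      _ = Fintype.card Pt * ((univ : Finset Θ).filter fun θ => R p θ).card := by
          rw [Finset.sum_const, smul_eq_mul, Finset.card_univ]
      _ ≤ _ := Nat.mul_le_mul_right _ hτ
  have h3 : 3 * n ≤ 3 * (2 ^ (τ + 1) * ((univ : Finset Θ).filter fun θ => R p θ).card) := by
    calc 3 * n ≤ 4 * ((univ : Finset Θ).filter fun θ => ∃ p, R p θ).card := h
      _ ≤ 4 * (2 ^ τ * ((univ : Finset Θ).filter fun θ => R p θ).card) :=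
          Nat.mul_le_mul_left _ h2
      _ ≤ 6 * (2 ^ τ * ((univ : Finset Θ).filter fun θ => R p θ).card) :=
          Nat.mul_le_mul_right _ (by norm_num)
      _ = _ := by rw [pow_succ]; ring
  omega

/-! ### the bad windows -/

open Classical in
/-- There are few bad windows. -/
theorem bld_bad (M K τ S D : ℕ) (E Xn Xp Pt : Type) [Fintype Xn] [Fintype Xp] [Fintype Pt]
    [Nonempty Xn] (T : Tests (Fin M × Fin K) E Xn Xp) (hDis : T.Dis) (hDich : T.Dich S D)
    (hτ : Fintype.card Pt ≤ 2 ^ τ) (F : Pt → (E ⊕ E → Bool) → Bool)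
    (hF : ∀ p, MonSize (F p) S) (a b : Fin M × Fin K → St Xn Xp) (g : Fin M)
    (hb : ∀ i, b (g, i) = St.emp)
    (h : 3 * Fintype.card Xn ^ K ≤ 4 * ((univ : Finset (Fin K → Xn)).filter fun χ =>
      ∃ p, F p (T.inp a (fillN b g χ)) = true).card) :
    ((univ : Finset (Fin K)).filter fun i => Fintype.card Xp <
      D * ((univ : Finset Xp).filter fun x =>
        ¬ ∃ p, F p (T.inp a (setP b g i x)) = true).card).card ≤ 3 * τ + 3 := by
  by_contra hcon
  rw [not_le] at hcon
  obtain ⟨I, hI, hIc⟩ := Finset.exists_subset_card_eq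
    (show 3 * (τ + 1) + 1 ≤ ((univ : Finset (Fin K)).filter fun i => Fintype.card Xp <
      D * ((univ : Finset Xp).filter fun x =>
        ¬ ∃ p, F p (T.inp a (setP b g i x)) = true).card).card by omega)
  let ι : Fin (3 * (τ + 1) + 1) ↪o Fin K := I.orderEmbOfFin hIc
  have hιI : ∀ j, ι j ∈ I := fun j => Finset.orderEmbOfFin_mem I hIc j
  -- the configurations in which the windows of `I` with numbers in `J` are filled
  let cf : (Fin (3 * (τ + 1) + 1) → Prop) → (Fin (3 * (τ + 1) + 1) → Xn) →
      Fin M × Fin K → St Xn Xp := fun J θ w =>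
    if h : w.1 = g ∧ ∃ j, J j ∧ ι j = w.2 then St.neu (θ h.2.choose) else b w
  have hcf1 : ∀ J θ j, J j → cf J θ (g, ι j) = St.neu (θ j) := by
    intro J θ j hj
    have h1 : (g, ι j).1 = g ∧ ∃ j', J j' ∧ ι j' = (g, ι j).2 := ⟨rfl, j, hj, rfl⟩
    have h2 : h1.2.choose = j := ι.injective h1.2.choose_spec.2
    show (if h : (g, ι j).1 = g ∧ ∃ j', J j' ∧ ι j' = (g, ι j).2 then
      St.neu (θ h.2.choose) else b (g, ι j)) = _
    rw [dif_pos h1, h2]
  have hcf2 : ∀ J θ w, (¬ (w.1 = g ∧ ∃ j, J j ∧ ι j = w.2)) → cf J θ w = b w := by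
    intro J θ w hw
    exact dif_neg hw
  have hcfs : ∀ J θ w, cf J θ w = b w ∨ ∃ j, J j ∧ w = (g, ι j) := by
    intro J θ w
    by_cases hw : w.1 = g ∧ ∃ j, J j ∧ ι j = w.2
    · obtain ⟨h1, j, hj, h2⟩ := hw
      exact Or.inr ⟨j, hj, Prod.ext h1 h2.symm⟩
    · exact Or.inl (hcf2 J θ w hw)
  -- fillings of the windows of `I`
  have h1 := bld_restrict ι ι.injective (fun χ => ∃ p, F p (T.inp a (fillN b g χ)) = true)
    (fun θ => ∃ p, F p (T.inp a (cf (fun _ => True) θ)) = true) (by
      rintro χ ⟨p, hp⟩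
      refine ⟨p, NNDT.MonSize.monotone (hF p) _ _ ?_ hp⟩
      rintro (e | e) he
      · exact he
      · have he' : (!(T.xin (fillN b g χ) e)) = true := he
        show (!(T.xin (cf (fun _ => True) (χ ∘ ι)) e)) = true
        rw [Bool.not_eq_true'] at he' ⊢
        by_contra hne
        rw [Bool.not_eq_false] at hne
        have h3 := bld_xin_mono T _ (fillN b g χ) (fun w => by
          rcases hcfs (fun _ => True) (χ ∘ ι) w with h4 | ⟨j, _, rfl⟩
          · by_cases hw : w.1 = g
            · left
              rw [h4]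
              have : w = (g, w.2) := Prod.ext hw rfl
              rw [this]
              exact hb _
            · right
              rw [h4]
              unfold fillN
              rw [if_neg hw]
          · right
            rw [hcf1 _ _ _ trivial]
            unfold fillN
            rw [if_pos rfl]
            rfl) e hne
        rw [he'] at h3
        exact absurd h3 (by decide)) h
  obtain ⟨p, hp⟩ := bld_pigeon (Nat.pow_pos Fintype.card_pos) hτ
    (fun p θ => F p (T.inp a (cf (fun _ => True) θ)) = true) h1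
  obtain ⟨i, pre, hi⟩ := NNDT.exists_letter (le_refl (3 * (τ + 1) + 1))
    ((univ : Finset (Fin (3 * (τ + 1) + 1) → Xn)).filter fun θ =>
      F p (T.inp a (cf (fun _ => True) θ)) = true) Fintype.card_pos hp
  -- the substitution
  let σ : (E → Bool) → E ⊕ E → Bool := fun y => Sum.elim (T.xin a) fun e =>
    if e ∈ T.B (g, ι i) then y e else !(T.xin (cf (fun j => j < i) pre) e)
  have hσ : IsProj σ := by
    rintro (e | e)
    · exact Or.inr (Or.inr ⟨T.xin a e, rfl⟩)
    · by_cases he : e ∈ T.B (g, ι i)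
      · refine Or.inr (Or.inl ⟨e, ?_⟩)
        funext y
        show (if e ∈ T.B (g, ι i) then y e else _) = _
        rw [if_pos he]
      · refine Or.inr (Or.inr ⟨!(T.xin (cf (fun j => j < i) pre) e), ?_⟩)
        funext y
        show (if e ∈ T.B (g, ι i) then y e else _) = _
        rw [if_neg he]
  have h2 := hDich (g, ι i) (fun y => F p (σ y)) ((hF p).comp hσ) (by
    refine lt_of_lt_of_le hi (Nat.mul_le_mul_left _ (Finset.card_le_card ?_))
    intro c hc
    rw [Finset.mem_filter] at hc ⊢
    obtain ⟨_, θ, hθ, hpre, rfl⟩ := hc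
    refine ⟨Finset.mem_univ _, NNDT.MonSize.monotone (hF p) _ _ ?_ (Finset.mem_filter.1 hθ).2⟩
    rintro (e | e) he
    · exact he
    · have he' : (!(T.xin (cf (fun _ => True) θ) e)) = true := he
      rw [Bool.not_eq_true'] at he'
      show (if e ∈ T.B (g, ι i) then !(T.neu (g, ι i) (θ i) e)
        else !(T.xin (cf (fun j => j < i) pre) e)) = true
      by_cases hB : e ∈ T.B (g, ι i)
      · rw [if_pos hB, Bool.not_eq_true']
        by_contra hne
        rw [Bool.not_eq_false] at hne
        have h3 : T.xin (cf (fun _ => True) θ) e = true := by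
          rw [bld_xin]
          refine ⟨(g, ι i), hB, ?_⟩
          rw [hcf1 _ _ _ trivial]
          exact hne
        rw [he'] at h3
        exact absurd h3 (by decide)
      · rw [if_neg hB, Bool.not_eq_true']
        by_contra hne
        rw [Bool.not_eq_false] at hne
        have h3 := bld_xin_mono T _ (cf (fun _ => True) θ) (fun w => by
          rcases hcfs (fun j => j < i) pre w with h4 | ⟨j, hj, rfl⟩
          · rcases hcfs (fun _ => True) θ w with h5 | ⟨j, _, rfl⟩
            · right
              rw [h4, h5]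
            · left
              rw [h4]
              exact hb _
          · right
            rw [hcf1 (fun j => j < i) pre j hj, hcf1 (fun _ => True) θ j trivial, hpre j hj]) e hne
        rw [he'] at h3
        exact absurd h3 (by decide))
  have hbad := (Finset.mem_filter.1 (hI (hιI i))).2
  refine absurd (hbad.trans_le (Nat.mul_le_mul_left D (Finset.card_le_card ?_))) (not_lt.2 h2)
  intro x hx
  rw [Finset.mem_filter] at hx ⊢
  refine ⟨Finset.mem_univ _, ?_⟩
  by_contra hne
  rw [Bool.not_eq_false] at hne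
  refine hx.2 ⟨p, NNDT.MonSize.monotone (hF p) _ _ ?_ hne⟩
  rintro (e | e) he
  · exact he
  · have he' : (if e ∈ T.B (g, ι i) then !(T.pos (g, ι i) x e)
        else !(T.xin (cf (fun j => j < i) pre) e)) = true := he
    show (!(T.xin (setP b g (ι i) x) e)) = true
    rw [Bool.not_eq_true']
    by_contra hne2
    rw [Bool.not_eq_false, bld_xin] at hne2
    obtain ⟨w, hw1, hw2⟩ := hne2
    by_cases hw : w = (g, ι i)
    · subst hw
      have h3 : setP b g (ι i) x (g, ι i) = St.pos x := by
        unfold setP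
        rw [if_pos rfl]
      rw [h3] at hw2
      rw [if_pos hw1] at he'
      have hw3 : T.pos (g, ι i) x e = true := hw2
      rw [hw3] at he'
      exact absurd he' (by decide)
    · have hB : ¬ e ∈ T.B (g, ι i) := fun hB => hw (hDis _ _ e hw1 hB)
      have h3 : setP b g (ι i) x w = b w := by
        unfold setP
        rw [if_neg hw]
      rw [h3] at hw2
      rw [if_neg hB, Bool.not_eq_true'] at he'
      have h4 : T.xin (cf (fun j => j < i) pre) e = true := by
        rw [bld_xin]
        refine ⟨w, hw1, ?_⟩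
        rcases hcfs (fun j => j < i) pre w with h4 | ⟨j, hj, rfl⟩
        · rw [h4]
          exact hw2
        · rw [hb] at hw2
          exact absurd hw2 (by simp [Tests.val])
      rw [he'] at h4
      exact absurd h4 (by decide)

open Classical in
theorem BLD_thm : Stmt_BLD := by
  intro M K τ S D E Xn Xp Pt _ _ _ _ T hDis hDich hτ F hF a b g hb h
  have hbad := bld_bad M K τ S D E Xn Xp Pt T hDis hDich hτ F hF a b g hb h
  have h1 : ((univ : Finset (Fin K × Xp)).filter fun z =>
      ¬ ∃ p, F p (T.inp a (setP b g z.1 z.2)) = true).card =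
      ∑ i : Fin K, ((univ : Finset Xp).filter fun x =>
        ¬ ∃ p, F p (T.inp a (setP b g i x)) = true).card := by
    simp_rw [Finset.card_filter]
    rw [Fintype.sum_prod_type]
  rw [h1, Finset.mul_sum]
  have h2 : ∀ i : Fin K, D * ((univ : Finset Xp).filter fun x =>
        ¬ ∃ p, F p (T.inp a (setP b g i x)) = true).card ≤
      Fintype.card Xp + if Fintype.card Xp < D * ((univ : Finset Xp).filter fun x =>
        ¬ ∃ p, F p (T.inp a (setP b g i x)) = true).card then D * Fintype.card Xp else 0 := by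
    intro i
    split_ifs with hi
    · exact (Nat.mul_le_mul_left D (Finset.card_le_univ _)).trans (Nat.le_add_left _ _)
    · exact (not_lt.1 hi).trans (Nat.le_add_right _ _)
  refine (Finset.sum_le_sum fun i _ => h2 i).trans ?_
  rw [Finset.sum_add_distrib, ← Finset.sum_filter, Finset.sum_const, Finset.sum_const,
    Finset.card_univ, Fintype.card_fin, smul_eq_mul, smul_eq_mul]
  calc K * Fintype.card Xp + _ * (D * Fintype.card Xp)
      ≤ K * Fintype.card Xp + (3 * τ + 3) * (D * Fintype.card Xp) :=
        Nat.add_le_add_left (Nat.mul_le_mul_right _ hbad) _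
    _ = (K + D * (3 * τ + 3)) * Fintype.card Xp := by ring

end Pool.Agent.NBC
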