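import Pool.Agent.NBC.Stmts

/-!
# Facts about the configurations of the random chain
-/

set_option autoImplicit false

namespace Pool.Agent.NBC

open Finset

section

variable {M K J : ℕ} {Xn Xp : Type}

theorem cfs_surj (ω : Play M K Xn Xp) (w : Fin M × Fin K) :
    ∃ (r : Fin M) (i : Fin K), w = (ω.1 r, i) :=
  ⟨ω.1.symm w.1, w.2, by rw [Equiv.apply_symm_apply]⟩

theorem cfs_apply (ω : Play M K Xn Xp) (g l : ℕ) (r : Fin M) (i : Fin K) :
    conf J ω g l (ω.1 r, i) = if (r : ℕ) < g then St.neu (ω.2.1 r i)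
      else if J ≤ (r : ℕ) ∧ (r : ℕ) < J + l ∧ i = (ω.2.2 r).1 then St.pos (ω.2.2 r).2
      else St.emp := by
  simp only [conf, Equiv.symm_apply_apply]

theorem cfs_setP (ω : Play M K Xn Xp) (a : Fin M × Fin K → St Xn Xp) (j r : Fin M)
    (i₀ i : Fin K) (τ : Xp) :
    setP a (ω.1 j) i₀ τ (ω.1 r, i) = if r = j ∧ i = i₀ then St.pos τ else a (ω.1 r, i) := by
  simp only [setP, Prod.mk.injEq, EmbeddingLike.apply_eq_iff_eq]

theorem cfs_fillN (ω : Play M K Xn Xp) (a : Fin M × Fin K → St Xn Xp) (j r : Fin M)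
    (i : Fin K) (χ : Fin K → Xn) :
    fillN a (ω.1 j) χ (ω.1 r, i) = if r = j then St.neu (χ i) else a (ω.1 r, i) := by
  simp only [fillN, EmbeddingLike.apply_eq_iff_eq]

theorem cfs_emp (ω : Play M K Xn Xp) {g l : ℕ} (r : Fin M) (i : Fin K) (h1 : ¬ (r : ℕ) < g)
    (h2 : ¬ (J ≤ (r : ℕ) ∧ (r : ℕ) < J + l)) : conf J ω g l (ω.1 r, i) = St.emp := by
  rw [cfs_apply, if_neg h1, if_neg]
  rintro ⟨h3, h4, _⟩
  exact h2 ⟨h3, h4⟩

/-- The next positive test. -/
theorem cfs_one (ω : Play M K Xn Xp) (g l : ℕ) (j : Fin M) (hj : (j : ℕ) = J + l) (hg : g ≤ J) :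
    (∀ i, conf J ω g l (ω.1 j, i) = St.emp) ∧
      conf J ω g (l + 1) = setP (conf J ω g l) (ω.1 j) (ω.2.2 j).1 (ω.2.2 j).2 := by
  constructor
  · intro i
    exact cfs_emp ω j i (by omega) (by omega)
  · funext w
    obtain ⟨r, i, rfl⟩ := cfs_surj ω w
    rw [cfs_setP, cfs_apply, cfs_apply]
    by_cases hr : r = j
    · subst hr
      rw [if_neg (by omega : ¬ (r : ℕ) < g)]
      by_cases hi : i = (ω.2.2 r).1
      · rw [if_pos ⟨by omega, by omega, hi⟩, if_pos ⟨rfl, hi⟩]
      · rw [if_neg (fun h => hi h.2.2), if_neg (fun h => hi h.2), if_neg (by omega),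
          if_neg (fun h => hi h.2.2)]
    · have hne : (r : ℕ) ≠ J + l := fun h => hr (Fin.ext (by omega))
      rw [if_neg (fun h : r = j ∧ i = (ω.2.2 j).1 => hr h.1)]
      by_cases h1 : (r : ℕ) < g
      · rw [if_pos h1, if_pos h1]
      · rw [if_neg h1, if_neg h1]
        by_cases h2 : J ≤ (r : ℕ) ∧ (r : ℕ) < J + l ∧ i = (ω.2.2 r).1
        · rw [if_pos h2, if_pos ⟨h2.1, by omega, h2.2.2⟩]
        · rw [if_neg h2, if_neg]
          rintro ⟨h3, h4, h5⟩
          exact h2 ⟨h3, by omega, h5⟩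

/-- The next neutral group. -/
theorem cfs_two (ω : Play M K Xn Xp) (g l : ℕ) (j : Fin M) (hj : (j : ℕ) = g) (hg : g < J) :
    (∀ i, conf J ω g l (ω.1 j, i) = St.emp) ∧
      conf J ω (g + 1) l = fillN (conf J ω g l) (ω.1 j) (ω.2.1 j) := by
  constructor
  · intro i
    exact cfs_emp ω j i (by omega) (by omega)
  · funext w
    obtain ⟨r, i, rfl⟩ := cfs_surj ω w
    rw [cfs_fillN, cfs_apply, cfs_apply]
    by_cases hr : r = j
    · subst hr
      rw [if_pos (by omega : (r : ℕ) < g + 1), if_pos rfl]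
    · have hne : (r : ℕ) ≠ g := fun h => hr (Fin.ext (by omega))
      rw [if_neg hr]
      by_cases h1 : (r : ℕ) < g
      · rw [if_pos h1, if_pos (by omega)]
      · rw [if_neg h1, if_neg (by omega)]

theorem cfs_sub (ω : Play M K Xn Xp) (g l g' l' : ℕ)
    (h : ∀ r : Fin M, ¬ (r : ℕ) < g → ¬ (J ≤ (r : ℕ) ∧ (r : ℕ) < J + l) ∨
      (¬ (r : ℕ) < g' ∧ (r : ℕ) < J + l'))
    (hg : g ≤ g') : Sub (conf J ω g l) (conf J ω g' l') := by
  intro w
  obtain ⟨r, i, rfl⟩ := cfs_surj ω w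
  by_cases h1 : (r : ℕ) < g
  · right
    rw [cfs_apply, cfs_apply, if_pos h1, if_pos (by omega)]
  · rcases h r h1 with h2 | ⟨h2, h3⟩
    · left
      exact cfs_emp ω r i h1 h2
    · rw [cfs_apply, cfs_apply, if_neg h1, if_neg h2]
      by_cases h4 : J ≤ (r : ℕ) ∧ (r : ℕ) < J + l ∧ i = (ω.2.2 r).1
      · right
        rw [if_pos h4, if_pos ⟨h4.1, h3, h4.2.2⟩]
      · left
        rw [if_neg h4]

/-- The configuration does not depend on the choices for the role number `J + l`. -/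
theorem cfs_four (ω : Play M K Xn Xp) (g l : ℕ) (j : Fin M) (hj : (j : ℕ) = J + l) (hg : g ≤ J)
    (c : Fin K → Xn) (p : Fin K × Xp) :
    conf J (ω.1, Function.update ω.2.1 j c, Function.update ω.2.2 j p) g l = conf J ω g l := by
  funext w
  obtain ⟨r, i, rfl⟩ := cfs_surj ω w
  have h0 := cfs_apply (J := J) ((ω.1, Function.update ω.2.1 j c, Function.update ω.2.2 j p) :
    Play M K Xn Xp) g l r i
  simp only at h0
  rw [h0, cfs_apply]
  by_cases hr : r = j
  · subst hr
    rw [if_neg (by omega), if_neg (by omega), if_neg (fun h => by omega),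
      if_neg (fun h => by omega)]
  · rw [Function.update_of_ne hr, Function.update_of_ne hr]

/-- The number of the positive tests. -/
theorem cfs_five (ω : Play M K Xn Xp) (g l : ℕ) (hg : g ≤ J) (hl : J + l ≤ M) :
    cntP (conf J ω g l) = l := by
  classical
  let f : Fin l → Fin M × Fin K := fun j =>
    (ω.1 ⟨J + j, by omega⟩, (ω.2.2 ⟨J + j, by omega⟩).1)
  have hf : Function.Injective f := by
    intro a b hab
    have h1 := congrArg Prod.fst hab
    simp only [f, EmbeddingLike.apply_eq_iff_eq, Fin.mk.injEq] at h1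
    exact Fin.ext (by omega)
  have h2 : ((univ : Finset (Fin M × Fin K)).filter fun w => ∃ τ, conf J ω g l w = St.pos τ) =
      univ.image f := by
    ext w
    obtain ⟨r, i, rfl⟩ := cfs_surj ω w
    rw [mem_filter, mem_image]
    constructor
    · rintro ⟨_, τ, hτ⟩
      rw [cfs_apply] at hτ
      split_ifs at hτ with h3 h4
      refine ⟨⟨(r : ℕ) - J, by omega⟩, mem_univ _, ?_⟩
      have h5 : (⟨J + ((⟨(r : ℕ) - J, by omega⟩ : Fin l) : ℕ), by simp only; omega⟩ : Fin M) =
          r := Fin.ext (by simp only; omega)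
      simp only [f]
      rw [Prod.mk.injEq]
      exact ⟨by rw [h5], by rw [h5]; exact h4.2.2.symm⟩
    · rintro ⟨j, _, hj⟩
      simp only [f, Prod.mk.injEq, EmbeddingLike.apply_eq_iff_eq] at hj
      obtain ⟨h3, h4⟩ := hj
      subst h3
      refine ⟨mem_univ _, (ω.2.2 ⟨J + j, by omega⟩).2, ?_⟩
      rw [cfs_apply, if_neg (by simp only; omega), if_pos ⟨by simp only; omega,
        by simp only; omega, h4.symm⟩]
  unfold cntP
  rw [h2, card_image_of_injective _ hf, card_univ, Fintype.card_fin]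

/-- Exchange of two unused roles. -/
theorem cfs_six (ω : Play M K Xn Xp) (g l : ℕ) (i j : Fin M) (hi : (i : ℕ) = g) (hg : g < J)
    (hj : (j : ℕ) = J + l) :
    conf J ((Equiv.swap i j).trans ω.1, ω.2.1 ∘ Equiv.swap i j, ω.2.2 ∘ Equiv.swap i j) g l =
      conf J ω g l := by
  funext w
  obtain ⟨r, k, rfl⟩ := cfs_surj ω w
  have h0 := cfs_apply (J := J) (((Equiv.swap i j).trans ω.1, ω.2.1 ∘ Equiv.swap i j,
    ω.2.2 ∘ Equiv.swap i j) : Play M K Xn Xp) g l (Equiv.swap i j r) k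
  simp only [Equiv.trans_apply, Equiv.swap_apply_self, Function.comp_apply] at h0
  rw [h0]
  by_cases hri : r = i
  · subst hri
    rw [Equiv.swap_apply_left, cfs_emp ω r k (by omega) (by omega), if_neg (by omega),
      if_neg (fun h => by omega)]
  · by_cases hrj : r = j
    · subst hrj
      rw [Equiv.swap_apply_right, cfs_emp ω r k (by omega) (by omega), if_neg (by omega),
        if_neg (fun h => by omega)]
    · rw [Equiv.swap_apply_of_ne_of_ne hri hrj, cfs_apply]

end

theorem CFS_thm : Stmt_CFS := by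
  intro M K J Xn Xp ω g l
  refine ⟨fun j hj hg => cfs_one ω g l j hj hg, fun j hj hg => cfs_two ω g l j hj hg,
    cfs_sub ω g l g (l + 1) (fun r h1 => ?_) le_rfl,
    fun hg => cfs_sub ω g l (g + 1) l (fun r h1 => ?_) (Nat.le_succ g),
    fun j hj hg c p => cfs_four ω g l j hj hg c p, fun hg hl => cfs_five ω g l hg hl,
    fun i j hi hg hj => cfs_six ω g l i j hi hg hj⟩
  · by_cases h2 : J ≤ (r : ℕ) ∧ (r : ℕ) < J + l
    · right
      omega
    · left
      exact h2
  · by_cases h2 : J ≤ (r : ℕ) ∧ (r : ℕ) < J + l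
    · right
      omega
    · left
      exact h2

end Pool.Agent.NBC
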