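import Pool.Agent.NBC.Stmts

/-!
# The number of the cliques
-/

set_option autoImplicit false

namespace Pool.Agent.NBC

open Finset Pool.Agent.NegLim Pool.Agent.NLM
open Pool.Agent.NEG72 (InWin tneg tpos vx vx_inj vx_lt_iff inWin_iff winClq winClq_neg clq_iff
  one_window)

open Classical in
lemma cnt_cntP {M K : ℕ} {Xn Xp : Type} (a : Fin M × Fin K → St Xn Xp) :
    ∃ s : Finset (Fin M × Fin K), cntP a = s.card ∧ ∀ j, j ∈ s ↔ ∃ τ, a j = St.pos τ := by
  refine ⟨_, rfl, fun j => ?_⟩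
  rw [mem_filter]
  exact ⟨fun h => h.2, fun h => ⟨mem_univ _, h⟩⟩

open Classical in
lemma cnt_clqs {v k : ℕ} (x : Edge v → Bool) :
    ∃ s : Finset (Finset (Fin v)), cliques v k x = s.card ∧ ∀ S, S ∈ s ↔ S.card = k ∧
      ∀ e : Edge v, e.1.1 ∈ S → e.1.2 ∈ S → x e = true := by
  refine ⟨_, rfl, fun j => ?_⟩
  rw [mem_filter]
  exact ⟨fun h => h.2, fun h => ⟨mem_univ _, h⟩⟩

section

variable {v k Q b : ℕ}

/-- the clique of a transversal of a window -/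
def cnt_cl {w : ℕ × ℕ} (hw : ∀ i < k, w.1 + i * w.2 < 2 * Q) (hv : k * (2 * Q) * b ≤ v)
    (τ : Fin k → Fin b) : Finset (Fin v) :=
  univ.image fun i : Fin k => vx w hw hv (i, τ i)

lemma cnt_cl_card {w : ℕ × ℕ} (hw : ∀ i < k, w.1 + i * w.2 < 2 * Q) (hv : k * (2 * Q) * b ≤ v)
    (τ : Fin k → Fin b) : (cnt_cl hw hv τ).card = k := by
  have hi : Function.Injective fun i : Fin k => vx w hw hv (i, τ i) := by
    intro i j h
    exact congrArg Prod.fst (vx_inj hw hv h)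
  unfold cnt_cl
  rw [Finset.card_image_of_injective _ hi, card_univ, Fintype.card_fin]

lemma cnt_edge {w : ℕ × ℕ} (hw : ∀ i < k, w.1 + i * w.2 < 2 * Q) (hv : k * (2 * Q) * b ≤ v)
    (τ : Fin k → Fin b) (e : Edge v) (h1 : e.1.1 ∈ cnt_cl hw hv τ)
    (h2 : e.1.2 ∈ cnt_cl hw hv τ) : InWin k Q b w e ∧ tpos hw hv τ e = true := by
  classical
  obtain ⟨i, _, hi'⟩ := mem_image.1 h1
  obtain ⟨j, _, hj'⟩ := mem_image.1 h2
  have hb : 0 < b := lt_of_le_of_lt (Nat.zero_le _) (τ i).2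
  have hij : i < j := by
    rcases lt_trichotomy i j with h | h | h
    · exact h
    · subst h
      rw [hi'] at hj'
      exact absurd e.2 (by rw [hj']; exact lt_irrefl _)
    · have := vx_lt_iff hw hv (p := (j, τ j)) (p' := (i, τ i)) h
      rw [hi', hj'] at this
      exact absurd e.2 (not_lt.2 this.le)
  refine ⟨(inWin_iff hw hv hb).2 ⟨(i, τ i), (j, τ j), hij, hi'.symm, hj'.symm⟩, ?_⟩
  unfold tpos
  rw [decide_eq_true_eq]
  exact ⟨i, j, hi'.symm, hj'.symm⟩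

/-- two different vertices of a set, in order -/
lemma cnt_pair {S : Finset (Fin v)} (hS : 2 ≤ S.card) {u : Fin v} (hu : u ∈ S) :
    ∃ e : Edge v, e.1.1 ∈ S ∧ e.1.2 ∈ S ∧ (u = e.1.1 ∨ u = e.1.2) := by
  obtain ⟨u', hu', hne⟩ := Finset.exists_mem_ne (by omega : 1 < S.card) u
  rcases lt_or_gt_of_ne hne with h3 | h3
  · exact ⟨⟨(u', u), h3⟩, hu', hu, Or.inr rfl⟩
  · exact ⟨⟨(u, u'), h3⟩, hu, hu', Or.inl rfl⟩

variable {M K : ℕ} (hv : k * (2 * Q) * b ≤ v) (A : Finset ℕ) (φ : Fin M × Fin K → ℕ × ℕ)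
  (hφ : ∀ w, ∀ i < k, (φ w).1 + i * (φ w).2 < 2 * Q)

lemma cnt_xin (a : Fin M × Fin K → St (Fin k × Fin b → Fin (k - 1)) (Fin k → Fin b)) (e : Edge v) :
    (winT hv φ hφ).xin a e = true ↔
      ∃ j, InWin k Q b (φ j) e ∧ (winT hv φ hφ).val j (a j) e = true := by
  unfold Tests.xin
  exact @decide_eq_true_iff _ (Classical.propDecidable _)

/-- a clique belongs to one window, with a positive test -/
lemma cnt_clique (hk : 2 ≤ k) (hb : 0 < b) (hA : ThreeAPFree (A : Set ℕ))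
    (hinj : Function.Injective φ) (hD : ∀ w, φ w ∈ Finset.range Q ×ˢ A)
    (a : Fin M × Fin K → St (Fin k × Fin b → Fin (k - 1)) (Fin k → Fin b)) (S : Finset (Fin v))
    (hS : S.card = k)
    (h : ∀ e : Edge v, e.1.1 ∈ S → e.1.2 ∈ S → (winT hv φ hφ).xin a e = true) :
    ∃ (j : Fin M × Fin K) (τ : Fin k → Fin b), a j = St.pos τ ∧ cnt_cl (hφ j) hv τ = S := by
  classical
  have h1 : ∀ e : Edge v, e.1.1 ∈ S → e.1.2 ∈ S →
      ∃ j, InWin k Q b (φ j) e ∧ (winT hv φ hφ).val j (a j) e = true :=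
    fun e he1 he2 => (cnt_xin hv φ hφ a e).1 (h e he1 he2)
  obtain ⟨ww, _, hww⟩ := one_window (Q := Q) (b := b) hA hk hS (fun e he1 he2 => by
    obtain ⟨j, hj, _⟩ := h1 e he1 he2
    exact ⟨φ j, hD j, hj⟩)
  obtain ⟨u, hu⟩ : S.Nonempty := Finset.card_pos.1 (by omega)
  obtain ⟨e0, he1, he2, _⟩ := cnt_pair (by omega) hu
  obtain ⟨j, hj, _⟩ := h1 e0 he1 he2
  have hj0 : ww = φ j := (hww e0 he1 he2).unique hj
  have h2 : ∀ e : Edge v, e.1.1 ∈ S → e.1.2 ∈ S →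
      InWin k Q b (φ j) e ∧ (winT hv φ hφ).val j (a j) e = true := by
    intro e g1 g2
    obtain ⟨j', hj', hv'⟩ := h1 e g1 g2
    have h3 : φ j' = φ j := (hj'.unique (hww e g1 g2)).trans hj0
    have h4 : j' = j := hinj h3
    subst h4
    exact ⟨hj', hv'⟩
  cases haj : a j with
  | emp =>
    have h3 := (h2 e0 he1 he2).2
    rw [haj] at h3
    exact absurd h3 (by simp [Tests.val])
  | neu χ =>
    exfalso
    have h3 := winClq_neg (v := v) (w := φ j) (hφ j) hv hk hb (c := k - 1) (by omega) χ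
    rw [← Bool.not_eq_true] at h3
    apply h3
    unfold winClq
    rw [clq_iff]
    refine ⟨S, hS, fun e g1 g2 => ?_⟩
    obtain ⟨g3, g4⟩ := h2 e g1 g2
    rw [haj] at g4
    rw [Bool.and_eq_true]
    exact ⟨decide_eq_true g3, g4⟩
  | pos τ =>
    refine ⟨j, τ, haj, ?_⟩
    symm
    apply Finset.eq_of_subset_of_card_le
    · intro u hu
      obtain ⟨e, g1, g2, g3⟩ := cnt_pair (by omega) hu
      obtain ⟨_, g4⟩ := h2 e g1 g2
      rw [haj] at g4
      have g5 : tpos (hφ j) hv τ e = true := g4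
      unfold tpos at g5
      rw [decide_eq_true_eq] at g5
      obtain ⟨i, i', g6, g7⟩ := g5
      rcases g3 with rfl | rfl
      · rw [g6]; exact mem_image_of_mem _ (mem_univ _)
      · rw [g7]; exact mem_image_of_mem _ (mem_univ _)
    · rw [cnt_cl_card, hS]

lemma cnt_cliques (hk : 2 ≤ k) (hb : 0 < b) (hA : ThreeAPFree (A : Set ℕ))
    (hinj : Function.Injective φ) (hD : ∀ w, φ w ∈ Finset.range Q ×ˢ A)
    (a : Fin M × Fin K → St (Fin k × Fin b → Fin (k - 1)) (Fin k → Fin b)) :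
    cliques v k (fun e => (winT hv φ hφ).xin a e) = cntP a := by
  obtain ⟨s1, hs1, hm1⟩ := cnt_cntP a
  obtain ⟨s2, hs2, hm2⟩ := cnt_clqs (k := k) (fun e => (winT hv φ hφ).xin a e)
  rw [hs1, hs2]
  symm
  have hτ : ∀ j : Fin M × Fin K, ∃ S : Finset (Fin v), ∀ τ, a j = St.pos τ →
      S = cnt_cl (hφ j) hv τ := by
    intro j
    cases haj : a j with
    | emp => exact ⟨∅, fun τ h => by cases h⟩
    | neu χ => exact ⟨∅, fun τ h => by cases h⟩
    | pos τ => exact ⟨cnt_cl (hφ j) hv τ, fun τ' h => by cases h; rfl⟩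
  choose g hg using hτ
  apply Finset.card_bij (fun j _ => g j)
  · intro j hj
    obtain ⟨τ, hτ⟩ := (hm1 j).1 hj
    apply (hm2 _).2
    rw [hg j τ hτ]
    refine ⟨cnt_cl_card _ _ _, fun e h1 h2 => ?_⟩
    rw [cnt_xin]
    obtain ⟨h3, h4⟩ := cnt_edge (hφ j) hv τ e h1 h2
    refine ⟨j, h3, ?_⟩
    rw [hτ]
    exact h4
  · intro j hj j' hj' h
    obtain ⟨τ, hτ⟩ := (hm1 j).1 hj
    obtain ⟨τ', hτ'⟩ := (hm1 j').1 hj'
    rw [hg j τ hτ, hg j' τ' hτ'] at h
    have hc : 2 ≤ (cnt_cl (hφ j) hv τ).card := by rw [cnt_cl_card]; exact hk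
    obtain ⟨u, hu⟩ : (cnt_cl (hφ j) hv τ).Nonempty := Finset.card_pos.1 (by omega)
    obtain ⟨e, h1, h2, _⟩ := cnt_pair hc hu
    have h3 := (cnt_edge (hφ j) hv τ e h1 h2).1
    rw [h] at h1 h2
    have h4 := (cnt_edge (hφ j') hv τ' e h1 h2).1
    exact hinj (h3.unique h4)
  · intro S hS
    obtain ⟨h1, h2⟩ := (hm2 S).1 hS
    obtain ⟨j, τ, h3, h4⟩ := cnt_clique hv A φ hφ hk hb hA hinj hD a S h1 h2
    exact ⟨j, (hm1 j).2 ⟨τ, h3⟩, by rw [hg j τ h3, h4]⟩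

open Classical in
lemma cnt_indeps (x : Edge v → Bool) : indeps v k (fun e => !(x e)) = cliques v k x := by
  unfold indeps cliques
  congr 1
  apply filter_congr
  intro S _
  constructor
  · rintro ⟨h1, h2⟩
    exact ⟨h1, fun e g1 g2 => by simpa using h2 e g1 g2⟩
  · rintro ⟨h1, h2⟩
    exact ⟨h1, fun e g1 g2 => by simpa using h2 e g1 g2⟩

end

/-- CNT. The number of the cliques. -/
theorem CNT_thm : Stmt_CNT := by
  intro v k Q b M K hv A φ hφ hk hb hA hinj hD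
  refine ⟨?_, ?_⟩
  · intro i j e hi hj
    exact hinj (InWin.unique (e := e) hi hj)
  · intro a b'
    unfold More
    have e1 : (fun e : Edge v => (winT hv φ hφ).inp a b' (Sum.inr e)) =
        fun e => !((winT hv φ hφ).xin b' e) := rfl
    have e2 : (fun e : Edge v => (winT hv φ hφ).inp a b' (Sum.inl e)) =
        fun e => (winT hv φ hφ).xin a e := rfl
    rw [e1, e2, cnt_indeps, cnt_cliques hv A φ hφ hk hb hA hinj hD,
      cnt_cliques hv A φ hφ hk hb hA hinj hD]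

end Pool.Agent.NBC
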