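import Pool.Agent.NBC.Stmts

/-!
# Project NBC, module CON: the chain is short
-/

set_option autoImplicit false

namespace Pool.Agent.NBC

open Finset Pool.Agent.NegLim Pool.Agent.NLM

section

variable {M K q s t : ℕ} {E Xn Xp : Type}

theorem con_xin (T : Tests (Fin M × Fin K) E Xn Xp) {a a' : Fin M × Fin K → St Xn Xp}
    (h : Sub a a') (e : E) (he : T.xin a e = true) : T.xin a' e = true := by
  unfold Tests.xin at he ⊢
  obtain ⟨j, hj, hv⟩ := @of_decide_eq_true _ (Classical.propDecidable _) he
  refine @decide_eq_true _ (Classical.propDecidable _) ⟨j, hj, ?_⟩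
  rcases h j with h1 | h1
  · rw [h1] at hv
    exact absurd hv (by simp [Tests.val])
  · rw [← h1]
    exact hv

theorem con_inp (T : Tests (Fin M × Fin K) E Xn Xp) {a a' : Fin M × Fin K → St Xn Xp}
    (h : Sub a a') (b : Fin M × Fin K → St Xn Xp) (e : E ⊕ E) (he : T.inp a b e = true) :
    T.inp a' b e = true := by
  cases e with
  | inl e => exact con_xin T h e he
  | inr e => exact he

open Classical in
/-- the accepting circuits in the NP mode -/
noncomputable def con_S (mo : Fin q → Bool) (C : Fin q → NCirc (E ⊕ E) s t)
    (x : E ⊕ E → Bool) : Finset (Fin q) :=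
  univ.filter fun i => mo i = true ∧ Ans true (C i) x

theorem con_mem (mo : Fin q → Bool) (C : Fin q → NCirc (E ⊕ E) s t) (x : E ⊕ E → Bool)
    (i : Fin q) : i ∈ con_S mo C x ↔ mo i = true ∧ Ans true (C i) x := by
  classical
  unfold con_S
  rw [mem_filter]
  exact ⟨fun h => h.2, fun h => ⟨mem_univ i, h⟩⟩

end

theorem CON_thm : Stmt_CON := by
  intro hM M K L q s t E Xn Xp T mo C D Fn hfree hFn hcnt a b hab hstep
  classical
  have key : ∀ l ≤ L, l ≤ (con_S mo C (T.inp (a l) (b l))).card := by
    intro l
    induction l with
    | zero => intro _; exact Nat.zero_le _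
    | succ l ih =>
      intro hl
      have h0 := ih (by omega)
      obtain ⟨hs, hk0, hk1⟩ := hstep l (by omega)
      set x := T.inp (a l) (b l) with hx
      set y := T.inp (a (l + 1)) (b l) with hy
      set z := T.inp (a (l + 1)) (b (l + 1)) with hz
      have hxy : ∀ e, x e = true → y e = true := fun e he => con_inp T hs (b l) e he
      have hsub : con_S mo C x ⊆ con_S mo C y := by
        intro i hi
        rw [con_mem] at hi ⊢
        refine ⟨hi.1, ?_⟩
        rcases hi.2 with ⟨_, u, w, hu⟩ | ⟨h1, _⟩
        · refine Or.inl ⟨rfl, u, w, ?_⟩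
          exact hM (E ⊕ E) s t (C i) (hfree i) x y hxy (hk0 i).1 u w hu
        · cases h1
      have hFx : ¬ Fn x := by
        rw [hx, hcnt, (hab l (by omega)).1, (hab l (by omega)).2]
        exact lt_irrefl l
      have hFy : Fn y := by
        rw [hy, hcnt, (hab (l + 1) hl).1, (hab l (by omega)).2]
        exact Nat.lt_succ_self l
      have hne : con_S mo C x ≠ con_S mo C y := by
        intro heq
        apply hFx
        rw [hFn] at hFy ⊢
        have he : (fun i => Ans (mo i) (C i) x) = fun i => Ans (mo i) (C i) y := by
          funext i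
          apply propext
          cases hmo : mo i with
          | false => exact (hk0 i).2 hmo
          | true =>
            have h1 := con_mem mo C x i
            have h2 := con_mem mo C y i
            rw [heq] at h1
            constructor
            · intro h3
              exact (h2.1 (h1.2 ⟨hmo, h3⟩)).2
            · intro h3
              exact (h1.1 (h2.2 ⟨hmo, h3⟩)).2
        rw [he]
        exact hFy
      have hlt : (con_S mo C x).card < (con_S mo C y).card :=
        card_lt_card (Finset.ssubset_iff_subset_ne.2 ⟨hsub, hne⟩)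
      have heq : con_S mo C z = con_S mo C y := by
        ext i
        rw [con_mem, con_mem]
        constructor
        · rintro ⟨h1, h2⟩
          exact ⟨h1, ((hk1 i).2 h1).2 h2⟩
        · rintro ⟨h1, h2⟩
          exact ⟨h1, ((hk1 i).2 h1).1 h2⟩
      rw [heq]
      omega
  have h1 := key L le_rfl
  have h2 : (con_S mo C (T.inp (a L) (b L))).card ≤ q := by
    have := card_le_univ (con_S mo C (T.inp (a L) (b L)))
    rwa [Fintype.card_fin] at this
  omega

end Pool.Agent.NBC
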