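import Pool.Agent.NBC.Stmts
import Pool.Agent.NPP.APP
import Pool.Agent.NPP.PLK
import Pool.Agent.NNDT.Wb

/-!
# The dichotomy for one window (module DIC of NBC, MP_153864_lc)
-/

set_option autoImplicit false

namespace Pool.Agent.NBC

open Finset Pool.Agent.NegLim Pool.Agent.NLM
open Pool.Agent.NEG72 (InWin tneg tpos tgraph vx vx_inj mem_tgraph card_tgraph AccP AccN)

namespace DICM

open Classical in
/-- few transversals contain a given set -/
lemma count {k b : ℕ} (Y : Finset (Fin k × Fin b)) :
    ((univ : Finset (Fin k → Fin b)).filter fun τ => Y ⊆ tgraph τ).card * b ^ Y.card ≤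
      Fintype.card (Fin k → Fin b) := by
  rcases Finset.eq_empty_or_nonempty
    ((univ : Finset (Fin k → Fin b)).filter fun τ => Y ⊆ tgraph τ) with h | ⟨τ0, h0⟩
  · rw [h]
    simp
  rcases Nat.eq_zero_or_pos Y.card with hY | hY
  · rw [hY, pow_zero, mul_one]
    exact Finset.card_le_univ _
  obtain ⟨l, hl⟩ : ∃ l, Y.card = l + 1 := ⟨Y.card - 1, by omega⟩
  have h1 := card_tgraph (k := k) (b := b) (l := l) (Y := Y) (by omega)
  have h2 : Y.card ≤ k := by
    have h3 : (tgraph τ0).card ≤ k := by
      unfold tgraph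
      refine Finset.card_image_le.trans ?_
      rw [card_univ, Fintype.card_fin]
    exact (Finset.card_le_card (mem_filter.1 h0).2).trans h3
  rw [Fintype.card_fun, Fintype.card_fin, Fintype.card_fin]
  calc _ ≤ b ^ (k - (l + 1)) * b ^ Y.card := Nat.mul_le_mul_right _ h1
    _ = b ^ k := by
      rw [← pow_add]
      congr 1
      omega

open Classical in
/-- the sum over the sets of the family -/
lemma fam_sum {V : Type} (A : Finset (Finset V)) {l p b : ℕ} (hb : 0 < b)
    (h4 : 4 * (p * l) ≤ b) (h1 : ∀ X ∈ A, X.card ≤ l) (h2 : ∀ X ∈ A, 2 ≤ X.card)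
    (hA : ∀ a, (A.filter fun X => X.card = a).card ≤ (p * l) ^ a) :
    ∑ X ∈ A, ((1 : ℝ) / (b : ℝ) ^ X.card) ≤ 2 * (((p * l : ℕ) : ℝ) / b) ^ 2 := by
  have hb' : (0 : ℝ) < b := by exact_mod_cast hb
  have hmap : ∀ X ∈ A, X.card ∈ Finset.Ico 2 (l + 1) := fun X hX => by
    rw [Finset.mem_Ico]; exact ⟨h2 X hX, Nat.lt_succ_of_le (h1 X hX)⟩
  set x : ℝ := ((p * l : ℕ) : ℝ) / b with hx
  have hx0 : 0 ≤ x := by positivity
  have hx1 : x ≤ 1 / 4 := by
    rw [hx, div_le_iff₀ hb']
    have : (4 : ℝ) * ((p * l : ℕ) : ℝ) ≤ b := by exact_mod_cast h4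
    linarith
  have hgeo : ∑ a ∈ Finset.Ico 2 (l + 1), x ^ a ≤ 2 * x ^ 2 := by
    refine (geom_sum_Ico_le_of_lt_one hx0 (by linarith)).trans ?_
    rw [div_le_iff₀ (by linarith)]
    nlinarith [sq_nonneg x, mul_nonneg (sq_nonneg x) (sub_nonneg.2 hx1)]
  rw [← Finset.sum_fiberwise_of_maps_to hmap]
  refine (Finset.sum_le_sum fun a _ => ?_).trans hgeo
  have e : ∑ X ∈ A.filter (fun X => X.card = a), ((1 : ℝ) / (b : ℝ) ^ X.card) =
      ((A.filter fun X => X.card = a).card : ℝ) * (1 / (b : ℝ) ^ a) := by
    rw [Finset.sum_congr rfl (g := fun _ => (1 : ℝ) / (b : ℝ) ^ a)]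
    · rw [Finset.sum_const, nsmul_eq_mul]
    · intro X hX
      rw [(mem_filter.1 hX).2]
  rw [e, hx, div_pow, mul_one_div]
  have h3 : ((A.filter fun X => X.card = a).card : ℝ) ≤ ((p * l : ℕ) : ℝ) ^ a := by
    exact_mod_cast hA a
  exact div_le_div_of_nonneg_right h3 (by positivity)

end DICM

open DICM

open Classical in
theorem DIC_thm : Stmt_DIC := by
  intro v k Q b S D h p hv W φ hφ hh hk hp hb hD hDS hDb hBN j f hf hpos
  have hb0 : 0 < b := by
    have : 0 < p * (2 * h) := by positivity
    omega
  have hw := hφ j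
  have hpos' : 3 * Fintype.card (Fin k × Fin b → Fin (k - 1)) <
      4 * ((univ : Finset (Fin k × Fin b → Fin (k - 1))).filter
        fun χ => f (fun e => !(tneg hw hv χ e)) = true).card := by
    convert hpos
    rfl
  have goal : D * ((univ : Finset (Fin k → Fin b)).filter
      fun τ => f (fun e => !(tpos hw hv τ e)) = false).card ≤
        Fintype.card (Fin k → Fin b) := by
    have hf' : MonSize (NegLim.dual f) S := hf.dual
    obtain ⟨A, BP, BN, a1, a2, a3, a4, a5, a6⟩ :=
      Pool.Agent.NPP.APP_thm Pool.Agent.NPP.PLK_thm (Fin k × Fin b) (Edge v) (Fin k → Fin b)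
      (k - 1) h p b (tpos hw hv) tgraph (tneg (c := k - 1) hw hv) hh hk hp hb (by
        intro e
        by_cases he : ∃ p p' : Fin k × Fin b, p ≠ p' ∧ e.1.1 = vx _ hw hv p ∧
            e.1.2 = vx _ hw hv p'
        · obtain ⟨p, p', hne, h1, h2⟩ := he
          refine ⟨{{p, p'}}, ?_, by simp, ?_, ?_⟩
          · intro X hX
            rw [mem_singleton] at hX
            rw [hX]
            exact Finset.card_le_two.trans (by omega)
          · intro τ hτ
            unfold tpos at hτ
            rw [decide_eq_true_eq] at hτ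
            obtain ⟨i, j, h3, h4⟩ := hτ
            have e1 : p = (i, τ i) := vx_inj hw hv (h1.symm.trans h3)
            have e2 : p' = (j, τ j) := vx_inj hw hv (h2.symm.trans h4)
            refine ⟨{p, p'}, by simp, ?_⟩
            intro a ha
            rw [mem_insert, mem_singleton] at ha
            rw [mem_tgraph]
            rcases ha with rfl | rfl
            · rw [e1]
            · rw [e2]
          · intro χ hχ
            obtain ⟨X, hX, hXχ⟩ := hχ
            rw [mem_singleton] at hX
            subst hX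
            unfold tneg
            rw [decide_eq_true_eq]
            refine ⟨p, p', h1, h2, fun h3 => hne ?_⟩
            exact hXχ (by simp) (by simp) h3
        · refine ⟨∅, by simp, by simp, ?_, ?_⟩
          · intro τ hτ
            unfold tpos at hτ
            rw [decide_eq_true_eq] at hτ
            obtain ⟨i, j, h3, h4⟩ := hτ
            exfalso
            apply he
            refine ⟨(i, τ i), (j, τ j), ?_, h3, h4⟩
            intro h5
            rw [h5, ← h4] at h3
            exact absurd e.2 (by rw [h3]; exact lt_irrefl _)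
          · intro χ hχ
            obtain ⟨X, hX, _⟩ := hχ
            simp at hX) (fun Y => count Y) (NegLim.dual f) S hf'
    by_cases hsm : ∃ X ∈ A, X.card ≤ 1
    · -- the family accepts all colourings
      exfalso
      obtain ⟨X, hX, hX1⟩ := hsm
      have h2 : ((univ : Finset (Fin k × Fin b → Fin (k - 1))).filter
          fun χ => f (fun e => !(tneg hw hv χ e)) = true) ⊆ BN := by
        intro χ hχ
        by_contra hn
        have h3 := a6 χ hn ⟨X, hX, by
          intro a ha a' ha' _
          exact Finset.card_le_one.1 hX1 a (mem_coe.1 ha) a' (mem_coe.1 ha')⟩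
        have h4 := (mem_filter.1 hχ).2
        unfold NegLim.dual at h3
        rw [h4] at h3
        exact absurd h3 (by decide)
      have h3 := Finset.card_le_card h2
      have h4 : 4 * BN.card ≤ 3 * Fintype.card (Fin k × Fin b → Fin (k - 1)) := by
        rw [Fintype.card_fun, Fintype.card_fin]
        have h5 : (4 * BN.card) * 2 ^ p ≤
            (3 * (k - 1) ^ Fintype.card (Fin k × Fin b)) * 2 ^ p := by
          calc (4 * BN.card) * 2 ^ p = 4 * (BN.card * 2 ^ p) := by ring
            _ ≤ 4 * (S * (4 * (p * (2 * h)) ^ (4 * h)) * (k - 1) ^ Fintype.card (Fin k × Fin b)) :=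
              Nat.mul_le_mul_left _ a4
            _ = (16 * S * (p * (2 * h)) ^ (4 * h)) * (k - 1) ^ Fintype.card (Fin k × Fin b) := by
              ring
            _ ≤ (3 * 2 ^ p) * (k - 1) ^ Fintype.card (Fin k × Fin b) :=
              Nat.mul_le_mul_right _ hBN
            _ = _ := by ring
        exact Nat.le_of_mul_le_mul_right h5 (by positivity)
      omega
    · -- few positive tests are accepted
      push Not at hsm
      have h2 : ((univ : Finset (Fin k → Fin b)).filter
          fun τ => f (fun e => !(tpos hw hv τ e)) = false) ⊆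
          BP ∪ A.biUnion fun X => univ.filter fun τ => X ⊆ tgraph τ := by
        intro τ hτ
        by_cases hB : τ ∈ BP
        · exact mem_union_left _ hB
        · obtain ⟨X, hX, hXK⟩ := a5 τ hB (by
            unfold NegLim.dual
            rw [(mem_filter.1 hτ).2]
            rfl)
          exact mem_union_right _ (mem_biUnion.2 ⟨X, hX, mem_filter.2 ⟨mem_univ _, hXK⟩⟩)
      have hbk : (0 : ℝ) < (b : ℝ) ^ k := by
        have : (0 : ℝ) < b := by exact_mod_cast hb0
        positivity
      have hbR : (0 : ℝ) < b := by exact_mod_cast hb0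
      have hDR : (0 : ℝ) < D := by exact_mod_cast hD
      have h3 : (((univ : Finset (Fin k → Fin b)).filter
          fun τ => f (fun e => !(tpos hw hv τ e)) = false).card : ℝ) ≤ BP.card + ∑ X ∈ A,
          ((univ.filter fun τ : Fin k → Fin b => X ⊆ tgraph τ).card : ℝ) := by
        have h4 := (Finset.card_le_card h2).trans ((Finset.card_union_le _ _).trans
            (Nat.add_le_add_left Finset.card_biUnion_le _))
        exact_mod_cast h4
      rw [Fintype.card_fun, Fintype.card_fin, Fintype.card_fin] at a3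
      have h4 : (2 : ℝ) * D * BP.card ≤ (b : ℝ) ^ k := by
        have h6 : 2 * D * BP.card ≤ b ^ k := by
          have h7 : (2 * D * BP.card) * 2 ^ (2 * h) ≤ b ^ k * 2 ^ (2 * h) := by
            calc (2 * D * BP.card) * 2 ^ (2 * h) = 2 * D * (BP.card * 2 ^ (2 * h)) := by ring
              _ ≤ 2 * D * (S * b ^ k) := Nat.mul_le_mul_left _ a3
              _ = (2 * D * S) * b ^ k := by ring
              _ ≤ 2 ^ (2 * h) * b ^ k := Nat.mul_le_mul_right _ hDS
              _ = b ^ k * 2 ^ (2 * h) := by ring
          exact Nat.le_of_mul_le_mul_right h7 (by positivity)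
        exact_mod_cast h6
      have h5 : ∑ X ∈ A, ((univ.filter fun τ : Fin k → Fin b => X ⊆ tgraph τ).card : ℝ) ≤
          2 * (((p * (2 * h) : ℕ) : ℝ) / b) ^ 2 * (b : ℝ) ^ k := by
        have h6 : ∀ X ∈ A, ((univ.filter fun τ : Fin k → Fin b => X ⊆ tgraph τ).card : ℝ) ≤
            (1 / (b : ℝ) ^ X.card) * (b : ℝ) ^ k := by
          intro X _
          have h7 := count (k := k) (b := b) X
          rw [Fintype.card_fun, Fintype.card_fin, Fintype.card_fin] at h7
          have h8 : ((univ.filter fun τ : Fin k → Fin b => X ⊆ tgraph τ).card : ℝ) *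
              (b : ℝ) ^ X.card ≤ (b : ℝ) ^ k := by exact_mod_cast h7
          have h9 : (0 : ℝ) < (b : ℝ) ^ X.card := by positivity
          rw [one_div, inv_mul_eq_div, le_div_iff₀ h9]
          exact h8
        refine (Finset.sum_le_sum h6).trans ?_
        rw [← Finset.sum_mul]
        refine mul_le_mul_of_nonneg_right ?_ hbk.le
        exact fam_sum A hb0 hb a1 (fun X hX => hsm X hX) a2
      have h6 : (2 : ℝ) * D * (2 * (((p * (2 * h) : ℕ) : ℝ) / b) ^ 2) ≤ 1 := by
        rw [div_pow]
        have h7 : (4 : ℝ) * D * ((p * (2 * h) : ℕ) : ℝ) ^ 2 ≤ (b : ℝ) ^ 2 := by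
          have h8 : 4 * D * (p * (2 * h)) ^ 2 ≤ b ^ 2 := by
            rw [mul_comm p (2 * h)]
            exact hDb
          exact_mod_cast h8
        have h8 : (0 : ℝ) < (b : ℝ) ^ 2 := by positivity
        have h9 : (2 : ℝ) * D * (2 * (((p * (2 * h) : ℕ) : ℝ) ^ 2 / (b : ℝ) ^ 2)) =
            (4 * D * ((p * (2 * h) : ℕ) : ℝ) ^ 2) / (b : ℝ) ^ 2 := by ring
        rw [h9, div_le_one h8]
        exact h7
      have h7 : (D : ℝ) * ((univ : Finset (Fin k → Fin b)).filter
          fun τ => f (fun e => !(tpos hw hv τ e)) = false).card ≤ (b : ℝ) ^ k := by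
        have h8 := mul_le_mul_of_nonneg_left (h3.trans (add_le_add_right h5 _)) hDR.le
        have h9 := mul_le_mul_of_nonneg_right h6 hbk.le
        linarith
      rw [Fintype.card_fun, Fintype.card_fin, Fintype.card_fin]
      exact_mod_cast h7
  convert goal
  rfl

end Pool.Agent.NBC
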