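import Pool.Agent.NBC.Stmts

/-!
# DUA: the dual circuits
-/

set_option autoImplicit false

namespace Pool.Agent.NBC

open Pool.Agent.NegLim Pool.Agent.NLM

variable {E : Type} {s t : ℕ}

lemma dua_neg_neg (x : E ⊕ E → Bool) : neg (neg x) = x := by
  funext e
  show (!(!(x e.swap.swap))) = x e
  rw [Bool.not_not, Sum.swap_swap]

lemma dua_rho (x : E ⊕ E → Bool) (u : Fin s → Bool) (w : Fin t → Bool) (e : E ⊕ E) (l : List Bool) :
    (Wire.inp e.swap : Wire (E ⊕ E) s t).val x u w l = xor true (neg x e) := by
  show x e.swap = xor true (!(x e.swap))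
  rw [Bool.true_xor, Bool.not_not]

lemma dua_out (C : NCirc (E ⊕ E) s t) (x : E ⊕ E → Bool) (u : Fin s → Bool) (w : Fin t → Bool) :
    outp (flip C) x u w = !(outp C (neg x) u w) := by
  have h := tc_out (s' := s) (t' := t) true (fun e : E ⊕ E => (Wire.inp e.swap : Wire (E ⊕ E) s t))
    (fun u _ => u) (fun _ w => w) (x := x) (u := u) (w := w) (X := neg x)
    (fun e l => dua_rho x u w e l) C
  rw [Bool.true_xor] at h
  exact h

lemma dua_out' (C : NCirc (E ⊕ E) s t) (x : E ⊕ E → Bool) (u : Fin s → Bool) (w : Fin t → Bool) :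
    outp (flip C) (neg x) u w = !(outp C x u w) := by
  rw [dua_out, dua_neg_neg]

lemma dua_vals (C : NCirc (E ⊕ E) s t) (x : E ⊕ E → Bool) (u : Fin s → Bool) (w : Fin t → Bool) :
    vals (flip C).gates (neg x) u w = (vals C.gates x u w).map fun c => xor true c := by
  have h := tl_vals (s' := s) (t' := t) true (fun e : E ⊕ E => (Wire.inp e.swap : Wire (E ⊕ E) s t))
    (fun u _ => u) (fun _ w => w) (x := neg x) (u := u) (w := w) (X := neg (neg x))
    (fun e l => dua_rho (neg x) u w e l) C.gates
  rw [dua_neg_neg] at h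
  exact h

lemma dua_not (C : NCirc (E ⊕ E) s t) (n : ℕ) :
    (∃ a, (flip C).gates[n]? = some (Gate.not a)) ↔ ∃ a, C.gates[n]? = some (Gate.not a) := by
  constructor
  · intro h
    exact get_not h
  · rintro ⟨a, ha⟩
    refine ⟨tw true (fun e : E ⊕ E => (Wire.inp e.swap : Wire (E ⊕ E) s t)) (fun u _ => u)
      (fun _ w => w) n a, ?_⟩
    show (tl true (fun e : E ⊕ E => (Wire.inp e.swap : Wire (E ⊕ E) s t)) (fun u _ => u)
      (fun _ w => w) C.gates)[n]? = _
    unfold tl
    rw [List.getElem?_mapIdx, ha]
    rfl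

lemma dua_sameN (C : NCirc (E ⊕ E) s t) (x x' : E ⊕ E → Bool) :
    SameN (flip C) (neg x) (neg x') ↔ SameN C x x' := by
  have hinj : Function.Injective fun c : Bool => xor true c := by
    intro a b h
    cases a <;> cases b <;> first | rfl | (exact absurd h (by decide))
  unfold SameN
  refine forall_congr' fun u => forall_congr' fun n => ?_
  rw [dua_not, dua_vals, dua_vals, List.getElem?_map, List.getElem?_map]
  exact imp_congr_right fun _ => (Option.map_injective hinj).eq_iff

lemma dua_bit (m : Bool) (C : NCirc (E ⊕ E) s t) (x : E ⊕ E → Bool) (u : Fin s → Bool) :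
    Bit (!m) (flip C) (neg x) u ↔ ¬ Bit m C x u := by
  unfold Bit
  cases m with
  | true =>
    simp only [dua_out', Bool.not_true, Bool.false_eq_true, false_and, true_and, false_or, or_false,
      Bool.true_eq_false, not_exists, Bool.not_eq_true', Bool.not_eq_true]
  | false =>
    simp only [dua_out', Bool.not_false, Bool.false_eq_true, false_and, true_and, false_or, or_false,
      Bool.true_eq_false, not_forall, Bool.not_eq_true', Bool.not_eq_true]

lemma dua_ans (C : NCirc (E ⊕ E) s t) (x : E ⊕ E → Bool) :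
    Ans true (flip C) (neg x) ↔ ¬ Ans false C x := by
  have h1 : Ans true (flip C) (neg x) ↔ (flip C).Acc (neg x) := by
    unfold Ans
    simp
  have h2 : Ans false C x ↔ All C x := by
    unfold Ans
    simp
  rw [h1, h2]
  constructor
  · rintro ⟨u, w, h⟩ h3
    have h4 : outp (flip C) (neg x) u w = true := h
    rw [dua_out', h3 u w] at h4
    exact absurd h4 (by decide)
  · intro h
    unfold All at h
    push Not at h
    obtain ⟨u, w, h⟩ := h
    refine ⟨u, w, ?_⟩
    show outp (flip C) (neg x) u w = true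
    rw [dua_out', Bool.not_eq_true']
    simpa using h

theorem DUA_thm : Stmt_DUA := by
  intro E q s t mo C
  refine ⟨fun i hi => ?_, fun i => tc_nots .., fun i => tc_length .., fun x x' => ⟨?_, ?_⟩⟩
  · exact tc_free true _ (fun x => neg x) (fun x u w e l => dua_rho x u w e l) (C i) hi
  · unfold Keep
    refine forall_congr' fun i => and_congr (dua_sameN (C i) x x') ?_
    rw [dua_ans, dua_ans, not_iff_not]
    simp only [Bool.not_eq_true']
  · unfold Same
    refine forall_congr' fun i => and_congr (dua_sameN (C i) x x') (forall_congr' fun u => ?_)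
    rw [dua_bit, dua_bit, not_iff_not]

end Pool.Agent.NBC
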