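import Pool.Agent.NLM.Trans
import Pool.Agent.NEG72.WinMon
import Pool.Agent.NegLim.Transfer

/-!
# Boolean combinations of NP and coNP circuits with few negations: definitions

The circuits are those of `Pool.Agent.NegLim.Defs`. `Ans` is the definition of the final statement; all
other definitions belong to the proof.
-/

set_option autoImplicit false

namespace Pool.Agent.NBC

open Finset Pool.Agent.NegLim Pool.Agent.NLM
open Pool.Agent.NEG72 (InWin tneg tpos)

/-! ### circuits -/

section

variable {E : Type} {s t : ℕ}

/-- The answer of the circuit on the input `x`: in the NP mode (the output is `true` for some witness) if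
`mo` is `true`, in the coNP mode (for all witnesses) if `mo` is `false`. -/
def Ans (mo : Bool) (C : NCirc E s t) (x : E → Bool) : Prop :=
  (mo = true ∧ C.Acc x) ∨ (mo = false ∧ All C x)

/-- The answer for the given witness bits `u`. -/
def Bit (mo : Bool) (C : NCirc E s t) (x : E → Bool) (u : Fin s → Bool) : Prop :=
  (mo = true ∧ ∃ w, outp C x u w = true) ∨ (mo = false ∧ ∀ w, outp C x u w = true)

/-- The NOT gates of the circuit have the same outputs on `x` and `x'`. -/
def SameN (C : NCirc E s t) (x x' : E → Bool) : Prop :=
  ∀ (u : Fin s → Bool) (n : ℕ), (∃ a, C.gates[n]? = some (Gate.not a)) →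
    (vals C.gates x u fun _ => false)[n]? = (vals C.gates x' u fun _ => false)[n]?

/-- The NOT gates have the same outputs and the answers for all `u` are the same. -/
def Same {q : ℕ} (mo : Fin q → Bool) (C : Fin q → NCirc E s t) (x x' : E → Bool) : Prop :=
  ∀ i, SameN (C i) x x' ∧ ∀ u, Bit (mo i) (C i) x u ↔ Bit (mo i) (C i) x' u

/-- The NOT gates have the same outputs and the answers of the circuits with the mode `m` are the same. -/
def Keep (m : Bool) {q : ℕ} (mo : Fin q → Bool) (C : Fin q → NCirc E s t) (x x' : E → Bool) : Prop :=
  ∀ i, SameN (C i) x x' ∧ (mo i = m → (Ans m (C i) x ↔ Ans m (C i) x'))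

open Classical in
/-- The potential: it decreases if the input grows. -/
noncomputable def Pot {q : ℕ} (mo : Fin q → Bool) (C : Fin q → NCirc E s t) (x : E → Bool) : ℕ :=
  ∑ i, ∑ u : Fin s → Bool,
    (2 * num (C i).gates x u (fun _ => false) + if Bit (mo i) (C i) x u then 0 else 1)

/-- The input `x` with exchanged halves, negated. -/
def neg (x : E ⊕ E → Bool) : E ⊕ E → Bool := fun e => !(x e.swap)

/-- The dual circuit, with exchanged halves of the input. -/
def flip (C : NCirc (E ⊕ E) s t) : NCirc (E ⊕ E) s t :=
  tc true (fun e => Wire.inp e.swap) (fun u _ => u) (fun _ w => w) C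

end

/-! ### tests -/

/-- The states of a window: empty, a neutral test, a positive test. -/
inductive St (Xn Xp : Type) : Type
  | emp
  | neu (χ : Xn)
  | pos (τ : Xp)

/-- Windows (sets of variables) and tests. -/
structure Tests (W E Xn Xp : Type) where
  B : W → Set E
  neu : W → Xn → E → Bool
  pos : W → Xp → E → Bool

variable {W E Xn Xp : Type}

/-- The values of the variables of a window in a given state. -/
def Tests.val (T : Tests W E Xn Xp) (j : W) : St Xn Xp → E → Bool
  | St.emp => fun _ => false
  | St.neu χ => T.neu j χ
  | St.pos τ => T.pos j τ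

open Classical in
/-- The input with the states `a`; the variables outside of the windows are `false`. -/
noncomputable def Tests.xin (T : Tests W E Xn Xp) (a : W → St Xn Xp) (e : E) : Bool :=
  decide (∃ j, e ∈ T.B j ∧ T.val j (a j) e = true)

/-- The first half is the input with the states `a`, the second half is the negation of the input with the
states `b`. -/
noncomputable def Tests.inp (T : Tests W E Xn Xp) (a b : W → St Xn Xp) : E ⊕ E → Bool :=
  Sum.elim (T.xin a) fun e => !(T.xin b e)

/-- The windows are disjoint. -/
def Tests.Dis (T : Tests W E Xn Xp) : Prop := ∀ i j e, e ∈ T.B i → e ∈ T.B j → i = j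

open Classical in
/-- A monotone program of size `S` which accepts more than three quarters of the negated neutral tests of a
window rejects at most the part `1 / D` of the negated positive tests. -/
def Tests.Dich [Fintype Xn] [Fintype Xp] (T : Tests W E Xn Xp) (S D : ℕ) : Prop :=
  ∀ (j : W) (f : (E → Bool) → Bool), MonSize f S →
    3 * Fintype.card Xn <
      4 * ((univ : Finset Xn).filter fun χ => f (fun e => !(T.neu j χ e)) = true).card →
    D * ((univ : Finset Xp).filter fun x => f (fun e => !(T.pos j x e)) = false).card ≤
      Fintype.card Xp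

/-! ### configurations: `M` groups of `K` windows -/

section

variable {M K : ℕ}

/-- `a` with neutral tests in all windows of the group `g`. -/
def fillN (a : Fin M × Fin K → St Xn Xp) (g : Fin M) (χ : Fin K → Xn) : Fin M × Fin K → St Xn Xp :=
  fun w => if w.1 = g then St.neu (χ w.2) else a w

/-- `a` with a positive test in the window `i` of the group `g`. -/
def setP (a : Fin M × Fin K → St Xn Xp) (g : Fin M) (i : Fin K) (τ : Xp) :
    Fin M × Fin K → St Xn Xp :=
  fun w => if w = (g, i) then St.pos τ else a w

/-- `a` is a part of `a'`. -/
def Sub (a a' : Fin M × Fin K → St Xn Xp) : Prop := ∀ w, a w = St.emp ∨ a w = a' w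

open Classical in
/-- The number of the windows with a positive test. -/
noncomputable def cntP (a : Fin M × Fin K → St Xn Xp) : ℕ :=
  ((univ : Finset (Fin M × Fin K)).filter fun w => ∃ τ, a w = St.pos τ).card

/-- The random choices for one half: a permutation (the group of every role), neutral tests and a positive
test (with its place in the group) for every role. -/
abbrev Play (M K : ℕ) (Xn Xp : Type) : Type :=
  Equiv.Perm (Fin M) × (Fin M → Fin K → Xn) × (Fin M → Fin K × Xp)

/-- The groups of the roles `0, …, g - 1` have neutral tests, the groups of the roles `J, …, J + l - 1` have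
one positive test, all other windows are empty. -/
def conf (J : ℕ) (ω : Play M K Xn Xp) (g l : ℕ) : Fin M × Fin K → St Xn Xp := fun w =>
  if (ω.1.symm w.1 : ℕ) < g then St.neu (ω.2.1 (ω.1.symm w.1) w.2)
  else if J ≤ (ω.1.symm w.1 : ℕ) ∧ (ω.1.symm w.1 : ℕ) < J + l ∧ w.2 = (ω.2.2 (ω.1.symm w.1)).1 then
    St.pos (ω.2.2 (ω.1.symm w.1)).2
  else St.emp

end

/-! ### the windows of the clique problem -/

open Classical in
/-- The tests for the windows `φ w`: complete multipartite graphs and cliques. -/
noncomputable def winT {v k Q b : ℕ} (hv : k * (2 * Q) * b ≤ v) {W : Type} (φ : W → ℕ × ℕ)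
    (hφ : ∀ w, ∀ i < k, (φ w).1 + i * (φ w).2 < 2 * Q) :
    Tests W (Edge v) (Fin k × Fin b → Fin (k - 1)) (Fin k → Fin b) where
  B w := {e | InWin k Q b (φ w) e}
  neu w χ := tneg (hφ w) hv χ
  pos w τ := tpos (hφ w) hv τ

end Pool.Agent.NBC
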