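import Pool.Agent.NBC.Stmts

/-!
# Module NBC_GAM: the random chain
-/

set_option autoImplicit false

namespace Pool.Agent.NBC

open Finset

open Classical in
/-- A good pair of plays exists if there are few bad steps. -/
theorem gam_good {Ω : Type} [Fintype Ω] (L : ℕ) (BX BZ : ℕ → Ω → Ω → Prop)
    (h : ∑ l ∈ range L, (∑ ω' : Ω, (((univ : Finset Ω).filter fun ω => BX l ω ω').card : ℝ) +
      ∑ ω : Ω, (((univ : Finset Ω).filter fun ω' => BZ l ω ω').card : ℝ)) <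
        (Fintype.card Ω : ℝ) * Fintype.card Ω) :
    ∃ ω ω' : Ω, ∀ l < L, ¬ BX l ω ω' ∧ ¬ BZ l ω ω' := by
  by_contra hcon
  have h1 : ∀ ω ω' : Ω, (1 : ℝ) ≤ ∑ l ∈ range L,
      ((if BX l ω ω' then (1 : ℝ) else 0) + if BZ l ω ω' then (1 : ℝ) else 0) := by
    intro ω ω'
    have h2 : ∃ l, l < L ∧ (BX l ω ω' ∨ BZ l ω ω') := by
      by_contra h3
      refine hcon ⟨ω, ω', fun l hl => ⟨fun h4 => h3 ⟨l, hl, Or.inl h4⟩,
        fun h4 => h3 ⟨l, hl, Or.inr h4⟩⟩⟩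
    obtain ⟨l, hl, hb⟩ := h2
    have h5 : ∀ i ∈ range L, (0 : ℝ) ≤
        (if BX i ω ω' then (1 : ℝ) else 0) + if BZ i ω ω' then (1 : ℝ) else 0 := by
      intro i _
      split_ifs <;> norm_num
    refine le_trans ?_ (Finset.single_le_sum h5 (mem_range.2 hl))
    rcases hb with hb | hb
    · rw [if_pos hb]
      split_ifs <;> norm_num
    · rw [if_pos hb]
      split_ifs <;> norm_num
  have h2 : (Fintype.card Ω : ℝ) * Fintype.card Ω ≤ ∑ ω : Ω, ∑ ω' : Ω, ∑ l ∈ range L,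
      ((if BX l ω ω' then (1 : ℝ) else 0) + if BZ l ω ω' then (1 : ℝ) else 0) := by
    have h3 : (Fintype.card Ω : ℝ) * Fintype.card Ω = ∑ _ω : Ω, ∑ _ω' : Ω, (1 : ℝ) := by
      simp
    rw [h3]
    exact Finset.sum_le_sum fun ω _ => Finset.sum_le_sum fun ω' _ => h1 ω ω'
  have h3 : ∑ ω : Ω, ∑ ω' : Ω, ∑ l ∈ range L,
      ((if BX l ω ω' then (1 : ℝ) else 0) + if BZ l ω ω' then (1 : ℝ) else 0) =
      ∑ l ∈ range L, (∑ ω' : Ω, (((univ : Finset Ω).filter fun ω => BX l ω ω').card : ℝ) +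
      ∑ ω : Ω, (((univ : Finset Ω).filter fun ω' => BZ l ω ω').card : ℝ)) := by
    rw [Finset.sum_congr rfl fun ω _ => Finset.sum_comm, Finset.sum_comm]
    refine Finset.sum_congr rfl fun l _ => ?_
    rw [Finset.sum_congr rfl fun ω _ => Finset.sum_add_distrib, Finset.sum_add_distrib]
    congr 1
    · rw [Finset.sum_comm]
      exact Finset.sum_congr rfl fun ω' _ => Finset.sum_boole _ _
    · exact Finset.sum_congr rfl fun ω _ => Finset.sum_boole _ _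
  rw [h3] at h2
  exact absurd h2 (not_le.2 h)

/-- The indicator of a change is at most the change. -/
theorem gam_ind {x y u v : ℕ} (h1 : u ≤ x) (h2 : x ≤ y) (h3 : v ≤ u) (p : Prop) [Decidable p]
    (hp : p → u ≠ x ∨ v < u ∨ x < y) : (if p then (1 : ℝ) else 0) ≤ (y : ℝ) - v := by
  by_cases h : p
  · rw [if_pos h]
    have h4 : v + 1 ≤ y := by
      rcases hp h with h5 | h5 | h5 <;> omega
    have h5 : (v : ℝ) + 1 ≤ y := by exact_mod_cast h4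
    linarith
  · rw [if_neg h]
    have h4 : (v : ℝ) ≤ y := by exact_mod_cast (le_trans h3 (le_trans h1 h2))
    linarith

/-- The sum of the potential over all pairs of plays. -/
noncomputable def gamS {Ω A : Type} [Fintype Ω] (Φ : A → A → ℕ) (c c' : Ω → A) : ℝ :=
  ∑ ω : Ω, ∑ ω' : Ω, (Φ (c ω) (c' ω') : ℝ)

theorem gamS_nonneg {Ω A : Type} [Fintype Ω] (Φ : A → A → ℕ) (c c' : Ω → A) :
    0 ≤ gamS Φ c c' :=
  Finset.sum_nonneg fun _ _ => Finset.sum_nonneg fun _ _ => Nat.cast_nonneg _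

theorem gamS_le {Ω A : Type} [Fintype Ω] (Φ : A → A → ℕ) (P : ℕ) (hP : ∀ a b, Φ a b ≤ P)
    (c c' : Ω → A) : gamS Φ c c' ≤ (Fintype.card Ω : ℝ) * Fintype.card Ω * P := by
  have h3 : (Fintype.card Ω : ℝ) * Fintype.card Ω * P = ∑ _ω : Ω, ∑ _ω' : Ω, (P : ℝ) := by
    simp [mul_assoc]
  rw [h3]
  exact Finset.sum_le_sum fun ω _ => Finset.sum_le_sum fun ω' _ => by exact_mod_cast hP _ _

open Classical in
/-- The number of the changes in the first argument. -/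
theorem gam_cX {Ω A : Type} [Fintype Ω] (S : A → A → Prop) (Φ : A → A → ℕ)
    (h1 : ∀ a a' b, S a a' → Φ a' b ≤ Φ a b) (h2 : ∀ a b b', S b b' → Φ a b ≤ Φ a b')
    (c₀ c₁ d₀ d₁ : Ω → A) (hc : ∀ ω, S (c₀ ω) (c₁ ω)) (hd : ∀ ω, S (d₀ ω) (d₁ ω)) :
    ∑ ω' : Ω, (((univ : Finset Ω).filter fun ω =>
      Φ (c₁ ω) (d₀ ω') ≠ Φ (c₀ ω) (d₀ ω')).card : ℝ) ≤ gamS Φ c₀ d₁ - gamS Φ c₁ d₀ := by
  have h3 : gamS Φ c₀ d₁ - gamS Φ c₁ d₀ = ∑ ω' : Ω, ∑ ω : Ω,
      ((Φ (c₀ ω) (d₁ ω') : ℝ) - Φ (c₁ ω) (d₀ ω')) := by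
    unfold gamS
    rw [Finset.sum_comm, Finset.sum_comm (f := fun ω ω' : Ω => (Φ (c₁ ω) (d₀ ω') : ℝ)),
      ← Finset.sum_sub_distrib]
    exact Finset.sum_congr rfl fun ω' _ => (Finset.sum_sub_distrib _ _).symm
  rw [h3]
  refine Finset.sum_le_sum fun ω' _ => ?_
  rw [← Finset.sum_boole]
  refine Finset.sum_le_sum fun ω _ => ?_
  exact gam_ind (h1 _ _ _ (hc ω)) (h2 _ _ _ (hd ω')) le_rfl _ fun hne => Or.inl hne

open Classical in
/-- The number of the changes in the second argument. -/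
theorem gam_cZ {Ω A : Type} [Fintype Ω] (S : A → A → Prop) (Φ : A → A → ℕ)
    (h1 : ∀ a a' b, S a a' → Φ a' b ≤ Φ a b) (h2 : ∀ a b b', S b b' → Φ a b ≤ Φ a b')
    (c₀ c₁ d₀ d₁ : Ω → A) (hc : ∀ ω, S (c₀ ω) (c₁ ω)) (hd : ∀ ω, S (d₀ ω) (d₁ ω)) :
    ∑ ω : Ω, (((univ : Finset Ω).filter fun ω' =>
      Φ (c₀ ω) (d₁ ω') ≠ Φ (c₀ ω) (d₀ ω')).card : ℝ) ≤ gamS Φ c₀ d₁ - gamS Φ c₁ d₀ := by
  have h3 : gamS Φ c₀ d₁ - gamS Φ c₁ d₀ = ∑ ω : Ω, ∑ ω' : Ω,
      ((Φ (c₀ ω) (d₁ ω') : ℝ) - Φ (c₁ ω) (d₀ ω')) := by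
    unfold gamS
    rw [← Finset.sum_sub_distrib]
    exact Finset.sum_congr rfl fun ω _ => (Finset.sum_sub_distrib _ _).symm
  rw [h3]
  refine Finset.sum_le_sum fun ω _ => ?_
  rw [← Finset.sum_boole]
  refine Finset.sum_le_sum fun ω' _ => ?_
  refine gam_ind (x := Φ (c₀ ω) (d₀ ω')) (u := Φ (c₁ ω) (d₀ ω')) (h1 _ _ _ (hc ω))
    (h2 _ _ _ (hd ω')) le_rfl _ fun hne => Or.inr (Or.inr ?_)
  exact lt_of_le_of_ne (h2 _ _ _ (hd ω')) fun he => hne he.symm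

open Classical in
/-- The chain for abstract configurations. -/
theorem gam_abs (hTEL : Stmt_TEL) {Ω A : Type} [Fintype Ω] [Nonempty Ω] (S : A → A → Prop)
    (ca : ℕ → ℕ → Ω → A) (L J P : ℕ) (δ : ℝ) (Φ : A → A → ℕ) (BX BZ : A → A → A → Prop)
    (hJ : 0 < J) (hmono : ∀ ω g l, g < J → S (ca g l ω) (ca (g + 1) l ω))
    (hP : ∀ a b, Φ a b ≤ P)
    (h1 : ∀ a a' b, S a a' → Φ a' b ≤ Φ a b) (h2 : ∀ a b b', S b b' → Φ a b ≤ Φ a b')
    (hX : ∀ (ω' : Ω) (g h l : ℕ), g < J → l < L → (((univ : Finset Ω).filter fun ω =>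
        BX (ca g l ω) (ca h l ω') (ca g (l + 1) ω)).card : ℝ) ≤
      4 * (((univ : Finset Ω).filter fun ω =>
        Φ (ca (g + 1) l ω) (ca h l ω') ≠ Φ (ca g l ω) (ca h l ω')).card : ℝ) +
        δ * Fintype.card Ω)
    (hZ : ∀ (ω : Ω) (g h l : ℕ), h < J → l < L → (((univ : Finset Ω).filter fun ω' =>
        BZ (ca g (l + 1) ω) (ca h l ω') (ca h (l + 1) ω')).card : ℝ) ≤
      4 * (((univ : Finset Ω).filter fun ω' =>
        Φ (ca g (l + 1) ω) (ca (h + 1) l ω') ≠ Φ (ca g (l + 1) ω) (ca h l ω')).card : ℝ) +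
        δ * Fintype.card Ω)
    (hJP : 16 * L * P ≤ J) (hLδ : 4 * (L * δ) < 1) :
    ∃ g < J, ∃ h < J, ∃ ω ω' : Ω, ∀ l < L,
      ¬ BX (ca g l ω) (ca h l ω') (ca g (l + 1) ω) ∧
      ¬ BZ (ca g (l + 1) ω) (ca h l ω') (ca h (l + 1) ω') := by
  obtain ⟨N, hN⟩ : ∃ N : ℝ, N = (Fintype.card Ω : ℝ) := ⟨_, rfl⟩
  have hNpos : 0 < N := by
    rw [hN]
    exact_mod_cast Fintype.card_pos
  obtain ⟨g, hg, htel⟩ := hTEL J L (2 * (N * N * P))
    (fun i g h => gamS Φ (ca g i) (ca h i) + gamS Φ (ca g (i + 1)) (ca h i)) hJ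
    (fun i g h => by
      have h3 := gamS_le Φ P hP (ca g i) (ca h i)
      have h4 := gamS_le Φ P hP (ca g (i + 1)) (ca h i)
      have h5 := gamS_nonneg Φ (ca g i) (ca h i)
      have h6 := gamS_nonneg Φ (ca g (i + 1)) (ca h i)
      rw [← hN] at h3 h4
      exact ⟨add_nonneg h5 h6, by linarith⟩)
  obtain ⟨h, hh⟩ : ∃ h, h = J - 1 - g := ⟨_, rfl⟩
  have hJg : J - g = h + 1 := by omega
  have hhJ : h < J := by omega
  rw [← hh, hJg] at htel
  have hbX : ∀ l < L, ∑ ω' : Ω, (((univ : Finset Ω).filter fun ω =>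
      BX (ca g l ω) (ca h l ω') (ca g (l + 1) ω)).card : ℝ) ≤
      4 * (gamS Φ (ca g l) (ca (h + 1) l) - gamS Φ (ca (g + 1) l) (ca h l)) +
        δ * (N * N) := by
    intro l hl
    refine le_trans (Finset.sum_le_sum fun ω' _ => hX ω' g h l hg hl) ?_
    rw [Finset.sum_add_distrib, ← Finset.mul_sum, Finset.sum_const, nsmul_eq_mul]
    have h4 := gam_cX S Φ h1 h2 (ca g l) (ca (g + 1) l) (ca h l) (ca (h + 1) l)
      (fun ω => hmono ω g l hg) (fun ω => hmono ω h l hhJ)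
    have h5 : ((univ : Finset Ω).card : ℝ) * (δ * Fintype.card Ω) = δ * (N * N) := by
      rw [Finset.card_univ, hN]
      ring
    rw [h5]
    linarith
  have hbZ : ∀ l < L, ∑ ω : Ω, (((univ : Finset Ω).filter fun ω' =>
      BZ (ca g (l + 1) ω) (ca h l ω') (ca h (l + 1) ω')).card : ℝ) ≤
      4 * (gamS Φ (ca g (l + 1)) (ca (h + 1) l) - gamS Φ (ca (g + 1) (l + 1)) (ca h l)) +
        δ * (N * N) := by
    intro l hl
    refine le_trans (Finset.sum_le_sum fun ω _ => hZ ω g h l hhJ hl) ?_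
    rw [Finset.sum_add_distrib, ← Finset.mul_sum, Finset.sum_const, nsmul_eq_mul]
    have h4 := gam_cZ S Φ h1 h2 (ca g (l + 1)) (ca (g + 1) (l + 1)) (ca h l) (ca (h + 1) l)
      (fun ω => hmono ω g (l + 1) hg) (fun ω => hmono ω h l hhJ)
    have h5 : ((univ : Finset Ω).card : ℝ) * (δ * Fintype.card Ω) = δ * (N * N) := by
      rw [Finset.card_univ, hN]
      ring
    rw [h5]
    linarith
  have htot : ∑ l ∈ range L, (∑ ω' : Ω, (((univ : Finset Ω).filter fun ω =>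
      BX (ca g l ω) (ca h l ω') (ca g (l + 1) ω)).card : ℝ) +
      ∑ ω : Ω, (((univ : Finset Ω).filter fun ω' =>
      BZ (ca g (l + 1) ω) (ca h l ω') (ca h (l + 1) ω')).card : ℝ)) <
      (Fintype.card Ω : ℝ) * Fintype.card Ω := by
    have h3 : ∑ l ∈ range L, (∑ ω' : Ω, (((univ : Finset Ω).filter fun ω =>
        BX (ca g l ω) (ca h l ω') (ca g (l + 1) ω)).card : ℝ) +
        ∑ ω : Ω, (((univ : Finset Ω).filter fun ω' =>
        BZ (ca g (l + 1) ω) (ca h l ω') (ca h (l + 1) ω')).card : ℝ)) ≤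
        ∑ l ∈ range L, (4 * ((gamS Φ (ca g l) (ca (h + 1) l) +
            gamS Φ (ca g (l + 1)) (ca (h + 1) l)) -
          (gamS Φ (ca (g + 1) l) (ca h l) + gamS Φ (ca (g + 1) (l + 1)) (ca h l))) +
            2 * (δ * (N * N))) := by
      refine Finset.sum_le_sum fun l hl => ?_
      have h4 := hbX l (mem_range.1 hl)
      have h5 := hbZ l (mem_range.1 hl)
      linarith
    refine lt_of_le_of_lt h3 ?_
    rw [Finset.sum_add_distrib, ← Finset.mul_sum, Finset.sum_const, nsmul_eq_mul, card_range,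
      Finset.sum_range]
    rw [← hN]
    have hNN : 0 < N * N := mul_pos hNpos hNpos
    have hJr : (0 : ℝ) < J := by exact_mod_cast hJ
    have hJP' : 16 * (L : ℝ) * P ≤ J := by exact_mod_cast hJP
    have h6 : (L : ℝ) * (2 * (N * N * P)) / J ≤ N * N / 8 := by
      rw [div_le_iff₀ hJr]
      have h7 : N * N * (16 * (L : ℝ) * P) ≤ N * N * J := mul_le_mul_of_nonneg_left hJP' hNN.le
      linarith
    have h8 : 4 * ((L : ℝ) * δ) * (N * N) < 1 * (N * N) := mul_lt_mul_of_pos_right hLδ hNN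
    have h9 := le_trans htel h6
    beta_reduce at h9
    linarith
  obtain ⟨ω, ω', hgood⟩ := gam_good L
    (fun l ω ω' => BX (ca g l ω) (ca h l ω') (ca g (l + 1) ω))
    (fun l ω ω' => BZ (ca g (l + 1) ω) (ca h l ω') (ca h (l + 1) ω')) htot
  exact ⟨g, hg, h, hhJ, ω, ω', hgood⟩

/-- The proof of decidability does not matter. -/
theorem gam_le {Ω : Type} [Fintype Ω] {p : Ω → Prop} {d₁ d₂ : DecidablePred p} {x : ℝ}
    (h : ((@Finset.filter Ω p d₁ univ).card : ℝ) ≤ x) :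
    ((@Finset.filter Ω p d₂ univ).card : ℝ) ≤ x := by
  have hd : d₁ = d₂ := Subsingleton.elim _ _
  subst hd
  exact h

theorem GAM_thm : Stmt_GAM := by
  intro hCFS hSTP hRES hTEL M K L J P Xn Xp _ _ _ _ δ Φ X Z hM hK hJ hP h1 h2 hX hZ hδ hJP hLδ
  have hne : Nonempty (Play M K Xn Xp) := by
    have hK' : Nonempty (Fin K) := ⟨⟨0, hK⟩⟩
    infer_instance
  obtain ⟨g, hg, h, hh, ω, ω', hgood⟩ := gam_abs hTEL (Ω := Play M K Xn Xp) Sub
    (fun g l ω => conf J ω g l) L J P δ Φ (fun a b a' => ¬ X a b a') (fun a b b' => ¬ Z a b b') hJ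
    (fun ω g l hg => (hCFS M K J Xn Xp ω g l).2.2.2.1 hg) hP h1 h2
    (fun ω' g h l hg hl => gam_le (hSTP hCFS hRES M K J Xn Xp δ (fun a => Φ a (conf J ω' h l))
        (fun a a' => X a (conf J ω' h l) a') hK
        (fun a g' ha => hX a (conf J ω' h l) g' ha) g l hg (by omega)))
    (fun ω g h l hh hl => gam_le (hSTP hCFS hRES M K J Xn Xp δ
        (fun b => Φ (conf J ω g (l + 1)) b)
        (fun b b' => Z (conf J ω g (l + 1)) b b') hK
        (fun b g' hb => hZ (conf J ω g (l + 1)) b g' hb) h l hh (by omega)))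
    hJP hLδ
  refine ⟨fun l => conf J ω g l, fun l => conf J ω' h l, fun l hl => ⟨?_, ?_⟩, fun l hl =>
    ⟨(hCFS M K J Xn Xp ω g l).2.2.1, (hCFS M K J Xn Xp ω' h l).2.2.1,
      not_not.1 (hgood l hl).1, not_not.1 (hgood l hl).2⟩⟩
  · exact (hCFS M K J Xn Xp ω g l).2.2.2.2.2.1 hg.le (by omega)
  · exact (hCFS M K J Xn Xp ω' h l).2.2.2.2.2.1 hh.le (by omega)

end Pool.Agent.NBC
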