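import Pool.Agent.NBC.Stmts

/-!
# Module NBC_MNT: monotone outputs if the NOT gates do not change
-/

set_option autoImplicit false

namespace Pool.Agent.NBC

open Finset Pool.Agent.NegLim Pool.Agent.NLM

lemma mnt_good {E : Type} {s t : ℕ} (C : NCirc E s t) (hN : C.NotsFree) {x x' : E → Bool}
    (hS : SameN C x x') (u : Fin s → Bool) (w : Fin t → Bool) :
    Good (guess C x u) C.gates x' u w := by
  have hg : Good (guess C x u) C.gates x u w := good_guess C hN (fun _ => rfl) u w
  intro n hn
  rw [hN n hn x' u w fun _ => false, ← hS u n hn, hN n hn x u (fun _ => false) w]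
  exact hg n hn

theorem MNT_thm : Stmt_MNT := by
  intro E s t C hN x x' hx hS u w h
  have hg : Good (guess C x u) C.gates x u w := good_guess C hN (fun _ => rfl) u w
  have hg' : Good (guess C x u) C.gates x' u w := mnt_good C hN hS u w
  unfold outp at h ⊢
  rw [← hg.gvals] at h
  rw [← hg'.gvals]
  exact Wire.val_mono hx (gvals_mono _ _ u w hx) C.out h

end Pool.Agent.NBC
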