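import Pool.Agent.NBC.Stmts

/-!
# NBC_POT: the potential
-/

set_option autoImplicit false

namespace Pool.Agent.NBC

open Finset Pool.Agent.NegLim Pool.Agent.NLM

/-- If the numbers of the outputs of the NOT gates agree for one `u`, the output grows. -/
theorem pot_out {E : Type} {s t : ℕ} (C : NCirc E s t) (hN : C.NotsFree) {x x' : E → Bool}
    (hx : ∀ e, x e = true → x' e = true) (u : Fin s → Bool)
    (h : num C.gates x u (fun _ => false) = num C.gates x' u fun _ => false)
    (w : Fin t → Bool) : outp C x u w = true → outp C x' u w = true := by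
  have key : ∀ n : ℕ, (∃ a, C.gates[n]? = some (Gate.not a)) →
      (vals C.gates x u fun _ => false)[n]? = some (guess C x u n) := by
    intro n hn
    have hlt : n < (vals C.gates x u fun _ => false).length := by
      rw [vals_length]
      obtain ⟨a, ha⟩ := hn
      exact (List.getElem?_eq_some_iff.1 ha).1
    unfold guess
    rw [List.getD_eq_getElem _ _ hlt, List.getElem?_eq_getElem hlt]
  have g1 : Good (guess C x u) C.gates x u w := by
    intro n hn
    rw [hN n hn x u w fun _ => false]
    exact key n hn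
  have g2 : Good (guess C x u) C.gates x' u w := by
    intro n hn
    rw [hN n hn x' u w fun _ => false, ← num_inj C.gates h n hn]
    exact key n hn
  intro ho
  unfold outp at ho ⊢
  rw [← g1.gvals] at ho
  rw [← g2.gvals]
  exact Wire.val_mono hx (gvals_mono _ _ u w hx) _ ho

theorem pot_bit {E : Type} {s t : ℕ} (mo : Bool) (C : NCirc E s t) (hN : C.NotsFree)
    {x x' : E → Bool} (hx : ∀ e, x e = true → x' e = true) (u : Fin s → Bool)
    (h : num C.gates x u (fun _ => false) = num C.gates x' u fun _ => false) :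
    Bit mo C x u → Bit mo C x' u := by
  rintro (⟨h1, w, hw⟩ | ⟨h1, hw⟩)
  · exact Or.inl ⟨h1, w, pot_out C hN hx u h w hw⟩
  · exact Or.inr ⟨h1, fun w => pot_out C hN hx u h w (hw w)⟩

open Classical in
/-- One term of the potential. -/
noncomputable def potTerm {E : Type} {s t : ℕ} (mo : Bool) (C : NCirc E s t) (x : E → Bool)
    (u : Fin s → Bool) : ℕ :=
  2 * num C.gates x u (fun _ => false) + if Bit mo C x u then 0 else 1

theorem pot_term_bd {E : Type} {s t r : ℕ} (mo : Bool) (C : NCirc E s t) (hr : C.nots ≤ r)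
    (x : E → Bool) (u : Fin s → Bool) : potTerm mo C x u ≤ 2 ^ (r + 1) := by
  have h1 := num_lt C.gates x u fun _ => false
  have h2 : 2 ^ C.gates.countP Gate.isNot ≤ 2 ^ r := Nat.pow_le_pow_right (by norm_num) hr
  unfold potTerm
  rw [pow_succ]
  split_ifs <;> omega

theorem pot_term_cmp {E : Type} {s t : ℕ} (mo : Bool) (C : NCirc E s t) (hN : C.NotsFree)
    {x x' : E → Bool} (hx : ∀ e, x e = true → x' e = true) (u : Fin s → Bool) :
    potTerm mo C x' u ≤ potTerm mo C x u ∧ (potTerm mo C x' u = potTerm mo C x u →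
      num C.gates x' u (fun _ => false) = num C.gates x u (fun _ => false) ∧
        (Bit mo C x u ↔ Bit mo C x' u)) := by
  rcases (num_le C.gates u (fun _ => false) hx).lt_or_eq with h | h
  · have h3 : potTerm mo C x' u < potTerm mo C x u := by
      unfold potTerm
      split_ifs <;> omega
    exact ⟨h3.le, fun h4 => absurd h4 h3.ne⟩
  · have h5 := pot_bit mo C hN hx u h.symm
    unfold potTerm
    by_cases hb : Bit mo C x u
    · have hb' := h5 hb
      rw [if_pos hb, if_pos hb', h]
      exact ⟨le_rfl, fun _ => ⟨rfl, fun _ => hb', fun _ => hb⟩⟩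
    · by_cases hb' : Bit mo C x' u
      · rw [if_neg hb, if_pos hb', h]
        exact ⟨by omega, fun h6 => by omega⟩
      · rw [if_neg hb, if_neg hb', h]
        exact ⟨le_rfl, fun _ => ⟨rfl, fun h6 => absurd h6 hb, fun h6 => absurd h6 hb'⟩⟩

theorem pot_eq {E : Type} {q s t : ℕ} (mo : Fin q → Bool) (C : Fin q → NCirc E s t)
    (x : E → Bool) : Pot mo C x = ∑ i, ∑ u : Fin s → Bool, potTerm (mo i) (C i) x u := rfl

theorem POT_thm : Stmt_POT := by
  intro E q s t r mo C hN hr
  refine ⟨fun x => ?_, fun x x' hx => ?_⟩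
  · rw [pot_eq]
    calc ∑ i, ∑ u : Fin s → Bool, potTerm (mo i) (C i) x u
        ≤ ∑ _i : Fin q, ∑ _u : Fin s → Bool, 2 ^ (r + 1) :=
          Finset.sum_le_sum fun i _ => Finset.sum_le_sum fun u _ =>
            pot_term_bd (mo i) (C i) (hr i) x u
      _ = q * 2 ^ (s + r + 1) := by
          rw [Finset.sum_const, Finset.sum_const, Finset.card_univ, Finset.card_univ,
            Fintype.card_fun, Fintype.card_bool, Fintype.card_fin, Fintype.card_fin,
            smul_eq_mul, smul_eq_mul, ← pow_add, add_assoc]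
  · have h1 : ∀ i u, potTerm (mo i) (C i) x' u ≤ potTerm (mo i) (C i) x u := fun i u =>
      (pot_term_cmp (mo i) (C i) (hN i) hx u).1
    have h2 : ∀ i ∈ (univ : Finset (Fin q)), ∑ u : Fin s → Bool, potTerm (mo i) (C i) x' u ≤
        ∑ u : Fin s → Bool, potTerm (mo i) (C i) x u := fun i _ =>
      Finset.sum_le_sum fun u _ => h1 i u
    rw [pot_eq, pot_eq]
    refine ⟨Finset.sum_le_sum h2, fun h3 i => ?_⟩
    have h4 := (Finset.sum_eq_sum_iff_of_le h2).1 h3 i (mem_univ i)
    have h5 : ∀ u, potTerm (mo i) (C i) x' u = potTerm (mo i) (C i) x u := fun u =>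
      (Finset.sum_eq_sum_iff_of_le fun u _ => h1 i u).1 h4 u (mem_univ u)
    refine ⟨fun u n hn => ?_, fun u => ((pot_term_cmp (mo i) (C i) (hN i) hx u).2 (h5 u)).2⟩
    exact num_inj (C i).gates
      ((pot_term_cmp (mo i) (C i) (hN i) hx u).2 (h5 u)).1.symm n hn

end Pool.Agent.NBC
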