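import Pool.Agent.NBC.Stmts

/-!
# The inputs below `R` with the same NOT gates, by small monotone programs (NBC): module PRG
-/

set_option autoImplicit false

namespace Pool.Agent.NBC

open Finset Pool.Agent.NegLim Pool.Agent.NLM
open Pool.Agent.NEG72 (InWin tneg tpos)

/-- Conjunction of many functions. -/
theorem prg_monSize_all {V P : Type} (G : P → (V → Bool) → Bool) {K : ℕ}
    (hG : ∀ p, MonSize (G p) K) (ps : List P) :
    MonSize (fun x => ps.all fun p => G p x) (ps.length * (K + 1)) := by
  induction ps with
  | nil => exact ⟨[], Mon.nil, by simp, Avail.const _ true⟩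
  | cons p ps ih =>
    obtain ⟨L, h1, h2, h3⟩ := ih
    obtain ⟨L', h1', h2', h3'⟩ := hG p
    refine ⟨_, Mon.and (h1'.append h1) (h3'.mono fun _ h => List.mem_append_left _ h)
      (h3.mono fun _ h => List.mem_append_right _ h), ?_, ?_⟩
    · simp only [List.length_cons, List.length_append]
      rw [Nat.add_mul]
      omega
    · exact Avail.head _ _

/-- At a NOT gate the guessed value is the guess. -/
theorem prg_gvals_not {E : Type} {s t : ℕ} (z : ℕ → Bool) (C : List (Gate E s t)) (x : E → Bool)
    (u : Fin s → Bool) (w : Fin t → Bool) (n : ℕ) (hn : ∃ a, C[n]? = some (Gate.not a)) :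
    (gvals z C x u w)[n]? = some (z n) := by
  induction C using List.reverseRecOn with
  | nil =>
    obtain ⟨a, ha⟩ := hn
    simp at ha
  | append_singleton C g ih =>
    obtain ⟨a, ha⟩ := hn
    rw [gvals_concat]
    rcases lt_trichotomy n C.length with h1 | h1 | h1
    · rw [List.getElem?_append_left h1] at ha
      rw [List.getElem?_append_left (by rw [gvals_length]; exact h1)]
      exact ih ⟨a, ha⟩
    · subst h1
      rw [List.getElem?_append_right le_rfl] at ha
      simp only [Nat.sub_self, List.getElem?_cons_zero, Option.some.injEq] at ha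
      subst ha
      rw [List.getElem?_append_right (by rw [gvals_length]), gvals_length]
      simp [Gate.isNot]
    · rw [List.getElem?_eq_none (by simp; omega)] at ha
      cases ha

theorem prg_isProj_id {E : Type} : IsProj (fun x : E → Bool => x) := by
  intro e
  exact Or.inr (Or.inl ⟨e, rfl⟩)

/-- The programs for the check and for the output. -/
theorem prg_progs {E : Type} {s t : ℕ} (C : NCirc E s t) (z : ℕ → Bool) (u : Fin s → Bool)
    (w : Fin t → Bool) (G : ℕ) (hG : C.gates.length ≤ G) :
    MonSize (fun y => chkA z C.gates y u w) G ∧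
      MonSize (fun y => C.out.val y u w (gvals z C.gates y u w)) G := by
  obtain ⟨L, h1, h2, h3, h4⟩ := prog (prg_isProj_id (E := E)) z C.gates u w false
  refine ⟨⟨L, h1, h2.trans hG, h4⟩, L, h1, h2.trans hG, ?_⟩
  cases C.out with
  | inp e => exact Or.inr (Or.inl ⟨e, rfl⟩)
  | wit φ => exact Avail.const _ _
  | gate n => exact h3 n

theorem prg_good_R {E : Type} {s t : ℕ} (C : NCirc E s t) (hN : C.NotsFree) (R : E → Bool)
    (u : Fin s → Bool) (w : Fin t → Bool) : Good (guess C R u) C.gates R u w :=
  good_guess C hN (fun _ => rfl) u w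

/-- With the same NOT gates the guesses from `R` are right at `y`. -/
theorem prg_good_y {E : Type} {s t : ℕ} (C : NCirc E s t) (hN : C.NotsFree) (R y : E → Bool)
    (h : SameN C R y) (u : Fin s → Bool) (w : Fin t → Bool) :
    Good (guess C R u) C.gates y u w := by
  intro n hn
  rw [hN n hn y u w fun _ => false, ← h u n hn]
  exact prg_good_R C hN R u (fun _ => false) n hn

/-- The positive check gives the same NOT gates. -/
theorem prg_same {E : Type} {s t : ℕ} (C : NCirc E s t) (hN : C.NotsFree) (R y : E → Bool)
    (hy : ∀ e, y e = true → R e = true)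
    (h : ∀ u : Fin s → Bool, chkA (guess C R u) C.gates y u (fun _ => false) = true) :
    SameN C R y := by
  intro u n hn
  rw [prg_good_R C hN R u (fun _ => false) n hn,
    ← keyA hy (prg_good_R C hN R u fun _ => false) (h u), prg_gvals_not _ _ _ _ _ n hn]

theorem prg_ans_true {E : Type} {s t : ℕ} (C : NCirc E s t) (x : E → Bool) :
    Ans true C x ↔ C.Acc x := by
  unfold Ans
  constructor
  · rintro (⟨-, h⟩ | ⟨h, -⟩)
    · exact h
    · exact absurd h (by decide)
  · exact fun h => Or.inl ⟨rfl, h⟩

theorem PRG_thm : Stmt_PRG := by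
  classical
  intro hMNT E q s t G mo C hN hG R
  let Q : Fin q → Bool := fun i => decide (mo i = true ∧ (C i).Acc R)
  let l1 : List (Fin q × (Fin s → Bool)) := (univ : Finset (Fin q × (Fin s → Bool))).toList
  let l2 : List (Fin q) := (univ : Finset (Fin q)).toList
  let z : ∀ _ : Fin q, (Fin s → Bool) → ℕ → Bool := fun i u => guess (C i) R u
  let F1 : Fin q × (Fin s → Bool) → (E → Bool) → Bool := fun iu y =>
    chkA (z iu.1 iu.2) (C iu.1).gates y iu.2 (fun _ => false)
  let F2 : (Fin q → (Fin s → Bool) × (Fin t → Bool)) → Fin q → (E → Bool) → Bool := fun p i y =>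
    if Q i = true then (C i).out.val y (p i).1 (p i).2
      (gvals (z i (p i).1) (C i).gates y (p i).1 (p i).2) else true
  have hF1 : ∀ iu, MonSize (F1 iu) G := fun iu =>
    (prg_progs (C iu.1) (z iu.1 iu.2) iu.2 (fun _ => false) G (hG iu.1)).1
  have hF2 : ∀ p i, MonSize (F2 p i) G := by
    intro p i
    by_cases hq : Q i = true
    · have h1 : F2 p i = fun y => (C i).out.val y (p i).1 (p i).2
          (gvals (z i (p i).1) (C i).gates y (p i).1 (p i).2) := by
        funext y
        exact if_pos hq
      rw [h1]
      exact (prg_progs (C i) (z i (p i).1) (p i).1 (p i).2 G (hG i)).2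
    · have h1 : F2 p i = fun _ => true := by
        funext y
        exact if_neg hq
      rw [h1]
      exact ⟨[], Mon.nil, Nat.zero_le _, Avail.const _ _⟩
  have hl1 : l1.length = q * 2 ^ s := by
    simp only [l1]
    rw [Finset.length_toList, Finset.card_univ, Fintype.card_prod, Fintype.card_fun,
      Fintype.card_bool, Fintype.card_fin, Fintype.card_fin]
  have hl2 : l2.length = q := by
    simp only [l2]
    rw [Finset.length_toList, Finset.card_univ, Fintype.card_fin]
  refine ⟨fun p y => (l1.all fun iu => F1 iu y) && l2.all fun i => F2 p i y, ?_, ?_⟩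
  · intro p
    obtain ⟨L1, a1, a2, a3⟩ := prg_monSize_all F1 hF1 l1
    obtain ⟨L2, b1, b2, b3⟩ := prg_monSize_all (F2 p) (hF2 p) l2
    refine ⟨_, Mon.and (a1.append b1) (a3.mono fun _ h => List.mem_append_left _ h)
      (b3.mono fun _ h => List.mem_append_right _ h), ?_, Avail.head _ _⟩
    rw [hl1] at a2
    rw [hl2] at b2
    rw [List.length_cons, List.length_append]
    have h2 : q * (G + 1) ≤ q * 2 ^ s * (G + 1) :=
      Nat.mul_le_mul_right _ (Nat.le_mul_of_pos_right q (Nat.two_pow_pos s))
    have h3 : q * 2 ^ s * (2 * G + 3) = q * 2 ^ s * (G + 1) + q * 2 ^ s * (G + 1) + q * 2 ^ s := by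
      ring
    omega
  · intro y hy
    constructor
    · rintro ⟨p, hp⟩
      rw [Bool.and_eq_true, List.all_eq_true, List.all_eq_true] at hp
      obtain ⟨hp1, hp2⟩ := hp
      have hsame : ∀ i, SameN (C i) R y := fun i =>
        prg_same (C i) (hN i) R y hy fun u => hp1 (i, u) (by simp [l1])
      refine fun i => ⟨hsame i, fun hmo => ?_⟩
      rw [prg_ans_true, prg_ans_true]
      constructor
      · intro hR
        have h1 := hp2 i (by simp [l2])
        have hq : Q i = true := decide_eq_true ⟨hmo, hR⟩
        simp only [F2, hq, if_true] at h1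
        refine ⟨(p i).1, (p i).2, ?_⟩
        rw [← (prg_good_y (C i) (hN i) R y (hsame i) (p i).1 (p i).2).gvals]
        exact h1
      · rintro ⟨u, w, h1⟩
        exact ⟨u, w, hMNT E s t (C i) (hN i) y R hy
          (fun u n hn => (hsame i u n hn).symm) u w h1⟩
    · intro hK
      have hw : ∀ i, ∃ uw : (Fin s → Bool) × (Fin t → Bool), Q i = true →
          outp (C i) y uw.1 uw.2 = true := by
        intro i
        by_cases hq : Q i = true
        · obtain ⟨hmo, hR⟩ := of_decide_eq_true hq
          have h1 := ((hK i).2 hmo).1 ((prg_ans_true _ _).2 hR)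
          obtain ⟨u, w, h2⟩ := (prg_ans_true _ _).1 h1
          exact ⟨(u, w), fun _ => h2⟩
        · exact ⟨(fun _ => false, fun _ => false), fun h => absurd h hq⟩
      choose p hp using hw
      refine ⟨p, ?_⟩
      rw [Bool.and_eq_true, List.all_eq_true, List.all_eq_true]
      constructor
      · intro iu _
        exact chkA_of_good (prg_good_y (C iu.1) (hN iu.1) R y (hK iu.1).1 iu.2 _)
      · intro i _
        by_cases hq : Q i = true
        · simp only [F2, hq, if_true]
          rw [(prg_good_y (C i) (hN i) R y (hK i).1 (p i).1 (p i).2).gvals]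
          exact hp i hq
        · simp only [F2, hq]
          rfl

end Pool.Agent.NBC
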