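import Pool.Agent.NBC.Stmts

/-!
# Project NBC, module RES: averaging again over one coordinate
-/

set_option autoImplicit false

namespace Pool.Agent.NBC

theorem res_invol (I X : Type) [DecidableEq I] (r : I) :
    Function.Involutive (fun p : (I → X) × X => (Function.update p.1 r p.2, p.1 r)) := by
  rintro ⟨ω, x⟩
  simp

theorem RES_thm : Stmt_RES := by
  intro I X _ _ _ r f
  have h1 : ∑ p : (I → X) × X, f (Function.update p.1 r p.2) = ∑ p : (I → X) × X, f p.1 :=
    Fintype.sum_equiv (Function.Involutive.toPerm _ (res_invol I X r)) _ _ fun p => rfl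
  rw [Fintype.sum_prod_type, Fintype.sum_prod_type] at h1
  rw [h1, Finset.mul_sum]
  refine Finset.sum_congr rfl fun ω _ => ?_
  simp

end Pool.Agent.NBC
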