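import Pool.Agent.NBC.Stmts

/-!
# Module NBC_STP: one step of the random chain, one half
-/

set_option autoImplicit false

namespace Pool.Agent.NBC

open Finset

section

variable {M K : ℕ} {Xn Xp : Type}

/-- Averaging over the positive test of the role `r`. -/
theorem stp_res2 [Fintype Xn] [Fintype Xp] (hR : Stmt_RES) (r : Fin M)
    (F : Play M K Xn Xp → Fin K × Xp → ℝ)
    (hF : ∀ (ω : Play M K Xn Xp) (x y : Fin K × Xp),
      F (ω.1, ω.2.1, Function.update ω.2.2 r x) y = F ω y) :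
    ∑ ω : Play M K Xn Xp, ∑ z : Fin K × Xp, F ω z =
      Fintype.card (Fin K × Xp) * ∑ ω : Play M K Xn Xp, F ω (ω.2.2 r) := by
  rw [Fintype.sum_prod_type, Fintype.sum_prod_type, Finset.mul_sum]
  refine Finset.sum_congr rfl fun π _ => ?_
  rw [Fintype.sum_prod_type, Fintype.sum_prod_type, Finset.mul_sum]
  refine Finset.sum_congr rfl fun c _ => ?_
  rw [← hR (Fin M) (Fin K × Xp) r fun p => F (π, c, p) (p r)]
  refine Finset.sum_congr rfl fun p _ => ?_
  refine Finset.sum_congr rfl fun x _ => ?_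
  have h := hF (π, c, p) x x
  simp only [Function.update_self]
  exact h.symm

/-- Averaging over the neutral tests of the role `r`. -/
theorem stp_res1 [Fintype Xn] [Fintype Xp] (hR : Stmt_RES) (r : Fin M)
    (F : Play M K Xn Xp → (Fin K → Xn) → ℝ)
    (hF : ∀ (ω : Play M K Xn Xp) (x y : Fin K → Xn),
      F (ω.1, Function.update ω.2.1 r x, ω.2.2) y = F ω y) :
    ∑ ω : Play M K Xn Xp, ∑ z : Fin K → Xn, F ω z =
      Fintype.card (Fin K → Xn) * ∑ ω : Play M K Xn Xp, F ω (ω.2.1 r) := by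
  rw [Fintype.sum_prod_type, Fintype.sum_prod_type, Finset.mul_sum]
  refine Finset.sum_congr rfl fun π _ => ?_
  rw [Fintype.sum_prod_type, Fintype.sum_prod_type, Finset.sum_comm,
    Finset.sum_comm (f := fun c p => F (π, c, p) (((π, c, p) : Play M K Xn Xp).2.1 r)),
    Finset.mul_sum]
  refine Finset.sum_congr rfl fun p _ => ?_
  rw [← hR (Fin M) (Fin K → Xn) r fun c => F (π, c, p) (c r)]
  refine Finset.sum_congr rfl fun c _ => ?_
  refine Finset.sum_congr rfl fun x _ => ?_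
  have h := hF (π, c, p) x x
  simp only [Function.update_self]
  exact h.symm

/-- The exchange of two roles. -/
def stp_sw (i j : Fin M) (ω : Play M K Xn Xp) : Play M K Xn Xp :=
  ((Equiv.swap i j).trans ω.1, ω.2.1 ∘ Equiv.swap i j, ω.2.2 ∘ Equiv.swap i j)

theorem stp_sw_inv (i j : Fin M) : Function.Involutive (stp_sw (K := K) (Xn := Xn) (Xp := Xp) i j) := by
  rintro ⟨π, c, p⟩
  unfold stp_sw
  refine Prod.ext ?_ (Prod.ext ?_ ?_)
  · apply Equiv.ext
    intro w
    simp
  · funext w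
    simp
  · funext w
    simp

end

theorem STP_thm : Stmt_STP := by
  intro hC hR M K J Xn Xp _ _ _ _ δ Φ X hK hyp g l hg hl
  classical
  let j : Fin M := ⟨J + l, hl⟩
  let i : Fin M := ⟨g, by omega⟩
  have hj : (j : ℕ) = J + l := rfl
  have hi : (i : ℕ) = g := rfl
  have c1 : ∀ ω : Play M K Xn Xp, (∀ w, conf J ω g l (ω.1 j, w) = St.emp) ∧
      conf J ω g (l + 1) = setP (conf J ω g l) (ω.1 j) (ω.2.2 j).1 (ω.2.2 j).2 := fun ω =>
    (hC M K J Xn Xp ω g l).1 j hj hg.le
  have c2 : ∀ ω : Play M K Xn Xp,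
      conf J ω (g + 1) l = fillN (conf J ω g l) (ω.1 i) (ω.2.1 i) := fun ω =>
    ((hC M K J Xn Xp ω g l).2.1 i hi hg).2
  have c4 : ∀ (ω : Play M K Xn Xp) (c : Fin K → Xn) (p : Fin K × Xp),
      conf J (ω.1, Function.update ω.2.1 j c, Function.update ω.2.2 j p) g l = conf J ω g l := fun ω =>
    (hC M K J Xn Xp ω g l).2.2.2.2.1 j hj hg.le
  have c6 : ∀ ω : Play M K Xn Xp, conf J (stp_sw i j ω) g l = conf J ω g l := fun ω =>
    (hC M K J Xn Xp ω g l).2.2.2.2.2.2 i j hi hg hj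
  have c4p : ∀ (ω : Play M K Xn Xp) (p : Fin K × Xp),
      conf J (ω.1, ω.2.1, Function.update ω.2.2 j p) g l = conf J ω g l := by
    intro ω p
    have h := c4 ω (ω.2.1 j) p
    rwa [Function.update_eq_self] at h
  have c4c : ∀ (ω : Play M K Xn Xp) (c : Fin K → Xn),
      conf J (ω.1, Function.update ω.2.1 j c, ω.2.2) g l = conf J ω g l := by
    intro ω c
    have h := c4 ω c (ω.2.2 j)
    rwa [Function.update_eq_self] at h
  have hKp : (0 : ℝ) < K * Fintype.card Xp := by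
    have h1 : (0 : ℝ) < K := by exact_mod_cast hK
    have h2 : (0 : ℝ) < Fintype.card Xp := by exact_mod_cast Fintype.card_pos
    positivity
  have hXn : (0 : ℝ) < (Fintype.card Xn : ℝ) ^ K := by
    have h2 : (0 : ℝ) < Fintype.card Xn := by exact_mod_cast Fintype.card_pos
    positivity
  -- the two functions
  let FX : Play M K Xn Xp → Fin K × Xp → ℝ := fun ω z =>
    if ¬ X (conf J ω g l) (setP (conf J ω g l) (ω.1 j) z.1 z.2) then 1 else 0
  let FP : Play M K Xn Xp → (Fin K → Xn) → ℝ := fun ω χ =>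
    if Φ (fillN (conf J ω g l) (ω.1 j) χ) ≠ Φ (conf J ω g l) then 1 else 0
  have hX := stp_res2 hR j FX (by
    intro ω x y
    simp only [FX]
    rw [c4p ω x])
  have hP := stp_res1 hR j FP (by
    intro ω x y
    simp only [FP]
    rw [c4c ω x])
  have eX : (((univ : Finset (Play M K Xn Xp)).filter fun ω =>
      ¬ X (conf J ω g l) (conf J ω g (l + 1))).card : ℝ) = ∑ ω : Play M K Xn Xp, FX ω (ω.2.2 j) := by
    rw [Finset.natCast_card_filter]
    refine Finset.sum_congr rfl fun ω _ => ?_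
    simp only [FX]
    rw [(c1 ω).2]
  have eP : (((univ : Finset (Play M K Xn Xp)).filter fun ω =>
      Φ (conf J ω (g + 1) l) ≠ Φ (conf J ω g l)).card : ℝ) =
      ∑ ω : Play M K Xn Xp, FP ω (ω.2.1 j) := by
    rw [Finset.natCast_card_filter]
    rw [← Equiv.sum_comp (stp_sw_inv (K := K) (Xn := Xn) (Xp := Xp) i j).toPerm
      (fun ω => FP ω (ω.2.1 j))]
    refine Finset.sum_congr rfl fun ω _ => ?_
    have h1 : ((stp_sw_inv (K := K) (Xn := Xn) (Xp := Xp) i j).toPerm) ω = stp_sw i j ω := rfl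
    rw [h1]
    simp only [FP]
    rw [c6 ω, c2 ω]
    have h2 : (stp_sw i j ω).1 j = ω.1 i := by simp [stp_sw]
    have h3 : (stp_sw i j ω).2.1 j = ω.2.1 i := by simp [stp_sw]
    rw [h2, h3]
  have eZ : ∀ ω : Play M K Xn Xp, (∑ z, FX ω z) ≤
      K * Fintype.card Xp * (4 * (∑ χ, FP ω χ) / (Fintype.card Xn : ℝ) ^ K + δ) := by
    intro ω
    have h := hyp (conf J ω g l) (ω.1 j) (c1 ω).1
    rw [div_le_iff₀ hKp, Finset.natCast_card_filter, Finset.natCast_card_filter] at h
    rw [mul_comm (K * Fintype.card Xp : ℝ)]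
    exact h
  have hcard : ((Fintype.card (Fin K × Xp) : ℕ) : ℝ) = K * Fintype.card Xp := by
    simp
  have hcardn : ((Fintype.card (Fin K → Xn) : ℕ) : ℝ) = (Fintype.card Xn : ℝ) ^ K := by
    simp
  rw [eX, eP]
  have hsum : (K * Fintype.card Xp : ℝ) * ∑ ω : Play M K Xn Xp, FX ω (ω.2.2 j) ≤
      (K * Fintype.card Xp : ℝ) * (4 * (∑ ω : Play M K Xn Xp, FP ω (ω.2.1 j)) +
        δ * Fintype.card (Play M K Xn Xp)) := by
    rw [← hcard, ← hX, hcard]
    calc ∑ ω : Play M K Xn Xp, ∑ z, FX ω z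
        ≤ ∑ ω : Play M K Xn Xp,
          K * Fintype.card Xp * (4 * (∑ χ, FP ω χ) / (Fintype.card Xn : ℝ) ^ K + δ) :=
          Finset.sum_le_sum fun ω _ => eZ ω
      _ = K * Fintype.card Xp * (4 * (∑ ω : Play M K Xn Xp, ∑ χ, FP ω χ) /
          (Fintype.card Xn : ℝ) ^ K + δ * Fintype.card (Play M K Xn Xp)) := by
          rw [← Finset.mul_sum, Finset.sum_add_distrib, ← Finset.sum_div, ← Finset.mul_sum,
            Finset.sum_const, Finset.card_univ, nsmul_eq_mul, mul_comm δ]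
      _ = _ := by
          rw [hP, hcardn]
          congr 2
          field_simp
  exact le_of_mul_le_mul_left hsum hKp

end Pool.Agent.NBC
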