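import Pool.Agent.NBC.Stmts

/-!
# Module STX of the project NBC: the step in the first half and the coNP mode
-/

set_option autoImplicit false

namespace Pool.Agent.NBC

open Finset Pool.Agent.NegLim Pool.Agent.NLM

lemma stx_neg {W E Xn Xp : Type} (T : Tests W E Xn Xp) (a b : W → St Xn Xp) :
    neg (T.inp a b) = T.inp b a := by
  funext e
  cases e with
  | inl e => simp [neg, Tests.inp]
  | inr e => simp [neg, Tests.inp]

theorem STX_thm : Stmt_STX := by
  classical
  intro hD hZ M K q s t G D E Xn Xp _ _ _ _ T mo C hdis hdich hfree hlen hK hD0 a b g hg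
  obtain ⟨h1, -, h3, h4⟩ := hD E q s t mo C
  have key := hZ M K q s t G D E Xn Xp T (fun i => !(mo i)) (fun i => flip (C i)) hdis hdich
    (fun i => h1 i (hfree i)) (fun i => by rw [h3 i]; exact hlen i) hK hD0 b a g hg
  have e1 : ∀ z : Fin K × Xp, Keep true (fun i => !(mo i)) (fun i => flip (C i)) (T.inp b a)
      (T.inp b (setP a g z.1 z.2)) ↔ Keep false mo C (T.inp a b) (T.inp (setP a g z.1 z.2) b) := by
    intro z
    have := (h4 (T.inp a b) (T.inp (setP a g z.1 z.2) b)).1
    rwa [stx_neg, stx_neg] at this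
  have e2 : ∀ χ : Fin K → Xn, Same (fun i => !(mo i)) (fun i => flip (C i)) (T.inp b a)
      (T.inp b (fillN a g χ)) ↔ Same mo C (T.inp a b) (T.inp (fillN a g χ) b) := by
    intro χ
    have := (h4 (T.inp a b) (T.inp (fillN a g χ) b)).2
    rwa [stx_neg, stx_neg] at this
  simp only [e1, e2] at key
  exact key

end Pool.Agent.NBC
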