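import Pool.Agent.NBC.Stmts

/-!
# NBC_STZ: the bound for one step in the second half
-/

set_option autoImplicit false

namespace Pool.Agent.NBC

open Finset Pool.Agent.NegLim Pool.Agent.NLM
open Pool.Agent.NEG72 (InWin tneg tpos)

theorem stz_keep {E : Type} {s t q : ℕ} (mo : Fin q → Bool) (C : Fin q → NCirc E s t)
    (x x' : E → Bool) (h : Same mo C x x') : Keep true mo C x x' := by
  intro i
  refine ⟨(h i).1, fun hi => ?_⟩
  have hb := (h i).2
  have key : ∀ y : E → Bool, Ans true (C i) y ↔ ∃ u, Bit (mo i) (C i) y u := by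
    intro y
    constructor
    · rintro (⟨-, u, w, hw⟩ | ⟨h0, -⟩)
      · exact ⟨u, Or.inl ⟨hi, w, hw⟩⟩
      · exact absurd h0 (by decide)
    · rintro ⟨u, ⟨-, w, hw⟩ | ⟨h0, -⟩⟩
      · exact Or.inl ⟨rfl, u, w, hw⟩
      · rw [hi] at h0
        exact absurd h0 (by decide)
  rw [key, key]
  exact exists_congr hb

open Classical in
theorem stz_xin {W E Xn Xp : Type} (T : Tests W E Xn Xp) (b : W → St Xn Xp) (e : E) :
    T.xin b e = true ↔ ∃ j, e ∈ T.B j ∧ T.val j (b j) e = true := by
  unfold Tests.xin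
  exact decide_eq_true_iff

theorem stz_le {W E Xn Xp : Type} (T : Tests W E Xn Xp) (a b b' : W → St Xn Xp)
    (h : ∀ w, b w = St.emp ∨ b w = b' w) (e : E ⊕ E) (he : T.inp a b' e = true) :
    T.inp a b e = true := by
  cases e with
  | inl e => exact he
  | inr e =>
    have h1 : T.xin b' e = false := by
      have h0 : (!(T.xin b' e)) = true := he
      simpa using h0
    have h2 : T.xin b e = false := by
      by_contra hne
      have h3 : T.xin b e = true := by simpa using hne
      obtain ⟨j, hj, hv⟩ := (stz_xin T b e).1 h3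
      rcases h j with hb | hb
      · rw [hb] at hv
        exact absurd hv (by simp [Tests.val])
      · rw [hb] at hv
        have h4 := (stz_xin T b' e).2 ⟨j, hj, hv⟩
        rw [h1] at h4
        exact absurd h4 (by decide)
    show (!(T.xin b e)) = true
    rw [h2]
    rfl

theorem stz_card (q s t : ℕ) :
    Fintype.card (Fin q → (Fin s → Bool) × (Fin t → Bool)) ≤ 2 ^ (q * (s + t)) := by
  rw [Fintype.card_fun, Fintype.card_prod, Fintype.card_fun, Fintype.card_fun, Fintype.card_bool,
    Fintype.card_fin, Fintype.card_fin, Fintype.card_fin, ← pow_add, ← pow_mul, mul_comm (s + t) q]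

open Classical in
theorem STZ_thm : Stmt_STZ := by
  intro hMNT hPRG hBLD M K q s t G D E Xn Xp _ _ _ _ T mo C hDis hDich hfree hlen hK hD a b g hb
  obtain ⟨F, hF1, hF2⟩ := hPRG hMNT (E ⊕ E) q s t G mo C hfree hlen (T.inp a b)
  have hXn : 0 < Fintype.card Xn := Fintype.card_pos
  have hXp : 0 < Fintype.card Xp := Fintype.card_pos
  have hKR : (0 : ℝ) < K := Nat.cast_pos.2 hK
  have hDR : (0 : ℝ) < D := Nat.cast_pos.2 hD
  have hXpR : (0 : ℝ) < Fintype.card Xp := Nat.cast_pos.2 hXp
  have hXnR : (0 : ℝ) < (Fintype.card Xn : ℝ) ^ K := pow_pos (Nat.cast_pos.2 hXn) K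
  -- the inputs are below `R`
  have hN : ∀ χ : Fin K → Xn, ∀ e, T.inp a (fillN b g χ) e = true → T.inp a b e = true := by
    intro χ e he
    refine stz_le T a b (fillN b g χ) (fun w => ?_) e he
    by_cases hw : w.1 = g
    · left
      have h0 := hb w.2
      rw [← hw] at h0
      exact h0
    · right
      simp only [fillN, if_neg hw]
  have hP : ∀ z : Fin K × Xp, ∀ e, T.inp a (setP b g z.1 z.2) e = true → T.inp a b e = true := by
    intro z e he
    refine stz_le T a b (setP b g z.1 z.2) (fun w => ?_) e he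
    by_cases hw : w = (g, z.1)
    · left
      rw [hw]
      exact hb z.1
    · right
      simp only [setP, if_neg hw]
  -- the sets
  obtain ⟨BadN, hBadN⟩ : ∃ S : Finset (Fin K → Xn), S = (univ : Finset (Fin K → Xn)).filter fun χ =>
    ¬ Same mo C (T.inp a b) (T.inp a (fillN b g χ)) := ⟨_, rfl⟩
  obtain ⟨BadP, hBadP⟩ : ∃ S : Finset (Fin K × Xp), S = (univ : Finset (Fin K × Xp)).filter fun z =>
    ¬ Keep true mo C (T.inp a b) (T.inp a (setP b g z.1 z.2)) := ⟨_, rfl⟩
  rw [← hBadN, ← hBadP]
  have hδ : (0 : ℝ) ≤ 1 / D + (3 * (q * (s + t)) + 3) / K := by positivity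
  have hBadP1 : (BadP.card : ℝ) ≤ K * Fintype.card Xp := by
    have h1 : BadP.card ≤ K * Fintype.card Xp := by
      refine (card_le_univ BadP).trans (le_of_eq ?_)
      rw [Fintype.card_prod, Fintype.card_fin]
    exact_mod_cast h1
  rcases lt_or_ge (Fintype.card Xn ^ K) (4 * BadN.card) with hcase | hcase
  · -- more than one quarter: the bound is trivial
    have h1 : ((Fintype.card Xn : ℝ) ^ K) ≤ 4 * (BadN.card : ℝ) := by exact_mod_cast hcase.le
    have h2 : (1 : ℝ) ≤ 4 * (BadN.card : ℝ) / (Fintype.card Xn : ℝ) ^ K := by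
      rw [le_div_iff₀ hXnR, one_mul]
      exact h1
    have h3 : (BadP.card : ℝ) / (K * Fintype.card Xp) ≤ 1 := by
      rw [div_le_one (mul_pos hKR hXpR)]
      exact hBadP1
    linarith
  · -- at most one quarter
    have hgood : 3 * Fintype.card Xn ^ K ≤
        4 * ((univ : Finset (Fin K → Xn)).filter fun χ =>
          ∃ p, F p (T.inp a (fillN b g χ)) = true).card := by
      have h1 : (univ : Finset (Fin K → Xn)).card = Fintype.card Xn ^ K := by
        rw [card_univ, Fintype.card_fun, Fintype.card_fin]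
      have h2 : (univ : Finset (Fin K → Xn)) ⊆ BadN ∪
          (univ : Finset (Fin K → Xn)).filter fun χ =>
            ∃ p, F p (T.inp a (fillN b g χ)) = true := by
        intro χ _
        rw [mem_union, mem_filter]
        by_cases hs : Same mo C (T.inp a b) (T.inp a (fillN b g χ))
        · right
          exact ⟨mem_univ _, (hF2 _ (hN χ)).2 (stz_keep mo C _ _ hs)⟩
        · left
          rw [hBadN, mem_filter]
          exact ⟨mem_univ _, hs⟩
      have h3 := (card_le_card h2).trans (card_union_le _ _)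
      rw [h1] at h3
      omega
    have hbl := hBLD M K (q * (s + t)) (q * 2 ^ s * (2 * G + 3) + 1) D E Xn Xp
      (Fin q → (Fin s → Bool) × (Fin t → Bool)) T hDis hDich (stz_card q s t) F hF1 a b g hb hgood
    have h4 : ((univ : Finset (Fin K × Xp)).filter fun z =>
        ¬ ∃ p, F p (T.inp a (setP b g z.1 z.2)) = true) = BadP := by
      rw [hBadP]
      refine filter_congr fun z _ => ?_
      rw [hF2 _ (hP z)]
    rw [h4] at hbl
    have h5 : (D : ℝ) * BadP.card ≤ (K + D * (3 * (q * (s + t)) + 3)) * Fintype.card Xp := by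
      exact_mod_cast hbl
    have h6 : (BadP.card : ℝ) / (K * Fintype.card Xp) ≤
        1 / D + (3 * (q * (s + t)) + 3) / K := by
      rw [div_add_div _ _ hDR.ne' hKR.ne', div_le_div_iff₀ (mul_pos hKR hXpR) (mul_pos hDR hKR)]
      have h7 := mul_le_mul_of_nonneg_right h5 hKR.le
      calc (BadP.card : ℝ) * (D * K) = D * BadP.card * K := by ring
        _ ≤ (K + D * (3 * (q * (s + t)) + 3)) * Fintype.card Xp * K := h7
        _ = (1 * K + D * (3 * (q * (s + t)) + 3)) * (K * Fintype.card Xp) := by ring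
    have h8 : (0 : ℝ) ≤ 4 * (BadN.card : ℝ) / (Fintype.card Xn : ℝ) ^ K := by positivity
    linarith

end Pool.Agent.NBC
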