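import Pool.Agent.NBC.Stmts

/-!
# Module TEL: the antidiagonal
-/

set_option autoImplicit false

namespace Pool.Agent.NBC

open Finset

theorem TEL_thm : Stmt_TEL := by
  intro J n P V hJ hV
  have hJ' : (0 : ℝ) < J := by exact_mod_cast hJ
  have h1 : ∀ i : Fin n, ∑ g ∈ range J, (V i g (J - g) - V i (g + 1) (J - 1 - g)) =
      V i 0 (J - 0) - V i J (J - J) := by
    intro i
    have h2 := Finset.sum_range_sub' (fun g => V i g (J - g)) J
    rw [← h2]
    refine Finset.sum_congr rfl fun g _ => ?_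
    have h3 : J - 1 - g = J - (g + 1) := by omega
    rw [h3]
  have h4 : ∑ g ∈ range J, ∑ i, (V i g (J - g) - V i (g + 1) (J - 1 - g)) ≤
      ∑ _g ∈ range J, (n * P / J : ℝ) := by
    rw [Finset.sum_comm, Finset.sum_const, Finset.card_range, nsmul_eq_mul]
    have h5 : (J : ℝ) * (n * P / J) = ∑ _i : Fin n, P := by
      rw [Finset.sum_const, Finset.card_univ, Fintype.card_fin, nsmul_eq_mul]
      field_simp
    rw [h5]
    refine Finset.sum_le_sum fun i _ => ?_
    rw [h1 i]
    have h6 := (hV i 0 (J - 0)).2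
    have h7 := (hV i J (J - J)).1
    linarith
  obtain ⟨g, hg, h8⟩ := Finset.exists_le_of_sum_le (Finset.nonempty_range_iff.2 hJ.ne') h4
  exact ⟨g, Finset.mem_range.1 hg, h8⟩

end Pool.Agent.NBC
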