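import Pool.Agent.NBC.Main
import Pool.Agent.NBC.MNT
import Pool.Agent.NBC.POT
import Pool.Agent.NBC.PRG
import Pool.Agent.NBC.DUA
import Pool.Agent.NBC.BLD
import Pool.Agent.NBC.STZ
import Pool.Agent.NBC.STX
import Pool.Agent.NBC.CFS
import Pool.Agent.NBC.RES
import Pool.Agent.NBC.STP
import Pool.Agent.NBC.TEL
import Pool.Agent.NBC.GAM
import Pool.Agent.NBC.CONN
import Pool.Agent.NBC.CNT
import Pool.Agent.NBC.DIC
import Pool.Agent.NBC.NUM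

/-!
# The lower bound for Boolean combinations of circuits in both modes
-/

set_option autoImplicit false

namespace Pool.Agent.NBC

open Finset Pool.Agent.NegLim Pool.Agent.NLM

theorem lower_mixed :
    ∀ ε : ℝ, 0 < ε → ε ≤ 1 → ∃ v₀ : ℕ, ∀ v ≥ v₀, ∀ (k N q s t r G : ℕ) (mo : Fin q → Bool)
      (C : Fin q → NCirc (Edge v ⊕ Edge v) s t) (D : (Fin q → Prop) → Prop),
      k = ⌊(v : ℝ) ^ (ε / 32)⌋₊ → N = v * (v - 1) / 2 → 1 ≤ q →
      (∀ i, (C i).NotsFree ∧ (C i).nots ≤ r ∧ (C i).gates.length ≤ G) →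
      (∀ z, More v k z ↔ D fun i => Ans (mo i) (C i) z) →
      ((q ^ 5 * 2 ^ (s + r) * (t + 1) : ℕ) : ℝ) ≤ (N : ℝ) ^ (1 - ε) →
      (2 : ℝ) ^ ((N : ℝ) ^ (ε / 200)) ≤ G :=
  lower_of MNT_thm POT_thm PRG_thm DUA_thm BLD_thm STZ_thm STX_thm CFS_thm RES_thm STP_thm TEL_thm
    GAM_thm CON_thm CNT_thm DIC_thm NUM_thm

end Pool.Agent.NBC
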