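import Pool.Agent.NBC.Stmts

/-!
# The assembly: PP is outside the Boolean closure of NP and coNP for circuits with few negations
-/

set_option autoImplicit false

namespace Pool.Agent.NBC

open Finset Pool.Agent.NegLim Pool.Agent.NLM

variable {E Xn Xp : Type} {M K : ℕ}

theorem fin_xin (T : Tests (Fin M × Fin K) E Xn Xp) {a a' : Fin M × Fin K → St Xn Xp}
    (h : Sub a a') (e : E) (he : T.xin a e = true) : T.xin a' e = true := by
  simp only [Tests.xin, decide_eq_true_eq] at he ⊢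
  obtain ⟨j, h1, h2⟩ := he
  refine ⟨j, h1, ?_⟩
  rcases h j with h3 | h3
  · rw [h3] at h2
    exact absurd h2 (by simp [Tests.val])
  · rw [← h3]
    exact h2

theorem fin_inp1 (T : Tests (Fin M × Fin K) E Xn Xp) {a a' : Fin M × Fin K → St Xn Xp}
    (b : Fin M × Fin K → St Xn Xp) (h : Sub a a') (e : E ⊕ E) (he : T.inp a b e = true) :
    T.inp a' b e = true := by
  cases e with
  | inl e => exact fin_xin T h e he
  | inr e => exact he

theorem fin_inp2 (T : Tests (Fin M × Fin K) E Xn Xp) {b b' : Fin M × Fin K → St Xn Xp}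
    (a : Fin M × Fin K → St Xn Xp) (h : Sub b b') (e : E ⊕ E) (he : T.inp a b' e = true) :
    T.inp a b e = true := by
  cases e with
  | inl e => exact he
  | inr e =>
    show (!(T.xin b e)) = true
    have h1 : (!(T.xin b' e)) = true := he
    rw [Bool.not_eq_true'] at h1 ⊢
    by_contra h2
    rw [Bool.not_eq_false] at h2
    rw [fin_xin T h e h2] at h1
    cases h1

theorem fin_fill (a : Fin M × Fin K → St Xn Xp) (g : Fin M) (hg : ∀ i, a (g, i) = St.emp)
    (χ : Fin K → Xn) : Sub a (fillN a g χ) := by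
  intro w
  unfold fillN
  by_cases h : w.1 = g
  · left
    have h1 := hg w.2
    rw [← h] at h1
    exact h1
  · right
    rw [if_neg h]

/-- **The lower bound for Boolean combinations of circuits in both modes.** -/
theorem lower_of (hMNT : Stmt_MNT) (hPOT : Stmt_POT) (hPRG : Stmt_PRG) (hDUA : Stmt_DUA)
    (hBLD : Stmt_BLD) (hSTZ : Stmt_STZ) (hSTX : Stmt_STX) (hCFS : Stmt_CFS) (hRES : Stmt_RES)
    (hSTP : Stmt_STP) (hTEL : Stmt_TEL) (hGAM : Stmt_GAM) (hCON : Stmt_CON) (hCNT : Stmt_CNT)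
    (hDIC : Stmt_DIC) (hNUM : Stmt_NUM) :
    ∀ ε : ℝ, 0 < ε → ε ≤ 1 → ∃ v₀ : ℕ, ∀ v ≥ v₀, ∀ (k N q s t r G : ℕ) (mo : Fin q → Bool)
      (C : Fin q → NCirc (Edge v ⊕ Edge v) s t) (D : (Fin q → Prop) → Prop),
      k = ⌊(v : ℝ) ^ (ε / 32)⌋₊ → N = v * (v - 1) / 2 → 1 ≤ q →
      (∀ i, (C i).NotsFree ∧ (C i).nots ≤ r ∧ (C i).gates.length ≤ G) →
      (∀ z, More v k z ↔ D fun i => Ans (mo i) (C i) z) →
      ((q ^ 5 * 2 ^ (s + r) * (t + 1) : ℕ) : ℝ) ≤ (N : ℝ) ^ (1 - ε) →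
      (2 : ℝ) ^ ((N : ℝ) ^ (ε / 200)) ≤ G := by
  classical
  intro ε hε hε1
  obtain ⟨v₀, hv₀⟩ := hNUM ε hε hε1
  refine ⟨v₀, fun v hv k N q s t r G mo C D hk hN hq hC hF hb => ?_⟩
  by_contra hlt
  rw [not_le] at hlt
  obtain ⟨h, p, b, D', J, K, Q, A, hk2, hh, hhk, hp, hpb, hb0, hD0, hJ0, hK0, hs1, hs2, hs3, hJ,
    hδ, hA, hw, hQb, hm⟩ := hv₀ v hv k N q s t r G hk hN hq hb hlt
  -- the windows
  obtain ⟨φ, hφi, hφm⟩ : ∃ φ : Fin (J + (q + 1)) × Fin K → ℕ × ℕ, Function.Injective φ ∧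
      ∀ w, φ w ∈ Finset.range Q ×ˢ A := by
    have hc : Fintype.card (Fin (J + (q + 1)) × Fin K) ≤
        Fintype.card (Finset.range Q ×ˢ A : Finset (ℕ × ℕ)) := by
      rw [Fintype.card_prod, Fintype.card_fin, Fintype.card_fin, Fintype.card_coe, card_product,
        card_range]
      exact hm
    obtain ⟨f⟩ := Function.Embedding.nonempty_of_card_le hc
    exact ⟨fun w => (f w).1, fun w w' h => f.injective (Subtype.ext h), fun w => (f w).2⟩
  have hφ : ∀ w, ∀ i < k, (φ w).1 + i * (φ w).2 < 2 * Q := fun w i hi => hw _ (hφm w) i hi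
  obtain ⟨hdis, hmore⟩ := hCNT v k Q b (J + (q + 1)) K hQb A φ hφ hk2 hb0 hA hφi hφm
  have hdich := hDIC v k Q b (q * 2 ^ s * (2 * G + 3) + 1) D' h p hQb
    (Fin (J + (q + 1)) × Fin K) φ hφ hh hhk hp hpb hD0 hs1 hs2 hs3
  set T := winT hQb φ hφ with hT
  haveI : Nonempty (Fin k × Fin b → Fin (k - 1)) := ⟨fun _ => ⟨0, by omega⟩⟩
  haveI : Nonempty (Fin k → Fin b) := ⟨fun _ => ⟨0, hb0⟩⟩
  have hfree := fun i => (hC i).1
  have hnots := fun i => (hC i).2.1
  have hlen := fun i => (hC i).2.2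
  obtain ⟨hP, hmon⟩ := hPOT (Edge v ⊕ Edge v) q s t r mo C hfree hnots
  have hstepZ := hSTZ hMNT hPRG hBLD
  have hX := hSTX hDUA hstepZ (J + (q + 1)) K q s t G D' (Edge v) _ _ T mo C hdis hdich hfree hlen
    hK0 hD0
  have hZ := hstepZ (J + (q + 1)) K q s t G D' (Edge v) _ _ T mo C hdis hdich hfree hlen hK0 hD0
  set δ : ℝ := 1 / D' + (3 * (q * (s + t)) + 3) / K with hδdef
  have hδ0 : 0 ≤ δ := by positivity
  obtain ⟨a, c, hac, hstep⟩ := hGAM hCFS hSTP hRES hTEL (J + (q + 1)) K (q + 1) J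
    (q * 2 ^ (s + r + 1)) _ _ δ (fun a c => Pot mo C (T.inp a c))
    (fun a c a' => Keep false mo C (T.inp a c) (T.inp a' c))
    (fun a c c' => Keep true mo C (T.inp a c) (T.inp a c')) rfl hK0 hJ0
    (fun a c => hP _) (fun a a' c h => (hmon _ _ (fin_inp1 T c h)).1)
    (fun a c c' h => (hmon _ _ (fin_inp2 T a h)).1)
    (by
      intro a c g hg
      refine (hX a c g hg).trans ?_
      have h1 : ((univ : Finset (Fin K → Fin k × Fin b → Fin (k - 1))).filter fun χ =>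
          ¬ Same mo C (T.inp a c) (T.inp (fillN a g χ) c)).card ≤
          ((univ : Finset (Fin K → Fin k × Fin b → Fin (k - 1))).filter fun χ =>
          Pot mo C (T.inp (fillN a g χ) c) ≠ Pot mo C (T.inp a c)).card := by
        apply Finset.card_le_card
        intro χ hχ
        rw [mem_filter] at hχ ⊢
        refine ⟨hχ.1, fun heq => hχ.2 ?_⟩
        exact (hmon _ _ (fin_inp1 T c (fin_fill a g hg χ))).2 heq
      gcongr)
    (by
      intro a c g hg
      refine (hZ a c g hg).trans ?_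
      have h1 : ((univ : Finset (Fin K → Fin k × Fin b → Fin (k - 1))).filter fun χ =>
          ¬ Same mo C (T.inp a c) (T.inp a (fillN c g χ))).card ≤
          ((univ : Finset (Fin K → Fin k × Fin b → Fin (k - 1))).filter fun χ =>
          Pot mo C (T.inp a (fillN c g χ)) ≠ Pot mo C (T.inp a c)).card := by
        apply Finset.card_le_card
        intro χ hχ
        rw [mem_filter] at hχ ⊢
        refine ⟨hχ.1, fun heq => hχ.2 ?_⟩
        have h2 := (hmon _ _ (fin_inp2 T a (fin_fill c g hg χ))).2 heq.symm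
        intro i
        exact ⟨fun u n hn => ((h2 i).1 u n hn).symm, fun u => ((h2 i).2 u).symm⟩
      gcongr) hδ0 hJ (by exact_mod_cast hδ)
  have hlast := hCON hMNT (J + (q + 1)) K (q + 1) q s t (Edge v) _ _ T mo C D (More v k) hfree hF
    hmore a c hac (fun l hl => ⟨(hstep l hl).1, (hstep l hl).2.2.1, (hstep l hl).2.2.2⟩)
  omega

end Pool.Agent.NBC
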