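import Pool.Agent.NBC.Stmts
import Pool.Agent.NEG72.WinU

/-!
# The parameters
-/

set_option autoImplicit false

namespace Pool.Agent.NBC

open Finset Pool.Agent.NegLim Pool.Agent.NLM

/-- The conditions on `v`. -/
theorem num_ev (ε : ℝ) (hε : 0 < ε) : ∃ v₀ : ℕ, ∀ v ≥ v₀, (100 : ℝ) ≤ (v : ℝ) ^ (ε / 1600) ∧
    Real.log v ≤ 1 / 2 * (v : ℝ) ^ (ε / 1600) ∧
    Real.exp (4 * √(Real.log (v : ℝ))) ≤ (v : ℝ) ^ (ε / 1600) ∧ 2 ≤ v := by
  have h1 : Filter.Tendsto (fun v : ℕ => (v : ℝ) ^ (ε / 1600)) Filter.atTop Filter.atTop :=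
    (tendsto_rpow_atTop (by positivity)).comp tendsto_natCast_atTop_atTop
  have h2 : ∀ᶠ v : ℕ in Filter.atTop, ‖Real.log (v : ℝ)‖ ≤ 1 / 2 * ‖(v : ℝ) ^ (ε / 1600)‖ :=
    tendsto_natCast_atTop_atTop.eventually
      ((isLittleO_log_rpow_atTop (by positivity : 0 < ε / 1600)).bound
        (by norm_num : (0 : ℝ) < 1 / 2))
  have h3 : Filter.Tendsto (fun v : ℕ => Real.log (v : ℝ)) Filter.atTop Filter.atTop :=
    Real.tendsto_log_atTop.comp tendsto_natCast_atTop_atTop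
  obtain ⟨v₀, hv₀⟩ := Filter.eventually_atTop.1 ((h1.eventually_ge_atTop 100).and (h2.and
    ((h3.eventually_ge_atTop ((6400 / ε) ^ 2)).and (Filter.eventually_ge_atTop 2))))
  refine ⟨v₀, fun v hv => ?_⟩
  obtain ⟨g1, g2, g3, g4⟩ := hv₀ v hv
  have hv1 : (1 : ℝ) ≤ v := by exact_mod_cast (by omega : 1 ≤ v)
  have hv0 : (0 : ℝ) < v := by linarith
  have hl0 : 0 ≤ Real.log v := Real.log_nonneg hv1
  refine ⟨g1, ?_, ?_, g4⟩
  · rwa [Real.norm_of_nonneg hl0, Real.norm_of_nonneg (by positivity)] at g2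
  · rw [Real.rpow_def_of_pos hv0]
    apply Real.exp_le_exp.2
    have h5 : 6400 / ε ≤ √(Real.log v) := Real.le_sqrt_of_sq_le g3
    have h6 : √(Real.log v) * √(Real.log v) = Real.log v := Real.mul_self_sqrt hl0
    have h7 : 6400 ≤ √(Real.log v) * ε := by rwa [div_le_iff₀ hε] at h5
    have h8 : 0 ≤ √(Real.log v) := Real.sqrt_nonneg _
    have h9 : √(Real.log v) * 6400 ≤ √(Real.log v) * (√(Real.log v) * ε) :=
      mul_le_mul_of_nonneg_left h7 h8
    have h10 : √(Real.log v) * (√(Real.log v) * ε) = Real.log v * ε := by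
      rw [← mul_assoc, h6]
    rw [h10] at h9
    have h11 : Real.log v * (ε / 1600) = Real.log v * ε / 1600 := by ring
    rw [h11, le_div_iff₀ (by norm_num)]
    linarith

/-- The size of the monotone program is a small power of two. -/
theorem num_S {v q s G c g : ℕ} (hq : q * 2 ^ s ≤ v ^ 2) (hv : v ≤ 2 ^ c) (hv1 : 1 ≤ v)
    (hG : G ≤ 2 ^ g) : q * 2 ^ s * (2 * G + 3) + 1 ≤ 2 ^ (2 * c + g + 3) := by
  have h1 : 1 ≤ 2 ^ g := Nat.one_le_two_pow
  calc q * 2 ^ s * (2 * G + 3) + 1 ≤ v ^ 2 * (2 * G + 3) + v ^ 2 :=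
        Nat.add_le_add (Nat.mul_le_mul_right _ hq) (Nat.one_le_pow _ _ hv1)
    _ = v ^ 2 * (2 * G + 4) := by ring
    _ ≤ (2 ^ c) ^ 2 * (8 * 2 ^ g) := by
        apply Nat.mul_le_mul (Nat.pow_le_pow_left hv 2)
        omega
    _ = 2 ^ (2 * c + g + 3) := by
        rw [pow_add, pow_add, ← pow_mul, mul_comm c 2]
        ring

/-- The parameters, with powers of one real number `y`. -/
theorem num_core {y E : ℝ} {v k q s t r G c g : ℕ} (hy : 100 ≤ y) (hyv : y ^ 100 ≤ v)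
    (hk1 : (k : ℝ) ≤ y ^ 50) (hk2 : y ^ 50 < k + 1) (hq : 1 ≤ q)
    (hmain : (q : ℝ) ^ 5 * 2 ^ (s + r) * (t + 1) * y ^ 3200 ≤ (v : ℝ) ^ 2)
    (hc : v ≤ 2 ^ c) (hcy : (c : ℝ) ≤ y + 1) (hG : G ≤ 2 ^ g) (hgy : (g : ℝ) ≤ y ^ 16 + 1)
    (hE0 : 0 < E) (hE : E ≤ y)
    (hwin : ∀ b : ℕ, 0 < b → 0 < k → 2 * k * b * k ≤ v → ∃ (Q : ℕ) (D : Finset ℕ),
      ThreeAPFree (D : Set ℕ) ∧ (∀ w ∈ Finset.range Q ×ˢ D, ∀ i < k, w.1 + i * w.2 < 2 * Q) ∧
        k * (2 * Q) * b ≤ v ∧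
        (v : ℝ) ^ 2 ≤ 32 * ((k : ℝ) ^ 3 * (b : ℝ) ^ 2) * E * ((Q * D.card : ℕ) : ℝ)) :
    ∃ (h p b D J K Q : ℕ) (A : Finset ℕ), 2 ≤ k ∧ 1 ≤ h ∧ 2 * h * (2 * h - 1) ≤ k - 1 ∧ 2 ≤ p ∧
      4 * (p * (2 * h)) ≤ b ∧ 0 < b ∧ 0 < D ∧ 0 < J ∧ 0 < K ∧
      2 * D * (q * 2 ^ s * (2 * G + 3) + 1) ≤ 2 ^ (2 * h) ∧ 4 * D * (2 * h * p) ^ 2 ≤ b ^ 2 ∧
      16 * (q * 2 ^ s * (2 * G + 3) + 1) * (p * (2 * h)) ^ (4 * h) ≤ 3 * 2 ^ p ∧
      16 * (q + 1) * (q * 2 ^ (s + r + 1)) ≤ J ∧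
      4 * (((q + 1 : ℕ) : ℝ) * (1 / D + (3 * (q * (s + t)) + 3) / K)) < 1 ∧
      ThreeAPFree (A : Set ℕ) ∧
      (∀ w ∈ Finset.range Q ×ˢ A, ∀ i < k, w.1 + i * w.2 < 2 * Q) ∧ k * (2 * Q) * b ≤ v ∧
      (J + (q + 1)) * K ≤ Q * A.card := by
  have hy0 : (0 : ℝ) < y := by linarith
  have hy1 : (1 : ℝ) ≤ y := by linarith
  have hq1 : (1 : ℝ) ≤ q := by exact_mod_cast hq
  have hy2 : (100 : ℝ) ≤ y ^ 2 := hy.trans (le_self_pow₀ hy1 (by norm_num))
  have hy16 : (100 : ℝ) ≤ y ^ 16 := hy.trans (le_self_pow₀ hy1 (by norm_num))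
  have hy25 : y ^ 25 = y ^ 16 * y ^ 9 := by ring
  have hy9 : (100 : ℝ) ≤ y ^ 9 := hy.trans (le_self_pow₀ hy1 (by norm_num))
  have hyy16 : y ≤ y ^ 16 := le_self_pow₀ hy1 (by norm_num)
  have hy25' : 100 * y ^ 16 ≤ y ^ 25 := by
    rw [hy25, mul_comm]
    exact mul_le_mul_of_nonneg_left hy9 (by positivity)
  have hy50 : y ^ 50 = y ^ 25 * y ^ 25 := by ring
  have hy25b : (100 : ℝ) ≤ y ^ 25 := hy.trans (le_self_pow₀ hy1 (by norm_num))
  have hy50' : 100 * y ^ 25 ≤ y ^ 50 := by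
    rw [hy50]
    exact mul_le_mul_of_nonneg_right hy25b (by positivity)
  -- the data
  set h : ℕ := ⌊y ^ 25 / 3⌋₊ with hh
  have hh1 : (h : ℝ) ≤ y ^ 25 / 3 := Nat.floor_le (by positivity)
  have hh2 : y ^ 25 / 3 < h + 1 := Nat.lt_floor_add_one _
  set p : ℕ := ⌈y ^ 50⌉₊ with hp
  have hp1 : y ^ 50 ≤ p := Nat.le_ceil _
  have hp2 : (p : ℝ) < y ^ 50 + 1 := Nat.ceil_lt_add_one (by positivity)
  have hp3 : (p : ℝ) ≤ 2 * y ^ 50 := by linarith
  set l : ℕ := Nat.sqrt (q + 1) + 1 with hl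
  have hl1 : q + 1 ≤ l ^ 2 := by
    have := Nat.lt_succ_sqrt (q + 1)
    rw [sq]
    exact this.le
  have hl2 : l ^ 2 ≤ 8 * q := by
    have e1 : Nat.sqrt (q + 1) * Nat.sqrt (q + 1) ≤ q + 1 := Nat.sqrt_le _
    have e2 : 1 ≤ Nat.sqrt (q + 1) := by
      rw [Nat.le_sqrt]
      omega
    calc l ^ 2 ≤ (2 * Nat.sqrt (q + 1)) ^ 2 := Nat.pow_le_pow_left (by omega) 2
      _ = 4 * (Nat.sqrt (q + 1) * Nat.sqrt (q + 1)) := by ring
      _ ≤ 4 * (q + 1) := Nat.mul_le_mul_left _ e1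
      _ ≤ 8 * q := by omega
  have hl0 : 0 < l := Nat.succ_pos _
  set b : ℕ := 24 * l * h * p with hb
  have hh0 : 1 ≤ h := by
    apply Nat.le_floor
    push_cast
    linarith
  have hp0 : 2 ≤ p := by
    have e1 : (2 : ℝ) ≤ p := by linarith
    exact_mod_cast e1
  have hb0 : 0 < b := by
    rw [hb]
    positivity
  have hk0 : 2 ≤ k := by
    have e1 : (2 : ℝ) < k := by linarith
    have e2 : 2 < k := by exact_mod_cast e1
    omega
  -- the main inequality and its consequences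
  set T : ℝ := (q : ℝ) ^ 5 * 2 ^ (s + r) * (t + 1) with hT
  have hT0 : 0 < T := by
    rw [hT]
    positivity
  have hTv : T ≤ (v : ℝ) ^ 2 := by
    refine le_trans ?_ hmain
    exact le_mul_of_one_le_right hT0.le (one_le_pow₀ hy1)
  have hv1 : 1 ≤ v := by
    rcases Nat.eq_zero_or_pos v with h0 | h0
    · rw [h0] at hTv
      simp at hTv
      linarith
    · exact h0
  have h2r : (1 : ℝ) ≤ 2 ^ r := one_le_pow₀ (by norm_num)
  have h2s : (1 : ℝ) ≤ 2 ^ s := one_le_pow₀ (by norm_num)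
  have ht1 : (1 : ℝ) ≤ (t : ℝ) + 1 := by
    have : (0 : ℝ) ≤ (t : ℝ) := by positivity
    linarith
  have hqsT : (q : ℝ) * 2 ^ s ≤ T := by
    rw [hT]
    calc (q : ℝ) * 2 ^ s ≤ (q : ℝ) ^ 5 * 2 ^ s := by
          apply mul_le_mul_of_nonneg_right _ (by positivity)
          exact le_self_pow₀ hq1 (by norm_num)
      _ ≤ (q : ℝ) ^ 5 * 2 ^ (s + r) := by
          rw [pow_add]
          apply mul_le_mul_of_nonneg_left _ (by positivity)
          exact le_mul_of_one_le_right (by positivity) h2r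
      _ ≤ (q : ℝ) ^ 5 * 2 ^ (s + r) * (t + 1) := le_mul_of_one_le_right (by positivity) ht1
  have hqT : (q : ℝ) ≤ T := le_trans (le_mul_of_one_le_right (by positivity) h2s) hqsT
  have hqs : q * 2 ^ s ≤ v ^ 2 := by
    have : (((q * 2 ^ s : ℕ)) : ℝ) ≤ ((v ^ 2 : ℕ) : ℝ) := by
      push_cast
      exact hqsT.trans hTv
    exact_mod_cast this
  have hqv : q ≤ v ^ 2 := by
    calc q = q * 1 := (mul_one q).symm
      _ ≤ q * 2 ^ s := Nat.mul_le_mul_left _ Nat.one_le_two_pow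
      _ ≤ v ^ 2 := hqs
  have hs : (s : ℝ) + 1 ≤ y ^ 2 := by
    have e1 : 2 ^ s ≤ 2 ^ (2 * c) := by
      calc 2 ^ s = 1 * 2 ^ s := (one_mul _).symm
        _ ≤ q * 2 ^ s := Nat.mul_le_mul_right _ hq
        _ ≤ v ^ 2 := hqs
        _ ≤ (2 ^ c) ^ 2 := Nat.pow_le_pow_left hc 2
        _ = 2 ^ (2 * c) := by rw [← pow_mul, mul_comm]
    have e2 : s ≤ 2 * c := (Nat.pow_le_pow_iff_right (by norm_num)).1 e1
    have e3 : (s : ℝ) ≤ ((2 * c : ℕ) : ℝ) := by exact_mod_cast e2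
    push_cast at e3
    nlinarith
  -- the bound of `b`
  have hb2 : (b : ℝ) ^ 2 ≤ 2048 * q * y ^ 150 := by
    have e1 : (l : ℝ) ^ 2 ≤ 8 * q := by exact_mod_cast hl2
    have e2 : (h : ℝ) ^ 2 ≤ (y ^ 25 / 3) ^ 2 := pow_le_pow_left₀ (by positivity) hh1 2
    have e3 : (p : ℝ) ^ 2 ≤ (2 * y ^ 50) ^ 2 := pow_le_pow_left₀ (by positivity) hp3 2
    calc (b : ℝ) ^ 2 = 576 * ((l : ℝ) ^ 2 * ((h : ℝ) ^ 2 * (p : ℝ) ^ 2)) := by
          rw [hb]
          push_cast
          ring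
      _ ≤ 576 * ((8 * q) * ((y ^ 25 / 3) ^ 2 * (2 * y ^ 50) ^ 2)) := by gcongr
      _ = 2048 * q * y ^ 150 := by ring
  have hkb : 2 * k * b * k ≤ v := by
    have e1 : ((2 * k * b * k : ℕ) : ℝ) ^ 2 ≤ (v : ℝ) ^ 2 := by
      calc ((2 * k * b * k : ℕ) : ℝ) ^ 2 = 4 * ((k : ℝ) ^ 4 * (b : ℝ) ^ 2) := by
            push_cast
            ring
        _ ≤ 4 * ((y ^ 50) ^ 4 * (2048 * q * y ^ 150)) := by gcongr
        _ = 8192 * y ^ 350 * q := by ring
        _ ≤ y ^ 3200 * T := by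
            have e2 : (8192 : ℝ) * y ^ 350 ≤ y ^ 3200 := by
              have e3 : (8192 : ℝ) ≤ y ^ 2 := by nlinarith
              calc (8192 : ℝ) * y ^ 350 ≤ y ^ 2 * y ^ 350 :=
                    mul_le_mul_of_nonneg_right e3 (by positivity)
                _ = y ^ 352 := by rw [← pow_add]
                _ ≤ y ^ 3200 := pow_le_pow_right₀ hy1 (by norm_num)
            exact mul_le_mul e2 hqT (by positivity) (by positivity)
        _ = T * y ^ 3200 := mul_comm _ _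
        _ ≤ (v : ℝ) ^ 2 := hmain
    have e2 := (pow_le_pow_iff_left₀ (by positivity) (by positivity) (by norm_num)).1 e1
    exact_mod_cast e2
  obtain ⟨Q, A, hA, hw, hQ, hcard⟩ := hwin b hb0 (by omega) hkb
  refine ⟨h, p, b, 32 * (q + 1), 32 * q * (q + 1) * 2 ^ (s + r), 48 * (q + 1) * (q * (s + t) + 1),
    Q, A, hk0, hh0, ?_, hp0, ?_, hb0, by positivity, by positivity, by positivity, ?_, ?_, ?_, ?_,
    ?_, hA, hw, hQ, ?_⟩
  · -- `h` and `k`
    have e1 : (2 * (h : ℝ)) * (2 * h) + 1 ≤ k := by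
      have e2 : 2 * (h : ℝ) ≤ 2 * (y ^ 25 / 3) := by linarith
      have e3 : (2 * (h : ℝ)) * (2 * h) ≤ (2 * (y ^ 25 / 3)) * (2 * (y ^ 25 / 3)) := by gcongr
      have e4 : (2 * (y ^ 25 / 3)) * (2 * (y ^ 25 / 3)) = 4 / 9 * y ^ 50 := by ring
      linarith
    have e2 : 2 * h * (2 * h) + 1 ≤ k := by exact_mod_cast e1
    have e3 : 2 * h * (2 * h - 1) ≤ 2 * h * (2 * h) := Nat.mul_le_mul_left _ (Nat.sub_le _ _)
    omega
  · -- `b`
    calc 4 * (p * (2 * h)) = 8 * 1 * h * p := by ring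
      _ ≤ 24 * l * h * p := by
        apply Nat.mul_le_mul_right
        apply Nat.mul_le_mul_right
        exact Nat.mul_le_mul (by norm_num) hl0
  · -- the size against `h`
    have e1 := num_S hqs hc hv1 hG
    have e2 : 32 * (q + 1) ≤ 2 ^ (2 * c + 6) := by
      calc 32 * (q + 1) ≤ 64 * q := by omega
        _ ≤ 64 * (2 ^ c) ^ 2 := Nat.mul_le_mul_left _ (hqv.trans (Nat.pow_le_pow_left hc 2))
        _ = 2 ^ (2 * c + 6) := by
          rw [pow_add, ← pow_mul, mul_comm c 2]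
          ring
    calc 2 * (32 * (q + 1)) * (q * 2 ^ s * (2 * G + 3) + 1)
        ≤ 2 * 2 ^ (2 * c + 6) * 2 ^ (2 * c + g + 3) :=
          Nat.mul_le_mul (Nat.mul_le_mul_left _ e2) e1
      _ = 2 ^ (4 * c + g + 10) := by
          have : 4 * c + g + 10 = 1 + (2 * c + 6) + (2 * c + g + 3) := by ring
          rw [this, pow_add 2 (1 + (2 * c + 6)), pow_add 2 1, pow_one]
      _ ≤ 2 ^ (2 * h) := by
          apply Nat.pow_le_pow_right (by norm_num)
          have e3 : ((4 * c + g + 10 : ℕ) : ℝ) ≤ ((2 * h : ℕ) : ℝ) := by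
            push_cast
            linarith
          exact_mod_cast e3
  · -- `D` and `b`
    calc 4 * (32 * (q + 1)) * (2 * h * p) ^ 2 = (q + 1) * (512 * (h * p) ^ 2) := by ring
      _ ≤ l ^ 2 * (576 * (h * p) ^ 2) :=
          Nat.mul_le_mul hl1 (Nat.mul_le_mul_right _ (by norm_num))
      _ = b ^ 2 := by
          rw [hb]
          ring
  · -- the size against `p`
    have e1 := num_S hqs hc hv1 hG
    have e2 : p * (2 * h) ≤ 2 ^ c := by
      refine le_trans ?_ hc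
      have e3 : ((p * (2 * h) : ℕ) : ℝ) ≤ v := by
        refine le_trans ?_ hyv
        push_cast
        calc (p : ℝ) * (2 * h) ≤ (2 * y ^ 50) * (2 * (y ^ 25 / 3)) := by gcongr
          _ = 4 / 3 * y ^ 75 := by ring
          _ ≤ y ^ 25 * y ^ 75 := by
            apply mul_le_mul_of_nonneg_right _ (by positivity)
            linarith
          _ = y ^ 100 := by ring
      exact_mod_cast e3
    calc 16 * (q * 2 ^ s * (2 * G + 3) + 1) * (p * (2 * h)) ^ (4 * h)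
        ≤ 16 * 2 ^ (2 * c + g + 3) * (2 ^ c) ^ (4 * h) :=
          Nat.mul_le_mul (Nat.mul_le_mul_left _ e1) (Nat.pow_le_pow_left e2 _)
      _ = 2 ^ (2 * c + g + 7 + c * (4 * h)) := by
          have f1 : 16 * 2 ^ (2 * c + g + 3) = 2 ^ (2 * c + g + 7) := by
            rw [pow_add 2 (2 * c + g) 7, pow_add 2 (2 * c + g) 3]
            ring
          rw [pow_add 2 (2 * c + g + 7), ← pow_mul, f1]
      _ ≤ 2 ^ p := by
          apply Nat.pow_le_pow_right (by norm_num)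
          have e3 : ((2 * c + g + 7 + c * (4 * h) : ℕ) : ℝ) ≤ (p : ℝ) := by
            push_cast
            have e4 : (c : ℝ) * (4 * h) ≤ (y + 1) * (4 * (y ^ 25 / 3)) := by gcongr
            have e5 : (y + 1) * (4 * (y ^ 25 / 3)) ≤ 2 * y * (2 * y ^ 25) := by
              apply mul_le_mul _ _ (by positivity) (by positivity)
              · linarith
              · linarith
            have e6 : 2 * y * (2 * y ^ 25) = 4 * y ^ 26 := by ring
            have e7 : y ^ 50 = y ^ 24 * y ^ 26 := by ring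
            have e8 : (100 : ℝ) ≤ y ^ 24 := hy.trans (le_self_pow₀ hy1 (by norm_num))
            have e9 : 100 * y ^ 26 ≤ y ^ 50 := by
              rw [e7]
              exact mul_le_mul_of_nonneg_right e8 (by positivity)
            have e10 : y ^ 16 ≤ y ^ 26 := pow_le_pow_right₀ hy1 (by norm_num)
            linarith
          exact_mod_cast e3
      _ ≤ 3 * 2 ^ p := Nat.le_mul_of_pos_left _ (by norm_num)
  · -- `J`
    apply le_of_eq
    rw [pow_succ 2 (s + r)]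
    ring
  · -- the error
    have e1 : (0 : ℝ) < (q : ℝ) + 1 := by positivity
    have e2 : (0 : ℝ) < (q : ℝ) * (s + t) + 1 := by positivity
    have e3 : ((q + 1 : ℕ) : ℝ) * (1 / ((32 * (q + 1) : ℕ) : ℝ) + (3 * (q * (s + t)) + 3) /
        ((48 * (q + 1) * (q * (s + t) + 1) : ℕ) : ℝ)) = 3 / 32 := by
      push_cast
      field_simp
      ring
    rw [e3]
    norm_num
  · -- the number of the windows
    have hk3 : (0 : ℝ) < k := by exact_mod_cast (by omega : 0 < k)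
    have hbr : (0 : ℝ) < b := by exact_mod_cast hb0
    have e0 : (0 : ℝ) < 32 * ((k : ℝ) ^ 3 * (b : ℝ) ^ 2) * E := by positivity
    have e1 : (((32 * q * (q + 1) * 2 ^ (s + r) + (q + 1)) * (48 * (q + 1) * (q * (s + t) + 1)) :
        ℕ) : ℝ) ≤ 6336 * ((q : ℝ) ^ 4 * 2 ^ (s + r) * (t + 1)) * (s + 1) := by
      have f1 : 32 * q * (q + 1) * 2 ^ (s + r) + (q + 1) ≤ 33 * (q * (q + 1) * 2 ^ (s + r)) := by
        have f2 : 1 ≤ q * 2 ^ (s + r) := Nat.mul_pos hq (by positivity)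
        calc 32 * q * (q + 1) * 2 ^ (s + r) + (q + 1)
            = 32 * (q * (q + 1) * 2 ^ (s + r)) + (q + 1) * 1 := by ring
          _ ≤ 32 * (q * (q + 1) * 2 ^ (s + r)) + (q + 1) * (q * 2 ^ (s + r)) :=
              Nat.add_le_add_left (Nat.mul_le_mul_left _ f2) _
          _ = 33 * (q * (q + 1) * 2 ^ (s + r)) := by ring
      have f2 : q * (s + t) + 1 ≤ q * ((s + 1) * (t + 1)) := by
        calc q * (s + t) + 1 ≤ q * (s + t) + q := Nat.add_le_add_left hq _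
          _ = q * (s + t + 1) := by ring
          _ ≤ q * ((s + 1) * (t + 1)) := by
            apply Nat.mul_le_mul_left
            have : (s + 1) * (t + 1) = s * t + (s + t + 1) := by ring
            omega
      have f3 : q + 1 ≤ 2 * q := by omega
      have f4 : (32 * q * (q + 1) * 2 ^ (s + r) + (q + 1)) * (48 * (q + 1) * (q * (s + t) + 1)) ≤
          6336 * (q ^ 4 * 2 ^ (s + r) * (t + 1)) * (s + 1) := by
        calc (32 * q * (q + 1) * 2 ^ (s + r) + (q + 1)) * (48 * (q + 1) * (q * (s + t) + 1))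
            ≤ (33 * (q * (2 * q) * 2 ^ (s + r))) * (48 * (2 * q) * (q * ((s + 1) * (t + 1)))) := by
              apply Nat.mul_le_mul
              · refine f1.trans ?_
                apply Nat.mul_le_mul_left
                apply Nat.mul_le_mul_right
                exact Nat.mul_le_mul_left _ f3
              · exact Nat.mul_le_mul (Nat.mul_le_mul_left _ f3) f2
          _ = 6336 * (q ^ 4 * 2 ^ (s + r) * (t + 1)) * (s + 1) := by ring
      exact_mod_cast f4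
    have e2 : (((32 * q * (q + 1) * 2 ^ (s + r) + (q + 1)) * (48 * (q + 1) * (q * (s + t) + 1)) :
        ℕ) : ℝ) * (32 * ((k : ℝ) ^ 3 * (b : ℝ) ^ 2) * E) ≤
        ((Q * A.card : ℕ) : ℝ) * (32 * ((k : ℝ) ^ 3 * (b : ℝ) ^ 2) * E) := by
      calc (((32 * q * (q + 1) * 2 ^ (s + r) + (q + 1)) * (48 * (q + 1) * (q * (s + t) + 1)) :
          ℕ) : ℝ) * (32 * ((k : ℝ) ^ 3 * (b : ℝ) ^ 2) * E)
          ≤ (6336 * ((q : ℝ) ^ 4 * 2 ^ (s + r) * (t + 1)) * (y ^ 2)) *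
            (32 * ((y ^ 50) ^ 3 * (2048 * q * y ^ 150)) * y) := by
            apply mul_le_mul _ _ e0.le (by positivity)
            · refine e1.trans ?_
              exact mul_le_mul_of_nonneg_left hs (by positivity)
            · gcongr
        _ = 415236096 * y ^ 303 * T := by
            rw [hT]
            ring
        _ ≤ y ^ 3200 * T := by
            apply mul_le_mul_of_nonneg_right _ hT0.le
            have f1 : (415236096 : ℝ) ≤ y ^ 5 := by
              calc (415236096 : ℝ) ≤ 100 ^ 5 := by norm_num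
                _ ≤ y ^ 5 := pow_le_pow_left₀ (by norm_num) hy 5
            calc (415236096 : ℝ) * y ^ 303 ≤ y ^ 5 * y ^ 303 :=
                  mul_le_mul_of_nonneg_right f1 (by positivity)
              _ = y ^ 308 := by rw [← pow_add]
              _ ≤ y ^ 3200 := pow_le_pow_right₀ hy1 (by norm_num)
        _ = T * y ^ 3200 := mul_comm _ _
        _ ≤ (v : ℝ) ^ 2 := hmain
        _ ≤ _ := hcard
        _ = _ := mul_comm _ _
    have e3 := le_of_mul_le_mul_right e2 e0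
    exact_mod_cast e3

/-- **The parameters.** -/
theorem NUM_thm : Stmt_NUM := by
  intro ε hε hε1
  obtain ⟨v₀, hv₀⟩ := num_ev ε hε
  refine ⟨v₀, fun v hv k N q s t r G hk hN hq hsr hG => ?_⟩
  obtain ⟨g1, g2, g3, g4⟩ := hv₀ v hv
  have hv1 : (1 : ℝ) ≤ v := by exact_mod_cast (by omega : 1 ≤ v)
  have hv0 : (0 : ℝ) < v := by linarith
  set y : ℝ := (v : ℝ) ^ (ε / 1600) with hydef
  have hy0 : (0 : ℝ) < y := by linarith
  have hpow : ∀ j : ℕ, (v : ℝ) ^ (j * ε / 1600) = y ^ j := by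
    intro j
    rw [hydef, ← Real.rpow_natCast, ← Real.rpow_mul hv0.le]
    congr 1
    ring
  have e50 : (v : ℝ) ^ (ε / 32) = y ^ 50 := by
    rw [← hpow 50]
    congr 1
    push_cast
    ring
  have hNv : (N : ℝ) ≤ (v : ℝ) ^ (2 : ℝ) := by
    have h3 : N ≤ v * v := by
      rw [hN]
      exact (Nat.div_le_self _ _).trans (Nat.mul_le_mul_left _ (Nat.sub_le _ _))
    calc (N : ℝ) ≤ ((v * v : ℕ) : ℝ) := by exact_mod_cast h3
      _ = (v : ℝ) ^ (2 : ℝ) := by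
        rw [Real.rpow_two, sq]
        push_cast
        rfl
  have hNe : (N : ℝ) ^ (1 - ε) ≤ (v : ℝ) ^ (2 - 2 * ε) := by
    calc (N : ℝ) ^ (1 - ε) ≤ ((v : ℝ) ^ (2 : ℝ)) ^ (1 - ε) :=
          Real.rpow_le_rpow (by positivity) hNv (by linarith)
      _ = _ := by
          rw [← Real.rpow_mul hv0.le]
          congr 1
          ring
  have hNy : (N : ℝ) ^ (ε / 200) ≤ y ^ 16 := by
    calc (N : ℝ) ^ (ε / 200) ≤ ((v : ℝ) ^ (2 : ℝ)) ^ (ε / 200) :=
          Real.rpow_le_rpow (by positivity) hNv (by positivity)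
      _ = y ^ 16 := by
          rw [← hpow 16, ← Real.rpow_mul hv0.le]
          congr 1
          push_cast
          ring
  have hyv : y ^ 100 ≤ (v : ℝ) := by
    rw [← hpow 100]
    calc (v : ℝ) ^ (((100 : ℕ) : ℝ) * ε / 1600) ≤ (v : ℝ) ^ (1 : ℝ) := by
          apply Real.rpow_le_rpow_of_exponent_le hv1
          push_cast
          linarith
      _ = v := Real.rpow_one _
  have hmain : (q : ℝ) ^ 5 * 2 ^ (s + r) * (t + 1) * y ^ 3200 ≤ (v : ℝ) ^ 2 := by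
    have h1 : (q : ℝ) ^ 5 * 2 ^ (s + r) * (t + 1) ≤ (v : ℝ) ^ (2 - 2 * ε) := by
      have h2 := hsr.trans hNe
      push_cast at h2
      exact h2
    calc (q : ℝ) ^ 5 * 2 ^ (s + r) * (t + 1) * y ^ 3200
        ≤ (v : ℝ) ^ (2 - 2 * ε) * y ^ 3200 := mul_le_mul_of_nonneg_right h1 (by positivity)
      _ = (v : ℝ) ^ (2 : ℝ) := by
          rw [← hpow 3200, ← Real.rpow_add hv0]
          congr 1
          push_cast
          ring
      _ = (v : ℝ) ^ 2 := Real.rpow_two _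
  have hclog : ((Nat.clog 2 v : ℕ) : ℝ) ≤ y + 1 := by
    have h7 : Nat.clog 2 v ≤ Nat.log 2 v + 1 := Nat.clog_le_of_le_pow
      (Nat.lt_pow_succ_log_self (by norm_num) v).le
    have h8 : ((Nat.log 2 v : ℕ) : ℝ) ≤ Real.logb 2 v := by
      have := Real.natLog_le_logb v 2
      exact_mod_cast this
    have h9 : ((Nat.clog 2 v : ℕ) : ℝ) ≤ ((Nat.log 2 v + 1 : ℕ) : ℝ) := by exact_mod_cast h7
    have h10 : Real.logb 2 v ≤ y := by
      rw [Real.logb, div_le_iff₀ (Real.log_pos (by norm_num))]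
      have h5 := Real.log_two_gt_d9
      nlinarith
    push_cast at h9
    linarith
  have hGg : G ≤ 2 ^ ⌈y ^ 16⌉₊ := by
    have h1 : (G : ℝ) ≤ ((2 ^ ⌈y ^ 16⌉₊ : ℕ) : ℝ) := by
      calc (G : ℝ) ≤ (2 : ℝ) ^ ((N : ℝ) ^ (ε / 200)) := hG.le
        _ ≤ (2 : ℝ) ^ ((⌈y ^ 16⌉₊ : ℕ) : ℝ) := by
            apply Real.rpow_le_rpow_of_exponent_le (by norm_num)
            exact hNy.trans (Nat.le_ceil _)
        _ = ((2 ^ ⌈y ^ 16⌉₊ : ℕ) : ℝ) := by
            rw [Real.rpow_natCast]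
            push_cast
            rfl
    exact_mod_cast h1
  refine num_core (y := y) (E := Real.exp (4 * √(Real.log (v : ℝ)))) (c := Nat.clog 2 v)
    (g := ⌈y ^ 16⌉₊) g1 hyv ?_ ?_ hq hmain (Nat.le_pow_clog (by norm_num) v) hclog hGg
    (Nat.ceil_lt_add_one (by positivity)).le (Real.exp_pos _) g3 ?_
  · rw [hk, ← e50]
    exact Nat.floor_le (by positivity)
  · rw [hk, ← e50]
    exact Nat.lt_floor_add_one _
  · intro b hb0 hk0 hKv
    exact Pool.Agent.NEG72.params_explicit hb0 hk0 hKv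

end Pool.Agent.NBC
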