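import Pool.Agent.NBC.Defs

/-!
# The statements of the modules of the project NBC (MP_153864_lc)

PP is outside the Boolean closure of NP and coNP for circuits with few negations. Module `NBC_X`: `theorem
Pool.Agent.NBC.X_thm : Stmt_X` in `Pool/Agent/NBC/X.lean`; a statement of the form `Stmt_A → …` may use
`Stmt_A` as a hypothesis. The whole proof is described in `Pool/Agent/NBC/PAPER.md`.
-/

set_option autoImplicit false

namespace Pool.Agent.NBC

open Finset Pool.Agent.NegLim Pool.Agent.NLM
open Pool.Agent.NEG72 (InWin tneg tpos)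

/-! ### circuits -/

/-- MNT (40 lines). If the NOT gates have the same outputs on `x ≤ x'` then the output grows, for all
witnesses. PROOF. Guesses `z = guess C x u` (`NegLim/Transfer.lean`). `Good z C.gates x u w` and
`Good z C.gates x' u w`: the outputs of the NOT gates do not depend on `w` (`NotsFree`), for `x'` use `SameN`
(compare `good_guess`). So `gvals z = vals` at `x` and at `x'` (`Good.gvals`), and `gvals_mono`,
`Wire.val_mono`. -/
def Stmt_MNT : Prop :=
  ∀ (E : Type) (s t : ℕ) (C : NCirc E s t), C.NotsFree → ∀ x x' : E → Bool,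
    (∀ e, x e = true → x' e = true) → SameN C x x' →
    ∀ u w, outp C x u w = true → outp C x' u w = true

/-- POT (120 lines). The potential. PROOF. For each `i`, `u`: `num ≤ 2 ^ r - 1` (`num_lt`), so the term is
at most `2 ^ (r + 1) - 1`, and there are `q * 2 ^ s` terms. Let `x ≤ x'`. By `num_le` the number at `x'` is
at most the number at `x`; if it is smaller the term drops by at least `1`; if it is equal then the NOT gates
have the same outputs for this `u` (`num_inj`), so as in MNT (for this `u`; `SameN` is only needed for the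
given `u`) `Bit` at `x` implies `Bit` at `x'` and the term does not grow, and if it is equal then `Bit` is
the same. If the sums are equal all terms are equal (`Finset.sum_eq_sum_iff_of_le` twice), which gives
`num` equal (a smaller `num` drops `2 * num` by `2`) and `Bit` equal. -/
def Stmt_POT : Prop :=
  ∀ (E : Type) (q s t r : ℕ) (mo : Fin q → Bool) (C : Fin q → NCirc E s t),
    (∀ i, (C i).NotsFree) → (∀ i, (C i).nots ≤ r) →
    (∀ x, Pot mo C x ≤ q * 2 ^ (s + r + 1)) ∧
    ∀ x x' : E → Bool, (∀ e, x e = true → x' e = true) →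
      Pot mo C x' ≤ Pot mo C x ∧ (Pot mo C x' = Pot mo C x → Same mo C x x')

/-- PRG (170 lines). The inputs below `R` on which the NOT gates do not change and the NP circuits which
accept `R` still accept, by a family of small monotone programs. PROOF. Compare
`Pool.Agent.NNDT.transfer_fam` (`NNDT/Tr.lean`). Let `z i u = guess (C i) R u`, and `Q i` = (`mo i = true` and
`Ans true (C i) R`). `F p y` = (for all `i`, `u`: `chkA (z i u) (C i).gates y u (fun _ => false)`) and (for
all `i` with `Q i`, with `(u, w) = p i`: `(C i).out.val y u w (gvals (z i u) (C i).gates y u w)`). Programs: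
`prog` (with `o = false`, substitution `id`) gives each of these functions with at most `G` gates, and a
conjunction of `n` functions of size `K` has size `n * (K + 1)` (the dual of `monSize_any`; write
`monSize_all`, over the list of all pairs `(i, u)` and over the list of all `i`); together at most
`q * 2 ^ s * (G + 1) + q * (G + 1) + 1`. If `F p y = true`: `keyA` (needs `y ≤ R` and `Good` at `R`,
`good_guess` with `fun _ => rfl`) gives `gvals = vals` at `(u, fun _ => false)`, and at a NOT gate `gvals` is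
the guess (`gvals_concat`), so `SameN`; then `Good (z i u) .. y u w` for all `w` by `NotsFree`, and the
second part gives `Ans` at `y`. Conversely `Keep` gives `Good` at `y` for all `u`, `w`, so `chkA_of_good`,
`Good.gvals`; choose `p i` = an accepting witness of `C i` at `y` if `Q i`. For `y ≤ R` with `SameN` the
answer `Ans true` at `y` implies `Ans true` at `R` (MNT, or `gvals_mono`), which is the other direction of
the equivalence in `Keep`. -/
def Stmt_PRG : Prop := Stmt_MNT →
  ∀ (E : Type) (q s t G : ℕ) (mo : Fin q → Bool) (C : Fin q → NCirc E s t),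
    (∀ i, (C i).NotsFree) → (∀ i, (C i).gates.length ≤ G) → ∀ R : E → Bool,
    ∃ F : (Fin q → (Fin s → Bool) × (Fin t → Bool)) → (E → Bool) → Bool,
      (∀ p, MonSize (F p) (q * 2 ^ s * (2 * G + 3) + 1)) ∧
      ∀ y : E → Bool, (∀ e, y e = true → R e = true) →
        ((∃ p, F p y = true) ↔ Keep true mo C R y)

/-- DUA (130 lines). The dual circuits. PROOF. `tc_out` (`NLM/Trans.lean`, with `X e = !(x e.swap)`) gives
`outp (flip C) x u w = !(outp C (neg x) u w)`, `tl_vals` gives the values of all gates (negated), so the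
outputs of the NOT gates of `flip C` at `x` are the negations of those of `C` at `neg x`, at the same places
(`get_not`; for the other direction `tl` maps a NOT gate to a NOT gate: `List.getElem?_mapIdx`). `neg` is an
involution. `All (flip C) x` iff `C` does not accept `neg x`, and so on (compare `dl_acc`, `dl_all`).
`tc_nots`, `tc_length`, `tc_free`. -/
def Stmt_DUA : Prop :=
  ∀ (E : Type) (q s t : ℕ) (mo : Fin q → Bool) (C : Fin q → NCirc (E ⊕ E) s t),
    (∀ i, (C i).NotsFree → (flip (C i)).NotsFree) ∧ (∀ i, (flip (C i)).nots = (C i).nots) ∧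
    (∀ i, (flip (C i)).gates.length = (C i).gates.length) ∧
    ∀ x x' : E ⊕ E → Bool,
      (Keep true (fun i => !(mo i)) (fun i => flip (C i)) (neg x) (neg x') ↔ Keep false mo C x x') ∧
      (Same (fun i => !(mo i)) (fun i => flip (C i)) (neg x) (neg x') ↔ Same mo C x x')

/-! ### blindness -/

open Classical in
/-- BLD (220 lines). Blindness. If the disjunction of the monotone functions `F p`, `p ∈ Pt`, is `true` for
three quarters of the neutral fillings of a group then it is `true` for almost all positive tests in a random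
window of the group. PROOF. Everything is in the second half of the input; `b` is empty in the group `g`.
Call the window `i` bad if more than the part `1 / D` of the positive tests there have all `F p` equal to
`false`. Suppose there is a set `I` of `3 (τ + 1) + 1` bad windows. Fillings `χ` of the windows of `I` only
(the others of the group stay empty): the input is larger, so at least three quarters of these (more exactly:
`3 |Xn|^|I| ≤ 4 #`) have some `F p = true`. There is one `p` which works for at least the part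
`2 ^ (-(τ + 1))` of them (pigeonhole, as in `Pool.Agent.NNDT.core`). By `exists_letter` (`NNDT/Dp.lean`, with
`τ + 1` in place of `τ`, words indexed by `I ≃ Fin |I|`) there are a window `i ∈ I` and a filling of the
windows before it such that for more than three quarters of the letters `χ_i` there is a filling in the
set with this beginning and this letter; by monotonicity (`MonSize.monotone`, `NNDT/Core.lean`) `F p = true`
if the windows before `i` are filled in this way, `i` with `χ_i`, and the windows after `i` are empty. The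
function `f y` = `F p` of the input where the variables `e` of the second half in the window `i` are `y e`
is `MonSize.comp`; for `y = !(T.neu (g, i) χ e)` it is the function just considered. `Dich` gives that `f`
is `false` for at most the part `1 / D` of the `y = !(T.pos (g, i) x e)`; with the other windows of the group
empty the input is larger, so the window `i` is not bad, a contradiction. So at most `3 τ + 3` windows are
bad, and the sum over the windows is at most `K |Xp| + D (3 τ + 3) |Xp|` after multiplication by `D`. -/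
def Stmt_BLD : Prop :=
  ∀ (M K τ S D : ℕ) (E Xn Xp Pt : Type) [Fintype Xn] [Fintype Xp] [Fintype Pt] [Nonempty Xn]
    (T : Tests (Fin M × Fin K) E Xn Xp), T.Dis → T.Dich S D → Fintype.card Pt ≤ 2 ^ τ →
    ∀ F : Pt → (E ⊕ E → Bool) → Bool, (∀ p, MonSize (F p) S) →
    ∀ (a b : Fin M × Fin K → St Xn Xp) (g : Fin M), (∀ i, b (g, i) = St.emp) →
      3 * Fintype.card Xn ^ K ≤ 4 * ((univ : Finset (Fin K → Xn)).filter fun χ =>
        ∃ p, F p (T.inp a (fillN b g χ)) = true).card →
      D * ((univ : Finset (Fin K × Xp)).filter fun z =>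
          ¬ ∃ p, F p (T.inp a (setP b g z.1 z.2)) = true).card ≤
        (K + D * (3 * τ + 3)) * Fintype.card Xp

open Classical in
/-- The bound for one step in the second half. -/
def StepZ : Prop :=
  ∀ (M K q s t G D : ℕ) (E Xn Xp : Type) [Fintype Xn] [Fintype Xp] [Nonempty Xn] [Nonempty Xp]
    (T : Tests (Fin M × Fin K) E Xn Xp) (mo : Fin q → Bool) (C : Fin q → NCirc (E ⊕ E) s t),
    T.Dis → T.Dich (q * 2 ^ s * (2 * G + 3) + 1) D → (∀ i, (C i).NotsFree) →
    (∀ i, (C i).gates.length ≤ G) → 0 < K → 0 < D →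
    ∀ (a b : Fin M × Fin K → St Xn Xp) (g : Fin M), (∀ i, b (g, i) = St.emp) →
      (((univ : Finset (Fin K × Xp)).filter fun z =>
          ¬ Keep true mo C (T.inp a b) (T.inp a (setP b g z.1 z.2))).card : ℝ) /
          (K * Fintype.card Xp) ≤
        4 * (((univ : Finset (Fin K → Xn)).filter fun χ =>
          ¬ Same mo C (T.inp a b) (T.inp a (fillN b g χ))).card : ℝ) / (Fintype.card Xn) ^ K +
          (1 / D + (3 * (q * (s + t)) + 3) / K)

/-- STZ (130 lines). PROOF. If more than one quarter of the `χ` have `¬ Same` the right-hand side is at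
least `1`. Otherwise take `F` from PRG for `R = T.inp a b` (`Pt` = the functions `p`, `2 ^ (q (s + t))` of
them, `τ = q * (s + t)`). `Same R y` implies `Keep true R y` (an accepted input has a `u` with `Bit`), and
the inputs `T.inp a (fillN b g χ)`, `T.inp a (setP b g i x)` are below `R`, since `b` is empty in the group.
So BLD applies. -/
def Stmt_STZ : Prop := Stmt_MNT → Stmt_PRG → Stmt_BLD → StepZ

open Classical in
/-- STX (80 lines). The same for the first half and the coNP mode. PROOF. Apply `StepZ` to the circuits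
`flip (C i)` and the modes `!(mo i)`, with `a` and `b` exchanged; `neg (T.inp a b) = T.inp b a`; DUA. -/
def Stmt_STX : Prop := Stmt_DUA → StepZ →
  ∀ (M K q s t G D : ℕ) (E Xn Xp : Type) [Fintype Xn] [Fintype Xp] [Nonempty Xn] [Nonempty Xp]
    (T : Tests (Fin M × Fin K) E Xn Xp) (mo : Fin q → Bool) (C : Fin q → NCirc (E ⊕ E) s t),
    T.Dis → T.Dich (q * 2 ^ s * (2 * G + 3) + 1) D → (∀ i, (C i).NotsFree) →
    (∀ i, (C i).gates.length ≤ G) → 0 < K → 0 < D →
    ∀ (a b : Fin M × Fin K → St Xn Xp) (g : Fin M), (∀ i, a (g, i) = St.emp) →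
      (((univ : Finset (Fin K × Xp)).filter fun z =>
          ¬ Keep false mo C (T.inp a b) (T.inp (setP a g z.1 z.2) b)).card : ℝ) /
          (K * Fintype.card Xp) ≤
        4 * (((univ : Finset (Fin K → Xn)).filter fun χ =>
          ¬ Same mo C (T.inp a b) (T.inp (fillN a g χ) b)).card : ℝ) / (Fintype.card Xn) ^ K +
          (1 / D + (3 * (q * (s + t)) + 3) / K)

/-! ### the random chain -/

/-- CFS (170 lines). Facts about `conf`. PROOF. Unfold `conf`, `fillN`, `setP`; for (6): the symmetric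
permutation of `(Equiv.swap i j).trans π` maps `w` to `swap i j (π.symm w)`; if the role of `w` is neither
`i` nor `j` nothing changes; if it is `i` or `j` both sides are `emp` since `g ≤ i < J` and `J + l ≤ j`.
(5): the windows with a positive test are `(ω.1 j, (ω.2.2 j).1)` for the `l` roles `j` with
`J ≤ j < J + l`. -/
def Stmt_CFS : Prop :=
  ∀ (M K J : ℕ) (Xn Xp : Type) (ω : Play M K Xn Xp) (g l : ℕ),
    -- (1) the next positive test
    (∀ j : Fin M, (j : ℕ) = J + l → g ≤ J →
      (∀ i, conf J ω g l (ω.1 j, i) = St.emp) ∧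
      conf J ω g (l + 1) = setP (conf J ω g l) (ω.1 j) (ω.2.2 j).1 (ω.2.2 j).2) ∧
    -- (2) the next neutral group
    (∀ j : Fin M, (j : ℕ) = g → g < J →
      (∀ i, conf J ω g l (ω.1 j, i) = St.emp) ∧
      conf J ω (g + 1) l = fillN (conf J ω g l) (ω.1 j) (ω.2.1 j)) ∧
    -- (3) order
    (Sub (conf J ω g l) (conf J ω g (l + 1))) ∧
    (g < J → Sub (conf J ω g l) (conf J ω (g + 1) l)) ∧
    -- (4) `conf` does not depend on the choices for the role number `J + l`
    (∀ j : Fin M, (j : ℕ) = J + l → g ≤ J → ∀ (c : Fin K → Xn) (p : Fin K × Xp),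
      conf J (ω.1, Function.update ω.2.1 j c, Function.update ω.2.2 j p) g l = conf J ω g l) ∧
    -- (5) the number of the positive tests
    (g ≤ J → J + l ≤ M → cntP (conf J ω g l) = l) ∧
    -- (6) exchange of two unused roles
    ∀ i j : Fin M, (i : ℕ) = g → g < J → (j : ℕ) = J + l →
      conf J ((Equiv.swap i j).trans ω.1, ω.2.1 ∘ Equiv.swap i j, ω.2.2 ∘ Equiv.swap i j) g l =
        conf J ω g l

/-- RES (40 lines). Averaging again over one coordinate. PROOF. The map `(ω, x) ↦ (update ω r x, ω r)` is a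
bijection of `(I → X) × X`; or write the sum over `I → X` as a sum over the other coordinates
(`Equiv.funSplitAt`) and the coordinate `r`. -/
def Stmt_RES : Prop :=
  ∀ (I X : Type) [Fintype I] [DecidableEq I] [Fintype X] (r : I) (f : (I → X) → ℝ),
    ∑ ω : I → X, ∑ x : X, f (Function.update ω r x) = Fintype.card X * ∑ ω, f ω

open Classical in
/-- STP (180 lines). One step of the random chain, one half. PROOF. Let `j` be the role `J + l`, `i` the
role `g`, `B ω = conf J ω g l`. By CFS (1) the left-hand side is the number of the `ω` with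
`¬ X (B ω) (setP (B ω) (ω.1 j) (ω.2.2 j).1 (ω.2.2 j).2)`. By RES for the coordinate `j` of `ω.2.2` and CFS (4)
this number times `K |Xp|` is the sum over `ω` of the number of the `z` with
`¬ X (B ω) (setP (B ω) (ω.1 j) z.1 z.2)`, which by hypothesis is at most `K |Xp| (4 n / |Xn|^K + δ)`, `n` the
number of the `χ` with `Φ (fillN (B ω) (ω.1 j) χ) ≠ Φ (B ω)`. By RES for the coordinate `j` of `ω.2.1`
(alphabet `Fin K → Xn`) the sum of the `n / |Xn|^K` is the number of the `ω` with
`Φ (fillN (B ω) (ω.1 j) (ω.2.1 j)) ≠ Φ (B ω)`. By the bijection of CFS (6), `ω ↦ ω'` with exchanged roles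
`i`, `j` (`B ω' = B ω`, `ω'.1 i = ω.1 j`, `ω'.2.1 i = ω.2.1 j`), this is the number of the `ω` with
`Φ (fillN (B ω) (ω.1 i) (ω.2.1 i)) ≠ Φ (B ω)`, and CFS (2). -/
def Stmt_STP : Prop := Stmt_CFS → Stmt_RES →
  ∀ (M K J : ℕ) (Xn Xp : Type) [Fintype Xn] [Fintype Xp] [Nonempty Xn] [Nonempty Xp] (δ : ℝ)
    (Φ : (Fin M × Fin K → St Xn Xp) → ℕ)
    (X : (Fin M × Fin K → St Xn Xp) → (Fin M × Fin K → St Xn Xp) → Prop), 0 < K →
    (∀ (a : Fin M × Fin K → St Xn Xp) (g : Fin M), (∀ i, a (g, i) = St.emp) →
      (((univ : Finset (Fin K × Xp)).filter fun z => ¬ X a (setP a g z.1 z.2)).card : ℝ) /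
          (K * Fintype.card Xp) ≤
        4 * (((univ : Finset (Fin K → Xn)).filter fun χ => Φ (fillN a g χ) ≠ Φ a).card : ℝ) /
          (Fintype.card Xn) ^ K + δ) →
    ∀ g l : ℕ, g < J → J + l < M →
      (((univ : Finset (Play M K Xn Xp)).filter fun ω =>
          ¬ X (conf J ω g l) (conf J ω g (l + 1))).card : ℝ) ≤
        4 * (((univ : Finset (Play M K Xn Xp)).filter fun ω =>
          Φ (conf J ω (g + 1) l) ≠ Φ (conf J ω g l)).card : ℝ) +
          δ * Fintype.card (Play M K Xn Xp)

/-- TEL (40 lines). The antidiagonal. PROOF. With `U i g = V i g (J - g)` the sum over `g < J` of the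
left-hand sides telescopes to `∑ i, (U i 0 - U i J) ≤ n P`; take the smallest of the `J` terms. -/
def Stmt_TEL : Prop :=
  ∀ (J n : ℕ) (P : ℝ) (V : Fin n → ℕ → ℕ → ℝ), 0 < J →
    (∀ i g h, 0 ≤ V i g h ∧ V i g h ≤ P) →
    ∃ g < J, ∑ i, (V i g (J - g) - V i (g + 1) (J - 1 - g)) ≤ n * P / J

open Classical in
/-- GAM (250 lines). The random chain. PROOF. Let `N` be the number of the plays, `h = J - 1 - g`. TEL for
the `2 L` functions `V (g, h)` = mean over `(ω, ω')` of `Φ (conf ω g l) (conf ω' h l)` (X step number `l`)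
and of `Φ (conf ω g (l + 1)) (conf ω' h l)` (Z step number `l`), `l < L`, gives `g < J` with the sum of the
`V (g, J - g) - V (g + 1, J - 1 - g)` at most `2 L P / J ≤ 1 / 8`. X step: the number of the `(ω, ω')` with
`Φ (conf ω (g+1) l) (conf ω' h l) ≠ Φ (conf ω g l) (conf ω' h l)` is at most the sum of the differences
(integers, `Φ` decreases in the first argument), which is at most
`N ^ 2 (V (g, J - g) - V (g + 1, J - 1 - g))` as `Φ` grows in the second argument and `J - g = h + 1`
(CFS (3), (4)). In the same way for the Z step with `Φ (conf ω g (l+1)) (conf ω' (h+1) l)`. By STP (for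
fixed `ω'`, resp. for fixed `ω`; in the second half with `h` in place of `g`; `J + l < M`) the number of
the `(ω, ω')` with some bad step is at most `N ^ 2 (4 * 2 L P / J + 2 L δ) < N ^ 2`. Take `(ω, ω')`
without bad steps, `a l = conf ω g l`, `b l = conf ω' h l`. -/
def Stmt_GAM : Prop := Stmt_CFS → Stmt_STP → Stmt_RES → Stmt_TEL →
  ∀ (M K L J P : ℕ) (Xn Xp : Type) [Fintype Xn] [Fintype Xp] [Nonempty Xn] [Nonempty Xp] (δ : ℝ)
    (Φ : (Fin M × Fin K → St Xn Xp) → (Fin M × Fin K → St Xn Xp) → ℕ)
    (X Z : (Fin M × Fin K → St Xn Xp) → (Fin M × Fin K → St Xn Xp) →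
      (Fin M × Fin K → St Xn Xp) → Prop), M = J + L → 0 < K → 0 < J →
    (∀ a b, Φ a b ≤ P) → (∀ a a' b, Sub a a' → Φ a' b ≤ Φ a b) →
    (∀ a b b', Sub b b' → Φ a b ≤ Φ a b') →
    (∀ (a b : Fin M × Fin K → St Xn Xp) (g : Fin M), (∀ i, a (g, i) = St.emp) →
      (((univ : Finset (Fin K × Xp)).filter fun z => ¬ X a b (setP a g z.1 z.2)).card : ℝ) /
          (K * Fintype.card Xp) ≤
        4 * (((univ : Finset (Fin K → Xn)).filter fun χ => Φ (fillN a g χ) b ≠ Φ a b).card : ℝ) /
          (Fintype.card Xn) ^ K + δ) →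
    (∀ (a b : Fin M × Fin K → St Xn Xp) (g : Fin M), (∀ i, b (g, i) = St.emp) →
      (((univ : Finset (Fin K × Xp)).filter fun z => ¬ Z a b (setP b g z.1 z.2)).card : ℝ) /
          (K * Fintype.card Xp) ≤
        4 * (((univ : Finset (Fin K → Xn)).filter fun χ => Φ a (fillN b g χ) ≠ Φ a b).card : ℝ) /
          (Fintype.card Xn) ^ K + δ) →
    0 ≤ δ → 16 * L * P ≤ J → 4 * (L * δ) < 1 →
    ∃ a b : ℕ → Fin M × Fin K → St Xn Xp,
      (∀ l ≤ L, cntP (a l) = l ∧ cntP (b l) = l) ∧
      ∀ l < L, Sub (a l) (a (l + 1)) ∧ Sub (b l) (b (l + 1)) ∧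
        X (a l) (b l) (a (l + 1)) ∧ Z (a (l + 1)) (b l) (b (l + 1))

/-- CON (130 lines). The chain is short. PROOF. Let `n l` be the number of the `i` with `mo i = true` and
`Ans true (C i) (T.inp (a l) (b l))`. In the step from `(a l, b l)` to `(a (l+1), b l)` the function `Fn`
changes from `false` to `true`, so some answer `Ans (mo i) (C i)` changes, and `mo i = true` because of
`Keep false`; the input grows (`Sub`; `T.xin` is monotone: `val emp` is `false`), the NOT gates do not
change, so by MNT no answer changes from `true` to `false`; so the number grows by at least one. In the step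
to `(a (l+1), b (l+1))` it does not change by `Keep true`. So `n l ≥ l`, and `n L ≤ q`. -/
def Stmt_CON : Prop := Stmt_MNT →
  ∀ (M K L q s t : ℕ) (E Xn Xp : Type) (T : Tests (Fin M × Fin K) E Xn Xp) (mo : Fin q → Bool)
    (C : Fin q → NCirc (E ⊕ E) s t) (D : (Fin q → Prop) → Prop) (Fn : (E ⊕ E → Bool) → Prop),
    (∀ i, (C i).NotsFree) → (∀ x, Fn x ↔ D fun i => Ans (mo i) (C i) x) →
    (∀ a b, Fn (T.inp a b) ↔ cntP b < cntP a) →
    ∀ a b : ℕ → Fin M × Fin K → St Xn Xp, (∀ l ≤ L, cntP (a l) = l ∧ cntP (b l) = l) →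
    (∀ l < L, Sub (a l) (a (l + 1)) ∧
      Keep false mo C (T.inp (a l) (b l)) (T.inp (a (l + 1)) (b l)) ∧
      Keep true mo C (T.inp (a (l + 1)) (b l)) (T.inp (a (l + 1)) (b (l + 1)))) → L ≤ q

/-! ### cliques -/

/-- CNT (170 lines). The number of the cliques. PROOF. A set `S` of `k` vertices which is a clique of
`T.xin a`: all pairs belong to windows, so by `Pool.Agent.NEG72.one_window` they belong to one window
`φ w` (`hφD`, and `InWin.unique`, `φ` injective), and the edges of `S` are `true` in `T.val w (a w)`. For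
`emp` there is none, for `neu χ` there is none (as in `winClq_neg`), for `pos τ` exactly
`S = univ.image fun i => vx (i, τ i)` (as in `winClq_pos`; `S` has `k` elements and each is of this form,
since it lies on an edge of `tpos` and `k ≥ 2`). So the cliques correspond to the windows with a positive
test. `indeps` of the negated graph are the cliques. -/
def Stmt_CNT : Prop :=
  ∀ (v k Q b M K : ℕ) (hv : k * (2 * Q) * b ≤ v) (A : Finset ℕ) (φ : Fin M × Fin K → ℕ × ℕ)
    (hφ : ∀ w, ∀ i < k, (φ w).1 + i * (φ w).2 < 2 * Q), 2 ≤ k → 0 < b →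
    ThreeAPFree (A : Set ℕ) → Function.Injective φ → (∀ w, φ w ∈ Finset.range Q ×ˢ A) →
    (winT hv φ hφ).Dis ∧
    ∀ a b', More v k ((winT hv φ hφ).inp a b') ↔ cntP b' < cntP a

/-- DIC (150 lines). The dichotomy for one window. PROOF. Let `f` be as in `Dich`, `f' = dual f`
(`NegLim.dual`, `MonSize.dual`): `f'` is `false` for more than three quarters of the `tneg χ`; to show: `f'`
is `true` for at most the part `1 / D` of the `tpos τ`. Apply `Pool.Agent.NPP.APP_thm : Stmt_APP`
(`NPP/Stmts.lean`, `NPP/APP.lean`) with `V = Fin k × Fin b`, `c = k - 1`, `P = Fin k → Fin b`,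
`K = tgraph`, `pos = tpos`, `neg = tneg`; the family of an edge as in `win_bound34` (`NNDT/Wb.lean`); the
number of the `τ` with `Y ⊆ tgraph τ` times `b ^ |Y|` is at most `b ^ k` (as in `card_tgraph`, or zero).
If the family contains a set with at most one element then `AccN` holds for all colourings, so `f'` is
`false` only in `BN`, at most the part `4 S (2 h p)^(4 h) / 2 ^ p ≤ 3 / 4`, a contradiction. Otherwise the
`τ` with `f' = 1` are in `BP`, at most the part `S / 2 ^ (2 h) ≤ 1 / (2 D)`, or contain a set `X ∈ A` with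
at least two elements, at most the part `∑_{a ≥ 2} (2 h p / b)^a ≤ 2 (2 h p / b)^2 ≤ 1 / (2 D)`. -/
def Stmt_DIC : Prop :=
  ∀ (v k Q b S D h p : ℕ) (hv : k * (2 * Q) * b ≤ v) (W : Type) (φ : W → ℕ × ℕ)
    (hφ : ∀ w, ∀ i < k, (φ w).1 + i * (φ w).2 < 2 * Q), 1 ≤ h → 2 * h * (2 * h - 1) ≤ k - 1 →
    2 ≤ p → 4 * (p * (2 * h)) ≤ b → 0 < D → 2 * D * S ≤ 2 ^ (2 * h) →
    4 * D * (2 * h * p) ^ 2 ≤ b ^ 2 → 16 * S * (p * (2 * h)) ^ (4 * h) ≤ 3 * 2 ^ p →
    (winT hv φ hφ).Dich S D

/-! ### numbers -/

/-- NUM (300 lines, may be split). The parameters. PROOF. `x = v ^ (ε / 64)`; `h = ⌊x / 3⌋`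
(`2 h (2 h - 1) ≤ 4 x² / 9 ≤ k - 1` for large `v`), `p = ⌈x²⌉`, `D = 32 L`, `L = q + 1`,
`K = 48 L (q (s + t) + 1)` (so `4 L (1 / D + (3 q (s + t) + 3) / K) ≤ 1/8 + 1/4`), `J = 32 q L 2^(s+r)`
(at least `16 L P`, and `J > 0`), `b = 24 L' h p` with `L' = ⌈√(L)⌉` (`b ² ≥ 4 D (2 h p)²`, i.e.
`576 ≥ 512`), `Q`, `A` from `Pool.Agent.NEG72.params_explicit` (`NEG72/WinU.lean`; `2 k b k ≤ v` since
`q ^ 5 ≤ N ≤ v ²`). From `q ^ 5 2 ^ (s+r) (t+1) ≤ N ^ (1-ε)`, `N ≤ v ² / 2`: `q, s + 1 ≤ v`-powers:
`2 ^ s ≤ v ^ 2`, so `s ≤ 2 log2 v`. `S = q 2 ^ s (2 G + 3) + 1 ≤ v ^ 4 (2 G + 4)`, `G < 2 ^ (v ^ (ε / 100))`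
(`N ^ (ε/200) ≤ v ^ (ε / 100)`), so `2 D S ≤ 2 ^ (2 h)` as `2 h ≥ v ^ (ε / 64) / 2` is larger than
`v ^ (ε / 100) + O(log v)`; `4 h log2 (2 h p) + log2 (16 S) ≤ x² ≤ p`. The number of the windows:
`(J + L) K ≤ 33 q L 2^(s+r) · 48 L (q (s+t) + 1) ≤ C q^4 2^(s+r) (t+1) (s+1)` (as `L ≤ 2 q`,
`q (s + t) + 1 ≤ q (s+1) (t+1)`), `32 k³ b² ≤ C' k³ L h² p² ≤ C'' q v ^ (6 ε / 64 + 2 ε / 64 + 4 ε / 64)`,
so the product is at most `C''' (s+1) v ^ (12 ε / 64) N ^ (1 - ε)`, and `e ^ (4 √(log v)) ≤ v ^ (ε / 64)`. -/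
def Stmt_NUM : Prop :=
  ∀ ε : ℝ, 0 < ε → ε ≤ 1 → ∃ v₀ : ℕ, ∀ v ≥ v₀, ∀ k N q s t r G : ℕ,
    k = ⌊(v : ℝ) ^ (ε / 32)⌋₊ → N = v * (v - 1) / 2 → 1 ≤ q →
    ((q ^ 5 * 2 ^ (s + r) * (t + 1) : ℕ) : ℝ) ≤ (N : ℝ) ^ (1 - ε) →
    (G : ℝ) < (2 : ℝ) ^ ((N : ℝ) ^ (ε / 200)) →
    ∃ (h p b D J K Q : ℕ) (A : Finset ℕ), 2 ≤ k ∧ 1 ≤ h ∧ 2 * h * (2 * h - 1) ≤ k - 1 ∧ 2 ≤ p ∧
      4 * (p * (2 * h)) ≤ b ∧ 0 < b ∧ 0 < D ∧ 0 < J ∧ 0 < K ∧
      2 * D * (q * 2 ^ s * (2 * G + 3) + 1) ≤ 2 ^ (2 * h) ∧ 4 * D * (2 * h * p) ^ 2 ≤ b ^ 2 ∧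
      16 * (q * 2 ^ s * (2 * G + 3) + 1) * (p * (2 * h)) ^ (4 * h) ≤ 3 * 2 ^ p ∧
      16 * (q + 1) * (q * 2 ^ (s + r + 1)) ≤ J ∧
      4 * (((q + 1 : ℕ) : ℝ) * (1 / D + (3 * (q * (s + t)) + 3) / K)) < 1 ∧
      ThreeAPFree (A : Set ℕ) ∧
      (∀ w ∈ Finset.range Q ×ˢ A, ∀ i < k, w.1 + i * w.2 < 2 * Q) ∧ k * (2 * Q) * b ≤ v ∧
      (J + (q + 1)) * K ≤ Q * A.card

end Pool.Agent.NBC
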